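import Mathlib

/-!
Classes of periodic functions of mixed smoothness and their entropy numbers in the uniform norm.
-/

open MeasureTheory
open scoped ENNReal Real

namespace Pool.Agent.Helper60.SB

/-- Normalised Lebesgue measure on `[0, 2π)`. -/
noncomputable def tor1 : Measure ℝ :=
  (ENNReal.ofReal (2 * π))⁻¹ • (volume.restrict (Set.Ico 0 (2 * π)))

/-- Normalised Lebesgue measure on `[0, 2π)^d`. -/
noncomputable def tor (d : ℕ) : Measure (Fin d → ℝ) := Measure.pi fun _ => tor1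

/-- The kernel `1 + 2 ∑_{k ≥ 1} k^{-r} cos (k x - a π / 2)` (sum of the series as the limit of its
partial sums). -/
noncomputable def bern (r a x : ℝ) : ℝ :=
  1 + 2 * Filter.limUnder Filter.atTop fun N : ℕ =>
    ∑ k ∈ Finset.range N, ((k : ℝ) + 1) ^ (-r) * Real.cos (((k : ℝ) + 1) * x - a * π / 2)

/-- The kernel `F_r(x) = ∏_j F_r(x_j)`, `F_r(x) = 1 + 2 ∑_{k ≥ 1} k^{-r} cos (k x - r π / 2)`. -/
noncomputable def Fker {d : ℕ} (r : ℝ) (x : Fin d → ℝ) : ℝ := ∏ i, bern r r (x i)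

/-- The class `W^r_p = {F_r * φ : ‖φ‖_p ≤ 1}`. -/
def Wclass (d : ℕ) (𝕜 : Type) [RCLike 𝕜] (r : ℝ) (p : ℝ≥0∞) : Set ((Fin d → ℝ) → 𝕜) :=
  {f | ∃ φ : (Fin d → ℝ) → 𝕜, MemLp φ p (tor d) ∧ eLpNorm φ p (tor d) ≤ 1 ∧
    f = fun x => ∫ y, (Fker r (x - y) : 𝕜) * φ y ∂(tor d)}

/-- The mixed difference `Δ^{l,e}_t f = (∏_{j ∈ e} Δ^l_{t_j,j}) f`, where
`Δ^l_{t,j} f(x) = ∑_{ν ≤ l} (-1)^{l-ν} (l choose ν) f(x + ν t e_j)`, written out. -/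
noncomputable def mixedDiff {d : ℕ} {𝕜 : Type} [RCLike 𝕜] (l : ℕ) (e : Finset (Fin d))
    (t : Fin d → ℝ) (f : (Fin d → ℝ) → 𝕜) (x : Fin d → ℝ) : 𝕜 :=
  ∑ ν ∈ Fintype.piFinset (fun j => if j ∈ e then Finset.range (l + 1) else {0}),
    (∏ j ∈ e, (-1 : 𝕜) ^ (l - ν j) * (l.choose (ν j) : 𝕜)) * f (fun j => x j + ν j * t j)

/-- The class `H^r_p`: measurable functions, `2π`-periodic in each variable, with `‖f‖_p ≤ 1` and
`‖Δ^{l,e}_t f‖_p ≤ ∏_{j ∈ e} |t_j|^r` for all nonempty `e` and all `t`, where `l = ⌊r⌋ + 1`. -/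
def Hclass (d : ℕ) (𝕜 : Type) [RCLike 𝕜] (r : ℝ) (p : ℝ≥0∞) : Set ((Fin d → ℝ) → 𝕜) :=
  {f | Measurable f ∧ (∀ x j, f (Function.update x j (x j + 2 * π)) = f x) ∧
    eLpNorm f p (tor d) ≤ 1 ∧
    ∀ (e : Finset (Fin d)) (t : Fin d → ℝ), e.Nonempty →
      eLpNorm (mixedDiff (⌊r⌋₊ + 1) e t f) p (tor d) ≤ ENNReal.ofReal (∏ j ∈ e, |t j| ^ r)}

/-- The `n`-th entropy number of a set `F` of functions in `L_∞(𝕋^d)`: the infimum of all `ε > 0`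
for which there are `y_1, …, y_{2^n}` in `L_∞` such that every `f ∈ F` satisfies
`‖f - y_j‖_∞ ≤ ε` for some `j`. -/
noncomputable def entropyNumber {d : ℕ} {𝕜 : Type} [RCLike 𝕜] (n : ℕ)
    (F : Set ((Fin d → ℝ) → 𝕜)) : ℝ≥0∞ :=
  sInf {ε | 0 < ε ∧ ∃ y : Fin (2 ^ n) → (Fin d → ℝ) → 𝕜, (∀ j, MemLp (y j) ⊤ (tor d)) ∧
    ∀ f ∈ F, ∃ j, eLpNorm (f - y j) ⊤ (tor d) ≤ ε}

end Pool.Agent.Helper60.SB
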