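import Pool.Agent.Helper60.SB.Defs
import Pool.Agent.Helper60.SB.ClassDefs

/-!
Auxiliary definitions shared by the modules.
-/

open Finset MeasureTheory
open scoped ENNReal Real

namespace Pool.Agent.Helper60.SB

section B

variable {ι D T P : Type*} [Fintype ι] [DecidableEq ι] [Fintype D] [DecidableEq D] [Fintype T]
  [DecidableEq T]

/-- the signed sum at depth `i` at the point `x` -/
def Gs (id : D → T → P → ι) (e1 : D → T → P → ℝ) (β : ι → Bool) (i : D) (x : P) : ℝ :=
  ∑ t, sg (β (id i t x)) * e1 i t x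

/-- the Riesz product -/
noncomputable def rz (id : D → T → P → ι) (e0 : D → P → ℝ) (e1 : D → T → P → ℝ) (u : ℝ)
    (β : ι → Bool) (x : P) : ℝ :=
  ∏ i, (1 + (1 / 2) * (e0 i x * Real.sin (Gs id e1 β i x / u)))

/-- the covariance of the sines -/
noncomputable def Cf (id : D → T → P → ι) (e1 : D → T → P → ℝ) (u : ℝ) (i : D) (x y : P) : ℝ :=
  av fun β : ι → Bool => Real.sin (Gs id e1 β i x / u) * Real.sin (Gs id e1 β i y / u)

/-- the one-shape factor in the explicit formula for `Cf` -/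
noncomputable def mm (u q : ℝ) : ℝ :=
  if q = 0 then Real.cos (1 / u) ^ 2 else if q = 1 then 1 else Real.cos (2 / u)

end B

/-- centre of the `x`-th dyadic cell of length `2^{-T}` -/
noncomputable def pt (T : ℕ) (x : Fin (2 ^ T)) : ℝ := ((x : ℝ) + 1 / 2) / 2 ^ T

/-- sampled building block -/
noncomputable def vs (u : ℝ → ℝ) (T s : ℕ) (x : Fin (2 ^ T)) : ℝ := u (2 ^ s * pt T x - pre T s x)

/-- the function attached to a box -/
noncomputable def bx {e m : ℕ} (u : ℝ → ℝ) (R : Box e m) (y : Fin (e + 2) → ℝ) : ℝ :=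
  ∏ j, u (2 ^ shp e m R.1 j * y j - (R.2 j : ℕ))

/-- the Fourier multiplier of the kernel `bern r a` -/
noncomputable def bmul (r a : ℝ) (k : ℤ) : ℂ :=
  if k = 0 then 1 else
    ((|(k : ℝ)| ^ (-r) : ℝ) : ℂ) * Complex.exp (-(Complex.I * (SignType.sign k : ℤ) * (a * π / 2)))

/-- `2π`-periodised building block: `u (2^s x/(2π) - c)` on `[0, 2π)` -/
noncomputable def ub (u : ℝ → ℝ) (s c : ℕ) (x : ℝ) : ℝ := u (2 ^ s * Int.fract (x / (2 * π)) - c)

/-- the periodic function attached to a box -/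
noncomputable def bxp {e m : ℕ} (u : ℝ → ℝ) (R : Box e m) (x : Fin (e + 2) → ℝ) : ℝ :=
  ∏ j, ub u (shp e m R.1 j) (R.2 j) (x j)

end Pool.Agent.Helper60.SB
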