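import Mathlib

/-!
Random-sign small ball theorem for hyperbolic sums: basic definitions.
-/

open Finset

namespace Pool.Agent.Helper60.SB

/-- The sign of a bit. -/
def sg (b : Bool) : ℝ := if b then 1 else -1

@[simp] lemma sg_true : sg true = 1 := rfl
@[simp] lemma sg_false : sg false = -1 := rfl

lemma sg_mul_self (b : Bool) : sg b * sg b = 1 := by cases b <;> norm_num [sg]

lemma abs_sg (b : Bool) : |sg b| = 1 := by cases b <;> norm_num [sg]

/-- Average over all sign patterns (with values in a field). -/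
noncomputable def av {ι : Type*} [Fintype ι] [DecidableEq ι] {K : Type*} [Field K]
    (f : (ι → Bool) → K) : K := (∑ β, f β) / 2 ^ Fintype.card ι

/-- The prefix of length `s` of a binary number `x` with `T` digits. -/
def pre (T s : ℕ) (x : Fin (2 ^ T)) : ℕ := x.val / 2 ^ (T - s)

/-- The Haar sign at depth `s`: the digit number `s + 1` of `x`, as a sign. -/
def hs (T s : ℕ) (x : Fin (2 ^ T)) : ℝ := if (x.val / 2 ^ (T - (s + 1))) % 2 = 1 then 1 else -1

/-- The shape with free coordinates `t ∈ [0,m)^(e+1)` and last coordinate `n - ∑ t`, where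
`n = (e+2) m`. -/
def shp (e m : ℕ) (t : Fin (e + 1) → Fin m) : Fin (e + 2) → ℕ :=
  Fin.snoc (α := fun _ => ℕ) (fun j => (t j : ℕ)) ((e + 2) * m - ∑ j, (t j : ℕ))

/-- Dyadic boxes in dimension `e+2` of volume `2^(-(e+2)m)` whose first `e+1` side exponents are
smaller than `m`: the shape and the position. -/
abbrev Box (e m : ℕ) : Type :=
  Σ t : Fin (e + 1) → Fin m, ((j : Fin (e + 2)) → Fin (2 ^ shp e m t j))

/-- The tensor-product building block of the box `R`: it vanishes outside `R` and equals
`∏ v_{s_j}(x_j)` in `R`. -/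
def wt {e m T : ℕ} (v : ℕ → Fin (2 ^ T) → ℝ) (R : Box e m) (x : Fin (e + 2) → Fin (2 ^ T)) : ℝ :=
  ∏ j, if pre T (shp e m R.1 j) (x j) = R.2 j then v (shp e m R.1 j) (x j) else 0

end Pool.Agent.Helper60.SB
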