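import Pool.Agent.Helper60.SB.Defs2
import Pool.Agent.Helper60.SB.ClassDefs

/-!
Definitions for the upper bounds: trigonometric polynomials, coverings, level sets.
-/

open Finset MeasureTheory
open scoped ENNReal Real

namespace Pool.Agent.Helper60.SB

/-- the exponential `e^{i k x}` -/
noncomputable def ex {d : ℕ} (k : Fin d → ℤ) (x : Fin d → ℝ) : ℂ :=
  Complex.exp (Complex.I * ∑ j, (k j : ℂ) * (x j : ℂ))

/-- the Fourier coefficient -/
noncomputable def fc {d : ℕ} (f : (Fin d → ℝ) → ℂ) (k : Fin d → ℤ) : ℂ :=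
  ∫ x, f x * ex (-k) x ∂(tor d)

/-- the complex coefficient of a real vector -/
noncomputable def cco {d : ℕ} {Q : Finset (Fin d → ℤ)} (y : Q × Bool → ℝ) (k : Q) : ℂ :=
  (y (k, false) : ℂ) + (y (k, true) : ℂ) * Complex.I

/-- the trigonometric polynomial with the coefficient vector `y` -/
noncomputable def TT {d : ℕ} (Q : Finset (Fin d → ℤ)) (y : Q × Bool → ℝ) (x : Fin d → ℝ) : ℂ :=
  ∑ k : Q, cco y k * ex (k : Fin d → ℤ) x

lemma norm_ex {d : ℕ} (k : Fin d → ℤ) (x : Fin d → ℝ) : ‖ex k x‖ = 1 := by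
  unfold ex
  have : Complex.I * ∑ j, (k j : ℂ) * (x j : ℂ) = ((∑ j, (k j : ℝ) * x j : ℝ) : ℂ) * Complex.I := by
    push_cast; ring
  rw [this, Complex.norm_exp_ofReal_mul_I]

lemma TT_le {d : ℕ} (Q : Finset (Fin d → ℤ)) (y : Q × Bool → ℝ) (x : Fin d → ℝ) :
    ‖TT Q y x‖ ≤ ∑ k : Q, ‖cco y k‖ := by
  unfold TT
  refine (norm_sum_le _ _).trans (le_of_eq ?_)
  refine Finset.sum_congr rfl fun k _ => ?_
  rw [norm_mul, norm_ex, mul_one]

lemma TT_bdd {d : ℕ} (Q : Finset (Fin d → ℤ)) (y : Q × Bool → ℝ) :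
    BddAbove (Set.range fun x => ‖TT Q y x‖) :=
  ⟨∑ k : Q, ‖cco y k‖, by rintro _ ⟨x, rfl⟩; exact TT_le Q y x⟩

lemma TT_add {d : ℕ} (Q : Finset (Fin d → ℤ)) (y z : Q × Bool → ℝ) (x : Fin d → ℝ) :
    TT Q (y + z) x = TT Q y x + TT Q z x := by
  unfold TT cco
  rw [← Finset.sum_add_distrib]
  refine Finset.sum_congr rfl fun k _ => ?_
  simp only [Pi.add_apply]
  push_cast; ring

lemma TT_smul {d : ℕ} (Q : Finset (Fin d → ℤ)) (c : ℝ) (y : Q × Bool → ℝ) (x : Fin d → ℝ) :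
    TT Q (c • y) x = c * TT Q y x := by
  unfold TT cco
  rw [Finset.mul_sum]
  refine Finset.sum_congr rfl fun k _ => ?_
  simp only [Pi.smul_apply, smul_eq_mul]
  push_cast; ring

/-- the sup norm of the trigonometric polynomial as a seminorm on coefficient vectors -/
noncomputable def supn {d : ℕ} (Q : Finset (Fin d → ℤ)) : Seminorm ℝ (Q × Bool → ℝ) :=
  Seminorm.of (fun y => ⨆ x, ‖TT Q y x‖)
    (fun y z => ciSup_le fun x => by
      rw [TT_add]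
      exact (norm_add_le _ _).trans
        (add_le_add (le_ciSup (TT_bdd Q y) x) (le_ciSup (TT_bdd Q z) x)))
    (fun c y => by
      simp only [TT_smul]
      rw [Real.mul_iSup_of_nonneg (norm_nonneg c)]
      congr 1
      ext x
      rw [norm_mul, Complex.norm_real])

lemma le_supn {d : ℕ} (Q : Finset (Fin d → ℤ)) (y : Q × Bool → ℝ) (x : Fin d → ℝ) :
    ‖TT Q y x‖ ≤ supn Q y := le_ciSup (TT_bdd Q y) x

lemma supn_le {d : ℕ} (Q : Finset (Fin d → ℤ)) (y : Q × Bool → ℝ) {A : ℝ}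
    (h : ∀ x, ‖TT Q y x‖ ≤ A) : supn Q y ≤ A := ciSup_le h

/-- `S` is covered by at most `exp K` sets `{a : R a y}` -/
def Cov {V : Type*} (S : Set V) (R : V → V → Prop) (K : ℝ) : Prop :=
  ∃ t : Finset V, (t.card : ℝ) ≤ Real.exp K ∧ ∀ a ∈ S, ∃ y ∈ t, R a y

/-- Euclidean distance at most `ε` -/
def eucl {ι : Type*} [Fintype ι] (ε : ℝ) (a y : ι → ℝ) : Prop := ∑ i, (a i - y i) ^ 2 ≤ ε ^ 2

/-- the standard Gaussian measure on `ι → ℝ` -/
noncomputable def gau (ι : Type*) [Fintype ι] : Measure (ι → ℝ) :=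
  Measure.pi fun _ => ProbabilityTheory.gaussianReal 0 1

/-- the level of a frequency in each variable: `0` for `0`, and `s` if `2^(s-1) ≤ |k_j| < 2^s` -/
def lev {d : ℕ} (k : Fin d → ℤ) (j : Fin d) : ℕ := (k j).natAbs.size

/-- frequencies of level `m` (a hyperbolic layer) -/
noncomputable def Qm (d m : ℕ) : Finset (Fin d → ℤ) :=
  (Fintype.piFinset fun _ => Finset.Icc (-2 ^ m : ℤ) (2 ^ m)).filter fun k => ∑ j, lev k j = m

/-- the level sets: coefficient vectors `μ(k) ĥ_{bl k}(k)`, `k ∈ Q`, with `‖h_β‖_p ≤ 1` for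
every `β` in the finite set `B` -/
def Sset {d : ℕ} (Q : Finset (Fin d → ℤ)) (B : Type) (bl : (Fin d → ℤ) → B)
    (μ : (Fin d → ℤ) → ℂ) (p : ℝ≥0∞) : Set (Q × Bool → ℝ) :=
  {y | ∃ h : B → (Fin d → ℝ) → ℂ, (∀ β, MemLp (h β) p (tor d) ∧ eLpNorm (h β) p (tor d) ≤ 1) ∧
    ∀ k : Q, cco y k = μ k * fc (h (bl k)) k}

/-- covering of a set of functions by sup-norm balls with centres in `L_∞` -/
def CovF {d : ℕ} (S : Set ((Fin d → ℝ) → ℂ)) (ε K : ℝ) : Prop :=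
  ∃ t : Finset ((Fin d → ℝ) → ℂ), (t.card : ℝ) ≤ Real.exp K ∧
    (∀ y ∈ t, MemLp y ⊤ (tor d)) ∧ ∀ f ∈ S, ∃ y ∈ t, ∀ x, ‖f x - y x‖ ≤ ε

end Pool.Agent.Helper60.SB
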