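import Pool.Agent.Helper60.SB.Dyadic

/-!
Combinatorics of the shapes.
-/

open Finset

namespace Pool.Agent.Helper60.SB

variable {e m : ℕ}

lemma shp_zero (τ : Fin (e + 1) → Fin m) : shp e m τ 0 = τ 0 := by
  have : (0 : Fin (e + 2)) = Fin.castSucc (0 : Fin (e + 1)) := rfl
  unfold shp
  rw [this, Fin.snoc_castSucc]

lemma shp_castSucc (τ : Fin (e + 1) → Fin m) (j : Fin (e + 1)) :
    shp e m τ j.castSucc = τ j := by
  unfold shp
  rw [Fin.snoc_castSucc]

lemma shp_last (τ : Fin (e + 1) → Fin m) :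
    shp e m τ (Fin.last (e + 1)) = (e + 2) * m - ∑ j, (τ j : ℕ) := by
  unfold shp
  rw [Fin.snoc_last]

lemma sum_tau_le (τ : Fin (e + 1) → Fin m) : ∑ j, (τ j : ℕ) ≤ (e + 1) * m := by
  calc ∑ j, (τ j : ℕ) ≤ ∑ _j : Fin (e + 1), m := Finset.sum_le_sum fun j _ => (τ j).2.le
    _ = (e + 1) * m := by simp

lemma sum_shp (τ : Fin (e + 1) → Fin m) : ∑ j, shp e m τ j = (e + 2) * m := by
  rw [Fin.sum_univ_castSucc, shp_last]
  simp only [shp_castSucc]
  have := sum_tau_le τ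
  have h2 : (e + 1) * m ≤ (e + 2) * m := Nat.mul_le_mul_right _ (by omega)
  omega

lemma shp_le (τ : Fin (e + 1) → Fin m) (j : Fin (e + 2)) : shp e m τ j ≤ (e + 2) * m := by
  rw [← sum_shp τ]
  exact Finset.single_le_sum (fun _ _ => Nat.zero_le _) (mem_univ j)

lemma sum_shp_succ (τ : Fin (e + 1) → Fin m) :
    ∑ j : Fin (e + 1), shp e m τ j.succ = (e + 2) * m - τ 0 := by
  have := sum_shp τ
  rw [Fin.sum_univ_succ, shp_zero] at this
  omega

/-- number of shapes of depth `i` below `k` -/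
def Jc (e m : ℕ) (k : Fin (e + 1) → ℕ) (i : Fin m) : ℕ :=
  (univ.filter fun t : Fin e → Fin m =>
    ∀ j : Fin (e + 1), shp e m (Fin.cons i t) j.succ ≤ k j).card

lemma key_of_le {k : Fin (e + 1) → ℕ} {i : Fin m} {t : Fin e → Fin m}
    (h : ∀ j : Fin (e + 1), shp e m (Fin.cons i t) j.succ ≤ k j) :
    (e + 2) * m ≤ ∑ j, k j + i := by
  have h1 := sum_shp_succ (e := e) (m := m) (Fin.cons i t : Fin (e + 1) → Fin m)
  have h2 : ∑ j : Fin (e + 1), shp e m (Fin.cons i t) j.succ ≤ ∑ j, k j :=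
    Finset.sum_le_sum fun j _ => h j
  rw [h1] at h2
  simp only [Fin.cons_zero] at h2
  omega

lemma sum_geom_le (m k : ℕ) :
    ∑ a : Fin m, (if (a : ℕ) ≤ k then (9 / 10 : ℝ) ^ (k - a) else 0) ≤ 10 := by
  rw [Fin.sum_univ_eq_sum_range (fun a => if a ≤ k then (9 / 10 : ℝ) ^ (k - a) else 0) m]
  rw [← Finset.sum_filter]
  have h1 : ∑ a ∈ (range m).filter (fun a => a ≤ k), (9 / 10 : ℝ) ^ (k - a) ≤
      ∑ a ∈ range (k + 1), (9 / 10 : ℝ) ^ (k - a) := by
    refine Finset.sum_le_sum_of_subset_of_nonneg ?_ fun _ _ _ => by positivity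
    intro a ha
    simp only [mem_filter, mem_range] at ha ⊢
    omega
  refine h1.trans ?_
  rw [← Finset.sum_range_reflect (fun a => (9 / 10 : ℝ) ^ (k - a)) (k + 1)]
  have h2 : ∑ j ∈ range (k + 1), (9 / 10 : ℝ) ^ (k - (k + 1 - 1 - j)) =
      ∑ j ∈ range (k + 1), (9 / 10 : ℝ) ^ j := by
    refine Finset.sum_congr rfl fun j hj => ?_
    rw [mem_range] at hj
    congr 1; omega
  rw [h2, geom_sum_eq (by norm_num)]
  have : (0 : ℝ) ≤ (9 / 10) ^ (k + 1) := by positivity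
  rw [div_le_iff_of_neg (by norm_num)]
  linarith

/-- the number of shapes below `k` grows slowly -/
lemma Jc_le (k : Fin (e + 1) → ℕ) (i : Fin m) (hK : (e + 2) * m ≤ ∑ j, k j + i) :
    (Jc e m k i : ℝ) ≤ 10 ^ e * (10 / 9) ^ (∑ j, k j + i - (e + 2) * m) := by
  set M := ∑ j, k j + i - (e + 2) * m with hM
  have h0 : (Jc e m k i : ℝ) = ∑ t ∈ univ.filter (fun t : Fin e → Fin m =>
      ∀ j : Fin (e + 1), shp e m (Fin.cons i t) j.succ ≤ k j), (1 : ℝ) := by
    rw [Jc]; simp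
  rw [h0]
  have h1 : ∀ t ∈ univ.filter (fun t : Fin e → Fin m =>
      ∀ j : Fin (e + 1), shp e m (Fin.cons i t) j.succ ≤ k j),
      (1 : ℝ) ≤ (10 / 9) ^ M * ∏ j : Fin e, (if (t j : ℕ) ≤ k j.castSucc then
        (9 / 10 : ℝ) ^ (k j.castSucc - t j) else 0) := by
    intro t ht
    rw [mem_filter] at ht
    have ht := ht.2
    have h2 : ∀ j : Fin e, (t j : ℕ) ≤ k j.castSucc := by
      intro j
      have := ht j.castSucc
      have h3 : (j.castSucc.succ : Fin (e + 2)) = (j.succ : Fin (e + 1)).castSucc := by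
        ext; simp
      rw [h3, shp_castSucc, Fin.cons_succ] at this
      exact this
    have h3 : (e + 2) * m ≤ k (Fin.last e) + i + ∑ j, (t j : ℕ) := by
      have h4 := ht (Fin.last e)
      have h5 : (Fin.last e).succ = Fin.last (e + 1) := rfl
      rw [h5, shp_last, Fin.sum_univ_succ] at h4
      simp only [Fin.cons_zero, Fin.cons_succ] at h4
      omega
    have h6 : ∑ j : Fin e, (k j.castSucc - t j) ≤ M := by
      have h7 : ∑ j : Fin e, (k j.castSucc - t j) + ∑ j, (t j : ℕ) = ∑ j : Fin e, k j.castSucc := by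
        rw [← Finset.sum_add_distrib]
        exact Finset.sum_congr rfl fun j _ => Nat.sub_add_cancel (h2 j)
      have h8 : ∑ j, k j = ∑ j : Fin e, k j.castSucc + k (Fin.last e) := Fin.sum_univ_castSucc _
      omega
    have h9 : ∏ j : Fin e, (if (t j : ℕ) ≤ k j.castSucc then
        (9 / 10 : ℝ) ^ (k j.castSucc - t j) else 0) =
        (9 / 10 : ℝ) ^ ∑ j : Fin e, (k j.castSucc - t j) := by
      rw [← Finset.prod_pow_eq_pow_sum]
      exact Finset.prod_congr rfl fun j _ => if_pos (h2 j)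
    rw [h9]
    calc (1 : ℝ) = (10 / 9) ^ M * (9 / 10) ^ M := by rw [← mul_pow]; norm_num
      _ ≤ (10 / 9) ^ M * (9 / 10 : ℝ) ^ ∑ j : Fin e, (k j.castSucc - t j) := by
        refine mul_le_mul_of_nonneg_left ?_ (by positivity)
        exact pow_le_pow_of_le_one (by norm_num) (by norm_num) h6
  refine (Finset.sum_le_sum h1).trans ?_
  rw [← Finset.mul_sum]
  have h2 : ∑ t ∈ univ.filter (fun t : Fin e → Fin m =>
      ∀ j : Fin (e + 1), shp e m (Fin.cons i t) j.succ ≤ k j),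
      ∏ j : Fin e, (if (t j : ℕ) ≤ k j.castSucc then
        (9 / 10 : ℝ) ^ (k j.castSucc - t j) else 0) ≤
      ∑ t : Fin e → Fin m, ∏ j : Fin e, (if (t j : ℕ) ≤ k j.castSucc then
        (9 / 10 : ℝ) ^ (k j.castSucc - t j) else 0) := by
    refine Finset.sum_le_sum_of_subset_of_nonneg (filter_subset _ _) fun t _ _ => ?_
    exact Finset.prod_nonneg fun j _ => by split_ifs <;> positivity
  have h3 : ∑ t : Fin e → Fin m, ∏ j : Fin e, (if (t j : ℕ) ≤ k j.castSucc then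
        (9 / 10 : ℝ) ^ (k j.castSucc - t j) else 0) =
      ∏ j : Fin e, ∑ a : Fin m, (if (a : ℕ) ≤ k j.castSucc then
        (9 / 10 : ℝ) ^ (k j.castSucc - a) else 0) := by
    rw [Finset.prod_univ_sum, Fintype.piFinset_univ]
  have h4 : ∏ j : Fin e, ∑ a : Fin m, (if (a : ℕ) ≤ k j.castSucc then
        (9 / 10 : ℝ) ^ (k j.castSucc - a) else 0) ≤ 10 ^ e := by
    calc _ ≤ ∏ _j : Fin e, (10 : ℝ) := by
          refine Finset.prod_le_prod (fun j _ => ?_) fun j _ => sum_geom_le m _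
          exact Finset.sum_nonneg fun a _ => by split_ifs <;> positivity
      _ = 10 ^ e := by simp
  rw [mul_comm (10 ^ e : ℝ)]
  exact mul_le_mul_of_nonneg_left (h2.trans (h3.le.trans h4)) (by positivity)

lemma card_lt_le (k : Fin (e + 1) → ℕ) (i : Fin m) (hK : (e + 2) * m ≤ ∑ j, k j + i) :
    (univ.filter fun l : Fin m => l < i ∧ 1 ≤ Jc e m k l).card ≤
      ∑ j, k j + i - (e + 2) * m := by
  have h1 : (univ.filter fun l : Fin m => l < i ∧ 1 ≤ Jc e m k l).card ≤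
      (Finset.Ico ((e + 2) * m - ∑ j, k j) (i : ℕ)).card := by
    rw [← Finset.card_map Fin.valEmbedding]
    refine Finset.card_le_card ?_
    intro a ha
    simp only [mem_map, mem_filter, mem_univ, true_and, Fin.valEmbedding_apply] at ha
    obtain ⟨l, ⟨h2, h3⟩, rfl⟩ := ha
    rw [mem_Ico]
    have h4 : 0 < Jc e m k l := h3
    rw [Jc, Finset.card_pos] at h4
    obtain ⟨t, ht⟩ := h4
    rw [mem_filter] at ht
    have := key_of_le ht.2
    constructor
    · omega
    · exact h2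
  refine h1.trans ?_
  rw [Nat.card_Ico]
  omega

/-- the combined bound -/
lemma J_bound (k : Fin (e + 1) → ℕ) (i : Fin m) (hK : (e + 2) * m ≤ ∑ j, k j + i) :
    (Jc e m k i : ℝ) * (5 / 4) ^ (univ.filter fun l : Fin m => l < i ∧ 1 ≤ Jc e m k l).card ≤
      10 ^ e * (25 / 18) ^ (∑ j, k j + i - (e + 2) * m) := by
  set M := ∑ j, k j + i - (e + 2) * m with hM
  have h1 := Jc_le k i hK
  have h2 := card_lt_le k i hK
  rw [← hM] at h1 h2
  calc _ ≤ (10 ^ e * (10 / 9) ^ M) * (5 / 4 : ℝ) ^ M :=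
        mul_le_mul h1 (pow_le_pow_right₀ (by norm_num) h2) (by positivity) (by positivity)
    _ = 10 ^ e * (25 / 18) ^ M := by
        rw [mul_assoc, ← mul_pow]; norm_num

lemma Jc_le_card (k : Fin (e + 1) → ℕ) (i : Fin m) : (Jc e m k i : ℝ) ≤ (m : ℝ) ^ e := by
  have : Jc e m k i ≤ m ^ e := by
    rw [Jc]
    refine (card_le_univ _).trans (le_of_eq ?_)
    simp
  exact_mod_cast this

end Pool.Agent.Helper60.SB
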