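import Pool.Agent.Helper60.SB.Defs4

/-!
Definitions for the classes `W^r_1`.
-/

open Finset MeasureTheory
open scoped ENNReal Real

namespace Pool.Agent.Helper60.SB

/-- a periodic weight: `1 / (1 + 2^s |sin (z/2)|)` -/
noncomputable def ew (s : ℕ) (z : ℝ) : ℝ := 1 / (1 + 2 ^ s * |Real.sin (z / 2)|)

section chaos

variable {ι I P : Type*} [Fintype ι] [DecidableEq ι] [Fintype I] [DecidableEq I]

/-- the signed sum over the indices in the block `i` -/
noncomputable def Gb (blk : ι → I) (a : ι → P → ℝ) (β : ι → Bool) (i : I) (x : P) : ℝ :=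
  ∑ R ∈ univ.filter (fun R => blk R = i), sg (β R) * a R x

/-- the Riesz product -/
noncomputable def rp (blk : ι → I) (a : ι → P → ℝ) (β : ι → Bool) (x : P) : ℝ :=
  ∏ i, (1 + 1 / 2 * Real.sin (Gb blk a β i x))

/-- the coefficients of the first chaos of `2 * rp` -/
noncomputable def sa (blk : ι → I) (a : ι → P → ℝ) (R : ι) (x : P) : ℝ :=
  Real.sin (a R x) *
    ∏ R' ∈ univ.filter (fun R' => blk R' = blk R ∧ R' ≠ R), Real.cos (a R' x)

/-- the part of the Riesz product of order at least two -/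
noncomputable def nl (blk : ι → I) (a : ι → P → ℝ) (β : ι → Bool) (x : P) : ℝ :=
  rp blk a β x - 1 - 1 / 2 * ∑ R, sg (β R) * sa blk a R x

end chaos

/-- the frequencies of the levels `N - J, …, N + J` -/
noncomputable def Qmid (d N J : ℕ) : Finset (Fin d → ℤ) :=
  (Finset.Icc (N - J) (N + J)).biUnion fun l => Qm d l

/-- the part of `F_r * φ` with frequencies in `Q` -/
noncomputable def MPW {d : ℕ} (r : ℝ) (Q : Finset (Fin d → ℤ)) (φ : (Fin d → ℝ) → ℂ)
    (x : Fin d → ℝ) : ℂ :=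
  ∑ k ∈ Q, (∏ j, bmul r r (k j)) * fc φ k * ex k x

/-- covering of a set of functions by sup-norm balls, almost everywhere version -/
def CovA {d : ℕ} (S : Set ((Fin d → ℝ) → ℂ)) (ε K : ℝ) : Prop :=
  ∃ t : Finset ((Fin d → ℝ) → ℂ), (t.card : ℝ) ≤ Real.exp K ∧
    (∀ y ∈ t, MemLp y ⊤ (tor d)) ∧ ∀ f ∈ S, ∃ y ∈ t, ∀ᵐ x ∂(tor d), ‖f x - y x‖ ≤ ε

/-- the majorant `C₀ / (U² m^e) * ∑_t ∏_j ew(s_j, z_j)` of the covariances -/
noncomputable def Smaj (e m : ℕ) (C₀ U : ℝ) (z : Fin (e + 2) → ℝ) : ℝ :=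
  C₀ / (U ^ 2 * (m : ℝ) ^ e) * ∑ t : Fin (e + 1) → Fin m, ∏ j, ew (shp e m t j) (z j)

/-- its discrete version -/
noncomputable def Sdis (e m : ℕ) (C₀ U : ℝ) (q : Fin (e + 2) → ℕ) : ℝ :=
  C₀ / (U ^ 2 * (m : ℝ) ^ e) * ∑ t : Fin (e + 1) → Fin m, (1 / 2 : ℝ) ^ (∑ j, (shp e m t j - q j))

/-- the block of a box: its first side exponent -/
def blk0 {e m : ℕ} (R : Box e m) : Fin m := R.1 0

/-- normalised building blocks -/
noncomputable def an {e m : ℕ} (v : Box e m → (Fin (e + 2) → ℝ) → ℝ) (U : ℝ) (R : Box e m)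
    (x : Fin (e + 2) → ℝ) : ℝ := v R x / (U * Real.sqrt ((m : ℝ) ^ e))

end Pool.Agent.Helper60.SB
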