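import Pool.Agent.Helper60.SB.Defs3
import Pool.Agent.Helper13.SB.DualSudakov
import Pool.Agent.Helper1.SB.VolCov
import Pool.Agent.Helper1.SB.GaussLp
import Pool.Agent.Helper77.SB.U3
import Pool.Agent.Helper36.SB.U4
import Pool.Agent.Helper71.SB.U5
import Pool.Agent.Helper33.SB.SsetL2
import Pool.Agent.Helper5.SB.U8
import Pool.Agent.Helper50.SB.LevelEntropy
import Pool.Agent.Helper34.SB.U10
import Pool.Agent.Helper89.SBU11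
import Pool.Agent.Helper22.SB.U12
import Pool.Agent.Helper42.SB.U13
import Pool.Agent.Helper30.SB.U15
import Pool.Agent.Helper7.SB.SumLevels
import Pool.Agent.Helper21.SB.U17
import Pool.Agent.Helper37.SB.Discretize
import Pool.Agent.Helper81.SB.Maurey
import Pool.Agent.Helper98.SB.U18c

/-!
The modules of the upper bound, linked together.
-/

open Finset MeasureTheory
open scoped ENNReal Real

namespace Pool.Agent.Helper60.SB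

theorem dual_sudakov {ι : Type} [Fintype ι] (q : Seminorm ℝ (ι → ℝ)) (l : ℝ) (hl : 0 < l)
    (hq : ∫ y, q y ∂(gau ι) ≤ l) (ε : ℝ) (hε : 0 < ε) :
    Cov {y : ι → ℝ | ∑ i, y i ^ 2 ≤ 1} (fun a y => q (a - y) ≤ ε) (8 * (l / ε) ^ 2 + Real.log 2) :=
  Pool.Agent.Helper13.SB.dual_sudakov q l hl hq ε hε

theorem l2linf (d : ℕ) : ∃ C : ℝ, 1 ≤ C ∧ ∀ (m : ℕ) (Q : Finset (Fin d → ℤ)),
    (∀ k ∈ Q, ∀ j, |k j| ≤ 2 ^ m) → ∀ j : ℕ,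
    Cov {y : Q × Bool → ℝ | ∑ i, y i ^ 2 ≤ 1}
      (fun a y => supn Q (a - y) ≤ C * Real.sqrt (m + 1) * (2 : ℝ) ^ (-(j : ℝ)))
      (C * (1 + j) * Q.card + 1) ∧
    Cov {y : Q × Bool → ℝ | ∑ i, y i ^ 2 ≤ 1}
      (fun a y => supn Q (a - y) ≤ C * Real.sqrt (m + 1) * (2 : ℝ) ^ ((j : ℝ) / 2))
      (Q.card * (2 : ℝ) ^ (-(j : ℝ)) + 1) :=
  Pool.Agent.Helper36.SB.l2linf_of
    (fun q l hl hq ε hε => dual_sudakov q l hl hq ε hε)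
    (fun q hq ρ ε hρ hε => Pool.Agent.Helper1.SB.volume_cov q hq ρ ε hρ hε)
    Pool.Agent.Helper77.SB.gauss_sup d

theorem sudakov : ∃ C : ℝ, 0 < C ∧ ∀ (ι : Type) [Fintype ι] (q : Seminorm ℝ (ι → ℝ)) (l : ℝ),
    0 < l → ∫ y, q y ∂(gau ι) ≤ l → ∀ ε : ℝ, 0 < ε →
    Cov {y : ι → ℝ | ∀ z : ι → ℝ, ∑ i, y i * z i ≤ q z} (eucl ε) (C * (l / ε) ^ 2) :=
  Pool.Agent.Helper71.SB.sudakov (fun _ _ q l hl hq ε hε => dual_sudakov q l hl hq ε hε)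

theorem Sset_l2 (d b : ℕ) (hb : 1 ≤ b) : ∃ C : ℝ, 0 < C ∧
    ∀ (Q : Finset (Fin d → ℤ)) (B : Type) [Fintype B] [Nonempty B] (bl : (Fin d → ℤ) → B)
      (μ : (Fin d → ℤ) → ℂ), (∀ k, ‖μ k‖ ≤ 1) → ∀ ε : ℝ, 0 < ε →
      Cov (Sset Q B bl μ (ENNReal.ofReal (2 * b / (2 * b - 1)))) (eucl ε)
        (C * (Fintype.card B * Q.card / ε ^ 2)) :=
  Pool.Agent.Helper33.SB.Sset_l2 sudakov
    (fun d b hb => Pool.Agent.Helper1.SB.gauss_Lp d b hb) d b hb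

theorem level_entropy (d : ℕ) (p : ℝ≥0∞) (hp : 1 < p) (κ : ℝ) (hκ1 : 1 / p.toReal < κ)
    (hκ2 : 1 / 2 < κ) : ∃ C : ℝ, 1 ≤ C ∧
    ∀ (m : ℕ) (Q : Finset (Fin d → ℤ)) (B : Type) [Fintype B] [Nonempty B]
      (bl : (Fin d → ℤ) → B) (μ : (Fin d → ℤ) → ℂ),
      (∀ k ∈ Q, ∀ j, |k j| ≤ 2 ^ m) → (∀ k, ‖μ k‖ ≤ 1) → ∀ j : ℕ,
      Cov (Sset Q B bl μ p)
        (fun a y => supn Q (a - y) ≤
          C * Real.sqrt (Fintype.card B) * Real.sqrt (m + 1) * (2 : ℝ) ^ (-(j : ℝ)))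
        (C * (1 + j) * Q.card + 1) ∧
      Cov (Sset Q B bl μ p)
        (fun a y => supn Q (a - y) ≤
          C * Real.sqrt (Fintype.card B) * Real.sqrt (m + 1) * (2 : ℝ) ^ (κ * j))
        (C * (1 + j) * Q.card * (2 : ℝ) ^ (-(j : ℝ)) + 1) :=
  Pool.Agent.Helper50.SB.level_entropy d (l2linf d) (Sset_l2 d)
    (fun Q B _ bl μ hμ y hy => Pool.Agent.Helper5.SB.Sset_two Q B bl μ hμ y hy)
    (fun Q B bl μ p p' h => Pool.Agent.Helper5.SB.Sset_mono Q B bl μ p p' h)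
    (fun Q B bl μ b hb p h1 h2 A hA y hy =>
      Pool.Agent.Helper5.SB.Sset_trunc Q B bl μ b hb p h1 h2 A hA y hy)
    p hp κ hκ1 hκ2

theorem fc_conv (d : ℕ) (r : ℝ) (hr : 0 < r) (φ : (Fin d → ℝ) → ℂ)
    (hφ : Integrable φ (tor d)) :
    Integrable (fun x => ∫ y, (Fker r (x - y) : ℂ) * φ y ∂(tor d)) (tor d) ∧
    ∀ k, fc (fun x => ∫ y, (Fker r (x - y) : ℂ) * φ y ∂(tor d)) k =
      (∏ j, bmul r r (k j)) * fc φ k :=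
  Pool.Agent.Helper22.SB.fc_conv d r hr φ hφ

theorem norm_bmul_le {d : ℕ} (r : ℝ) (hr : 0 < r) (k : Fin d → ℤ) :
    ‖∏ j, bmul r r (k j)‖ ≤ (2 : ℝ) ^ (r * d) * (2 : ℝ) ^ (-(r * ∑ j, (lev k j : ℝ))) :=
  Pool.Agent.Helper22.SB.norm_bmul_le r hr k

theorem H_coeff (d : ℕ) (r : ℝ) (hr : 0 < r) : ∃ C : ℝ, 1 ≤ C ∧ ∃ μ : (Fin d → ℤ) → ℂ,
    (∀ k, ‖μ k‖ ≤ 1) ∧ ∀ (p : ℝ≥0∞), 1 ≤ p → ∀ f ∈ Hclass d ℂ r p,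
      ∃ h : (Fin d → ℕ) → (Fin d → ℝ) → ℂ,
        (∀ s, MemLp (h s) p (tor d) ∧ eLpNorm (h s) p (tor d) ≤ 1) ∧
        ∀ k, (((2 : ℝ) ^ (r * ∑ j, (lev k j : ℝ)) : ℝ) : ℂ) * fc f k =
          (C : ℂ) * μ k * fc (h (lev k)) k :=
  Pool.Agent.Helper42.SB.H_coeff d r hr

theorem TT_Sset_le {d : ℕ} (Q : Finset (Fin d → ℤ)) (B : Type) [Fintype B]
    (bl : (Fin d → ℤ) → B) (μ : (Fin d → ℤ) → ℂ) (hμ : ∀ k, ‖μ k‖ ≤ 1) (p : ℝ≥0∞) (hp : 1 ≤ p)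
    (y : Q × Bool → ℝ) (hy : y ∈ Sset Q B bl μ p) (x : Fin d → ℝ) :
    ‖TT Q y x‖ ≤ 2 * Fintype.card B * (Q.card : ℝ) ^ (max (1 / p.toReal) (1 / 2)) :=
  Pool.Agent.Helper5.SB.TT_Sset_le Q B bl μ hμ p hp y hy x

theorem decomp (d : ℕ) (r κ b C : ℝ) (hκ : κ < r) (hb : 0 ≤ b) (hC : 0 ≤ C) :
    ∃ C' : ℝ, ∀ (f : (Fin d → ℝ) → ℂ), Integrable f (tor d) →
      ∀ y : (m : ℕ) → (Qm d m × Bool → ℝ),
      (∀ m, ∀ k : Qm d m, fc f k = (((2 : ℝ) ^ (-(r * m)) : ℝ) : ℂ) * cco (y m) k) →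
      (∀ m x, ‖TT (Qm d m) (y m) x‖ ≤ C * ((m : ℝ) + 1) ^ b * (2 : ℝ) ^ (κ * m)) →
      ∀ J : ℕ, ∀ᵐ x ∂(tor d),
        ‖f x - ∑ m ∈ range J, (((2 : ℝ) ^ (-(r * m)) : ℝ) : ℂ) * TT (Qm d m) (y m) x‖ ≤
          C' * ((J : ℝ) + 1) ^ b * (2 : ℝ) ^ (-((r - κ) * J)) :=
  Pool.Agent.Helper30.SB.decomp (fun d f hf h => Pool.Agent.Helper89.SB.fc_unique d f hf h)
    mem_Qm d r κ b C hκ hb hC

theorem sum_levels (e : ℕ) (r κ a b C : ℝ) (hκ : 0 < κ) (hκr : κ < r) (ha : 0 ≤ a) (hb : 0 ≤ b)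
    (hC : 1 ≤ C) (F : Set ((Fin (e + 1) → ℝ) → ℂ)) (S : ℕ → Set ((Fin (e + 1) → ℝ) → ℂ))
    (low : ∀ m j : ℕ, CovF (S m) (C * ((m : ℝ) + 1) ^ a * (2 : ℝ) ^ (-(j : ℝ)))
      (C * (1 + j) * ((m : ℝ) + 1) ^ e * 2 ^ m + 1))
    (high : ∀ m j : ℕ, CovF (S m) (C * ((m : ℝ) + 1) ^ a * (2 : ℝ) ^ (κ * j))
      (C * (1 + j) * ((m : ℝ) + 1) ^ e * (2 : ℝ) ^ ((m : ℝ) - j) + 1))
    (dec : ∀ f ∈ F, ∀ J : ℕ, ∃ g : ℕ → (Fin (e + 1) → ℝ) → ℂ, (∀ m, g m ∈ S m) ∧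
      ∀ᵐ x ∂(tor (e + 1)), ‖f x - ∑ m ∈ range J, (((2 : ℝ) ^ (-(r * m)) : ℝ) : ℂ) * g m x‖ ≤
        C * ((J : ℝ) + 1) ^ b * (2 : ℝ) ^ (-((r - κ) * J))) :
    ∃ C' > 0, ∃ n₀ : ℕ, ∀ n ≥ n₀, entropyNumber n F ≤
      ENNReal.ofReal (C' * (n : ℝ) ^ (-r) * Real.log n ^ ((e : ℝ) * r + a)) :=
  Pool.Agent.Helper7.SB.sum_levels e r κ a b C hκ hκr ha hb hC F S low high dec

theorem entropy_W_field (d : ℕ) (𝕜 : Type) [RCLike 𝕜] (r : ℝ) (p : ℝ≥0∞) (n : ℕ) :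
    entropyNumber n (Wclass d 𝕜 r p) ≤ entropyNumber n (Wclass d ℂ r p) :=
  Pool.Agent.Helper21.SB.entropy_W_field d 𝕜 r p n

theorem entropy_H_field (d : ℕ) (𝕜 : Type) [RCLike 𝕜] (r : ℝ) (p : ℝ≥0∞) (n : ℕ) :
    entropyNumber n (Hclass d 𝕜 r p) ≤ entropyNumber n (Hclass d ℂ r p) :=
  Pool.Agent.Helper21.SB.entropy_H_field d 𝕜 r p n

theorem W_trunc (d : ℕ) (𝕜 : Type) [RCLike 𝕜] (r : ℝ) (hr : 0 < r) (A : ℝ) (hA : 0 < A) (n : ℕ) :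
    entropyNumber (n + n) (Wclass d 𝕜 r 4) ≤
      ENNReal.ofReal A⁻¹ * entropyNumber n (Wclass d 𝕜 r 2) +
        ENNReal.ofReal A * entropyNumber n (Wclass d 𝕜 r ⊤) :=
  Pool.Agent.Helper21.SB.W_trunc d 𝕜 r hr A hA n

theorem level_entropy_one (d : ℕ) : ∃ C : ℝ, 1 ≤ C ∧
    ∀ (m : ℕ) (Q : Finset (Fin d → ℤ)) (B : Type) [Fintype B] [Nonempty B]
      (bl : (Fin d → ℤ) → B) (s : B → Fin d → ℕ) (μ : (Fin d → ℤ) → ℂ),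
      (∀ β, ∑ j, s β j ≤ m) → (∀ k ∈ Q, ∀ j, |k j| ≤ 2 ^ s (bl k) j) → (∀ k, ‖μ k‖ ≤ 1) →
      ∀ j : ℕ,
      Cov (Sset Q B bl μ 1)
        (fun a y => supn Q (a - y) ≤
          C * Real.sqrt (Fintype.card B) * Real.sqrt (m + 1) * (2 : ℝ) ^ (-(j : ℝ)))
        (C * (1 + j) * (Fintype.card B * 2 ^ m) + 1) ∧
      Cov (Sset Q B bl μ 1)
        (fun a y => supn Q (a - y) ≤
          C * Real.sqrt (Fintype.card B) * Real.sqrt (m + 1) * (2 : ℝ) ^ (j : ℝ))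
        (C * (1 + j) * (Fintype.card B * 2 ^ m) * (2 : ℝ) ^ (-(j : ℝ)) + 1) :=
  Pool.Agent.Helper98.SB.level_entropy_one d (l2linf d)
    (fun s => Pool.Agent.Helper37.SB.discretize s)
    (fun ι _ N v R hR hv n hn => Pool.Agent.Helper81.SB.maurey N v R hR hv n hn)

end Pool.Agent.Helper60.SB
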