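import Pool.Agent.Helper60.SB.Moment2
import Pool.Agent.Helper12.SB.Count
import Pool.Agent.Helper18.SB.Blowup

/-!
The first moment bound and the core theorem.
-/

open Finset

namespace Pool.Agent.Helper60.SB

open Pool.Agent.Helper80.SB

variable {e m T : ℕ}

lemma av_sum {ι P : Type*} [Fintype ι] [DecidableEq ι] (s : Finset P)
    (f : P → (ι → Bool) → ℝ) : av (fun β => ∑ x ∈ s, f x β) = ∑ x ∈ s, av (f x) := by
  unfold av
  rw [Finset.sum_comm, Finset.sum_div]

lemma av_mul_left {ι : Type*} [Fintype ι] [DecidableEq ι] (c : ℝ) (f : (ι → Bool) → ℝ) :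
    av (fun β => c * f β) = c * av f := by
  unfold av
  rw [← Finset.mul_sum, mul_div_assoc]

/-- the constant in the first moment -/
noncomputable def kap (e m : ℕ) (u : ℝ) : ℝ :=
  Real.sin (1 / u) * Real.cos (1 / u) ^ (Fintype.card (Fin e → Fin m) - 1)

lemma kap_ge {u : ℝ} (hu : 1 ≤ u) (hu2 : (m : ℝ) ^ e ≤ u ^ 2) : 3 / (10 * u) ≤ kap e m u := by
  have hu0 : 0 < u := by linarith
  have hx1 : 1 / u ≤ 1 := by rw [div_le_one hu0]; exact hu
  have hx0 : 0 < 1 / u := by positivity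
  have hpi := Real.pi_gt_three
  have h1 : 2 / Real.pi * (1 / u) ≤ Real.sin (1 / u) :=
    Real.mul_le_sin hx0.le (by linarith)
  have h2 : 1 - (1 / u) ^ 2 / 2 ≤ Real.cos (1 / u) := Real.one_sub_sq_div_two_le_cos
  have h3 : (1 / u) ^ 2 ≤ 1 := by nlinarith
  set U := Fintype.card (Fin e → Fin m) with hU
  have hUr : (U : ℝ) = (m : ℝ) ^ e := by rw [hU]; simp
  have h4 : (1 / 2 : ℝ) ≤ Real.cos (1 / u) ^ (U - 1) := by
    have h5 : 1 + ((U - 1 : ℕ) : ℝ) * (-((1 / u) ^ 2 / 2)) ≤ (1 + -((1 / u) ^ 2 / 2)) ^ (U - 1) :=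
      one_add_mul_le_pow (by linarith) _
    have h6 : ((U - 1 : ℕ) : ℝ) * (1 / u) ^ 2 ≤ 1 := by
      have h7 : ((U - 1 : ℕ) : ℝ) ≤ u ^ 2 := by
        have : ((U - 1 : ℕ) : ℝ) ≤ (U : ℝ) := by exact_mod_cast Nat.sub_le _ _
        linarith
      calc ((U - 1 : ℕ) : ℝ) * (1 / u) ^ 2 ≤ u ^ 2 * (1 / u) ^ 2 :=
            mul_le_mul_of_nonneg_right h7 (by positivity)
        _ = 1 := by field_simp
    have h8 : (1 + -((1 / u) ^ 2 / 2)) ^ (U - 1) ≤ Real.cos (1 / u) ^ (U - 1) :=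
      pow_le_pow_left₀ (by linarith) (by linarith) _
    linarith
  have h5 : 3 / (5 * u) ≤ Real.sin (1 / u) := by
    refine le_trans ?_ h1
    rw [div_mul_div_comm, mul_one]
    rw [div_le_div_iff₀ (by positivity) (by positivity)]
    have := Real.pi_lt_d2
    nlinarith
  unfold kap
  calc 3 / (10 * u) = 3 / (5 * u) * (1 / 2) := by field_simp; norm_num
    _ ≤ _ := mul_le_mul h5 h4 (by norm_num) ((by positivity : (0:ℝ) ≤ 3 / (5 * u)).trans h5)

/-- the sum of a product over all points -/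
lemma sum_prod_pi (n : ℕ) (F : Fin n → Fin (2 ^ T) → ℝ) :
    ∑ x : Fin n → Fin (2 ^ T), ∏ j, F j (x j) = ∏ j, ∑ a, F j a := by
  rw [Finset.prod_univ_sum, Fintype.piFinset_univ]

/-- correlation of the weights with the signs -/
lemma corr_ge (hT : (e + 2) * m ≤ T) {cv : ℝ} (hcv : 0 < cv) (v : ℕ → Fin (2 ^ T) → ℝ)
    (hv : ∀ s ≤ (e + 2) * m, ∀ c' < 2 ^ s, cv * 2 ^ (T - s) ≤
        ∑ x ∈ univ.filter (fun x => pre T s x = c'), v s x * hs T s x) (R : Box e m) :
    cv ^ (e + 2) * (((2 : ℝ) ^ T) ^ (e + 2) / 2 ^ ((e + 2) * m)) ≤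
      ∑ x, wt v R x * ∏ j, hs T (shp e m R.1 j) (x j) := by
  have h1 : ∀ x, wt v R x * ∏ j, hs T (shp e m R.1 j) (x j) =
      ∏ j, (if pre T (shp e m R.1 j) (x j) = R.2 j then
        v (shp e m R.1 j) (x j) * hs T (shp e m R.1 j) (x j) else 0) := by
    intro x
    unfold wt
    rw [← Finset.prod_mul_distrib]
    refine Finset.prod_congr rfl fun j _ => ?_
    split_ifs
    · rfl
    · ring
  simp_rw [h1]
  rw [sum_prod_pi (e + 2) (fun j a => if pre T (shp e m R.1 j) a = R.2 j then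
        v (shp e m R.1 j) a * hs T (shp e m R.1 j) a else 0)]
  have h2 : ∏ j : Fin (e + 2), (cv * (2 : ℝ) ^ (T - shp e m R.1 j)) ≤
      ∏ j, ∑ a, (if pre T (shp e m R.1 j) a = R.2 j then
        v (shp e m R.1 j) a * hs T (shp e m R.1 j) a else 0) := by
    refine Finset.prod_le_prod (fun j _ => by positivity) fun j _ => ?_
    rw [← Finset.sum_filter]
    exact hv _ (shp_le _ _) _ (R.2 j).2
  refine le_trans (le_of_eq ?_) h2
  rw [Finset.prod_mul_distrib, Finset.prod_const, card_univ, Fintype.card_fin,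
    Finset.prod_pow_eq_pow_sum]
  congr 1
  rw [div_eq_iff (by positivity), ← pow_mul, ← pow_add]
  congr 1
  rw [← sum_shp R.1, ← Finset.sum_add_distrib,
    Finset.sum_congr rfl (fun j _ => Nat.sub_add_cancel ((shp_le R.1 j).trans hT))]
  simp [mul_comm]

/-- the first moment -/
theorem moment1 (hT : (e + 2) * m ≤ T) {cv : ℝ} (hcv : 0 < cv) (v : ℕ → Fin (2 ^ T) → ℝ)
    (hv : ∀ s ≤ (e + 2) * m, ∀ c' < 2 ^ s, cv * 2 ^ (T - s) ≤
        ∑ x ∈ univ.filter (fun x => pre T s x = c'), v s x * hs T s x)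
    {u : ℝ} (hu : 1 ≤ u) (hu2 : (m : ℝ) ^ e ≤ u ^ 2) (R : Box e m) :
    3 / 20 * cv ^ (e + 2) / (u * 2 ^ ((e + 2) * m)) ≤
      av (fun β : Box e m → Bool => sg (β R) * ∑ x, rz (idB T) (e0B T) (e1B T) u β x /
        ((2 : ℝ) ^ T) ^ (e + 2) * wt v R x) := by
  have hu0 : 0 < u := by linarith
  set M : ℝ := ((2 : ℝ) ^ T) ^ (e + 2) with hM
  have hMpos : 0 < M := by positivity
  have h1 : av (fun β : Box e m → Bool => sg (β R) * ∑ x, rz (idB T) (e0B T) (e1B T) u β x /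
        M * wt v R x) = ∑ x, wt v R x / M * av (fun β : Box e m → Bool =>
          sg (β R) * rz (idB T) (e0B T) (e1B T) u β x) := by
    rw [← Finset.sum_congr rfl (fun x _ => av_mul_left (wt v R x / M) (fun β : Box e m → Bool =>
          sg (β R) * rz (idB T) (e0B T) (e1B T) u β x)), ← av_sum]
    congr 1
    ext β
    rw [Finset.mul_sum]
    refine Finset.sum_congr rfl fun x _ => ?_
    ring
  rw [h1]
  have h2 : ∀ x, wt v R x / M * av (fun β : Box e m → Bool =>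
          sg (β R) * rz (idB T) (e0B T) (e1B T) u β x) =
      kap e m u / (2 * M) * (wt v R x * ∏ j, hs T (shp e m R.1 j) (x j)) := by
    intro x
    rw [av_sg_rz (idB (e := e) (m := m) T) (e0B T) (e1B T) u blkB blkB_idB e1B_or R x]
    by_cases hx : idB T (blkB R).1 (blkB R).2 x = R
    · rw [if_pos hx]
      have h3 : e0B T (blkB R).1 x * e1B T (blkB R).1 (blkB R).2 x =
          ∏ j, hs T (shp e m R.1 j) (x j) := by
        have h4 : (Fin.cons (blkB R).1 (blkB R).2 : Fin (e + 1) → Fin m) = R.1 := by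
          simp [blkB]
        unfold e0B e1B
        rw [h4, Fin.prod_univ_succ (fun j => hs T (shp e m R.1 j) (x j)), shp_zero]
        rfl
      rw [h3]
      unfold kap
      ring
    · rw [if_neg hx]
      have h3 : wt v R x = 0 := by
        rw [idB_blkB_iff hT, not_forall] at hx
        obtain ⟨j, hj⟩ := hx
        unfold wt
        exact Finset.prod_eq_zero (mem_univ j) (if_neg hj)
      rw [h3]
      ring
  rw [Finset.sum_congr rfl (fun x _ => h2 x), ← Finset.mul_sum]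
  have h3 := kap_ge (e := e) (m := m) hu hu2
  have h4 := corr_ge hT hcv v hv R
  rw [← hM] at h4
  have h5 : 3 / (10 * u) / (2 * M) ≤ kap e m u / (2 * M) :=
    div_le_div_of_nonneg_right h3 (by positivity)
  calc _ = 3 / (10 * u) / (2 * M) * (cv ^ (e + 2) * (M / 2 ^ ((e + 2) * m))) := by
        field_simp
        norm_num
    _ ≤ _ := mul_le_mul h5 h4 (by positivity) ((by positivity : (0:ℝ) ≤ 3 / (10 * u) / (2 * M)).trans h5)

lemma card_Box (e m : ℕ) : Fintype.card (Box e m) = m ^ (e + 1) * 2 ^ ((e + 2) * m) := by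
  rw [Fintype.card_sigma]
  have h1 : ∀ t : Fin (e + 1) → Fin m,
      Fintype.card ((j : Fin (e + 2)) → Fin (2 ^ shp e m t j)) = 2 ^ ((e + 2) * m) := by
    intro t
    rw [Fintype.card_pi]
    simp only [Fintype.card_fin]
    rw [Finset.prod_pow_eq_pow_sum, sum_shp]
  rw [Finset.sum_congr rfl (fun t _ => h1 t), Finset.sum_const, card_univ, Fintype.card_fun,
    Fintype.card_fin, Fintype.card_fin, smul_eq_mul]

/-- The core theorem: few sign patterns give hyperbolic sums in a given sup-norm ball. -/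
theorem core (e : ℕ) (cv ca : ℝ) (hcv : 0 < cv) (hca : 0 < ca) :
    ∃ c > 0, ∃ m₀ : ℕ, ∀ m ≥ m₀, ∀ T : ℕ, (e + 2) * m < T →
      ∀ v : ℕ → Fin (2 ^ T) → ℝ, (∀ s x, |v s x| ≤ 1) →
      (∀ s ≤ (e + 2) * m, ∀ c' < 2 ^ s,
        ∑ x ∈ univ.filter (fun x => pre T s x = c'), v s x = 0) →
      (∀ s ≤ (e + 2) * m, ∀ c' < 2 ^ s, cv * 2 ^ (T - s) ≤
        ∑ x ∈ univ.filter (fun x => pre T s x = c'), v s x * hs T s x) →
      ∀ a : Box e m → ℝ, (∀ R, 0 ≤ a R) → (∀ R, a R ≤ 1) →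
      ca * Fintype.card (Box e m) ≤ ∑ R, a R →
      ∀ g : (Fin (e + 2) → Fin (2 ^ T)) → ℝ,
        ((univ.filter fun α : Box e m → Bool =>
            ∀ x, |∑ R, a R * sg (α R) * wt v R x - g x| ≤
              c * (m : ℝ) ^ (((e : ℝ) + 2) / 2)).card : ℝ) ≤
          Real.exp (-c * Fintype.card (Box e m)) * 2 ^ Fintype.card (Box e m) := by
  obtain ⟨c, hc, N₀, h⟩ := Pool.Agent.Helper12.SB.count_of_moments
    (fun ι _ _ A θ hθ => Pool.Agent.Helper18.SB.blowup A θ hθ)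
    (ca * (3 / 20 * cv ^ (e + 2))) (10 ^ e * 4 ^ (e + 1)) (by positivity) (by positivity)
  refine ⟨c, hc, max N₀ 1, fun m hm T hT v hv1 hv0 hvc a ha0 ha1 hca' g => ?_⟩
  have hm1 : 1 ≤ m := le_trans (le_max_right _ _) hm
  have hmN : N₀ ≤ m := le_trans (le_max_left _ _) hm
  have hmr : (1 : ℝ) ≤ m := by exact_mod_cast hm1
  set u : ℝ := Real.sqrt ((m : ℝ) ^ e) with hu
  have hu2 : u ^ 2 = (m : ℝ) ^ e := Real.sq_sqrt (by positivity)
  have hu1 : 1 ≤ u := by
    rw [hu, Real.one_le_sqrt]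
    exact one_le_pow₀ hmr
  have hu0 : 0 < u := by linarith
  set r : ℝ := 1 / (u * 2 ^ ((e + 2) * m)) with hr
  have hr0 : 0 < r := by positivity
  have hcardB := card_Box e m
  have hN : N₀ ≤ Fintype.card (Box e m) := by
    rw [hcardB]
    calc N₀ ≤ m := hmN
      _ = m ^ 1 * 1 := by ring
      _ ≤ m ^ (e + 1) * 2 ^ ((e + 2) * m) :=
        Nat.mul_le_mul (Nat.pow_le_pow_right hm1 (by omega)) Nat.one_le_two_pow
  have hcr : c * r * Fintype.card (Box e m) = c * (m : ℝ) ^ (((e : ℝ) + 2) / 2) := by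
    rw [hcardB]
    push_cast
    have h1 : (m : ℝ) ^ (((e : ℝ) + 2) / 2) * u = (m : ℝ) ^ (e + 1) := by
      rw [hu, Real.sqrt_eq_rpow, ← Real.rpow_natCast, ← Real.rpow_mul (by positivity),
        ← Real.rpow_add (by positivity), ← Real.rpow_natCast]
      congr 1
      push_cast
      ring
    rw [← h1, hr]
    field_simp
  have hmain := h (Box e m) (Fin (e + 2) → Fin (2 ^ T)) hN
    (fun β x => rz (idB T) (e0B T) (e1B T) u β x / ((2 : ℝ) ^ T) ^ (e + 2))
    (fun R x => wt v R x) a r hr0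
    (fun β x => div_nonneg (rz_nonneg _ _ _ _ e0B_or β x) (by positivity))
    ?_ ha0 ha1 ?_ ?_ g
  · rw [hcr] at hmain
    exact hmain
  · rw [av_sum]
    have h1 : ∀ x : Fin (e + 2) → Fin (2 ^ T), av (fun β : Box e m → Bool =>
        rz (idB T) (e0B T) (e1B T) u β x / ((2 : ℝ) ^ T) ^ (e + 2)) =
        1 / ((2 : ℝ) ^ T) ^ (e + 2) := by
      intro x
      have h2 := av_rz (idB (e := e) (m := m) T) (e0B T) (e1B T) u blkB blkB_idB x
      rw [← h2]
      unfold av
      rw [← Finset.sum_div, div_right_comm]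
    rw [Finset.sum_congr rfl (fun x _ => h1 x), Finset.sum_const, card_univ, Fintype.card_fun,
      Fintype.card_fin, Fintype.card_fin, nsmul_eq_mul]
    push_cast
    rw [mul_one_div_cancel (by positivity)]
  · have h1 : av (fun β : Box e m → Bool => ∑ R, a R * sg (β R) *
        ∑ x, rz (idB T) (e0B T) (e1B T) u β x / ((2 : ℝ) ^ T) ^ (e + 2) * wt v R x) =
        ∑ R, a R * av (fun β : Box e m → Bool => sg (β R) *
        ∑ x, rz (idB T) (e0B T) (e1B T) u β x / ((2 : ℝ) ^ T) ^ (e + 2) * wt v R x) := by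
      rw [av_sum]
      refine Finset.sum_congr rfl fun R _ => ?_
      rw [← av_mul_left]
      congr 1
      ext β
      ring
    rw [h1]
    have h2 : ∀ R, a R * (3 / 20 * cv ^ (e + 2) / (u * 2 ^ ((e + 2) * m))) ≤
        a R * av (fun β : Box e m → Bool => sg (β R) *
        ∑ x, rz (idB T) (e0B T) (e1B T) u β x / ((2 : ℝ) ^ T) ^ (e + 2) * wt v R x) := fun R =>
      mul_le_mul_of_nonneg_left (moment1 hT.le hcv v hvc hu1 hu2.ge R) (ha0 R)
    refine le_trans ?_ (Finset.sum_le_sum fun R _ => h2 R)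
    rw [← Finset.sum_mul]
    calc ca * (3 / 20 * cv ^ (e + 2)) * r * Fintype.card (Box e m) =
        (ca * Fintype.card (Box e m)) * (3 / 20 * cv ^ (e + 2) / (u * 2 ^ ((e + 2) * m))) := by
          rw [hr]; ring
      _ ≤ _ := mul_le_mul_of_nonneg_right hca' (by positivity)
  · rw [av_sum]
    have h1 : ∀ R : Box e m, av (fun β : Box e m → Bool => (∑ x, rz (idB T) (e0B T) (e1B T) u β x /
        ((2 : ℝ) ^ T) ^ (e + 2) * wt v R x) ^ 2) ≤ 10 ^ e * 4 ^ (e + 1) * r ^ 2 := by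
      intro R
      refine (moment2 hT.le v hv1 hv0 hu0 hu2.ge R).trans (le_of_eq ?_)
      have h4 : (4 : ℝ) ^ ((e + 2) * m) = (2 ^ ((e + 2) * m)) ^ 2 := by
        rw [← pow_mul (2 : ℝ), mul_comm ((e + 2) * m) 2, pow_mul (2 : ℝ) 2]
        norm_num
      rw [hr, div_pow, mul_pow, h4, one_pow, mul_one_div]
    refine (Finset.sum_le_sum fun R _ => h1 R).trans (le_of_eq ?_)
    rw [Finset.sum_const, card_univ, nsmul_eq_mul]
    ring

end Pool.Agent.Helper60.SB

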