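import Pool.Agent.Helper60.SB.Defs3

/-!
Definitions for the case of small smoothness `r ≤ 1/2`.
-/

open Finset MeasureTheory
open scoped ENNReal Real

namespace Pool.Agent.Helper60.SB

/-! ### the kernel of the lower bounds -/

/-- the shapes `s ∈ ℕ^(e+1)` with `m₀ ≤ s_0 + ⋯ + s_e ≤ m₁` -/
def Shp (e m₀ m₁ : ℕ) : Finset (Fin (e + 1) → ℕ) :=
  (Fintype.piFinset fun _ => range (m₁ + 1)).filter fun s => m₀ ≤ ∑ j, s j ∧ ∑ j, s j ≤ m₁

/-- the positions of the dyadic boxes of shape `s` -/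
def cells {d : ℕ} (s : Fin d → ℕ) : Finset (Fin d → ℕ) :=
  Fintype.piFinset fun j => range (2 ^ s j)

/-- the periodic building block of the dyadic box with shape `s` and position `c` -/
noncomputable def sblk {d : ℕ} (u : ℝ → ℝ) (s c : Fin d → ℕ) (x : Fin d → ℝ) : ℝ :=
  ∏ j, ub u (s j) (c j) (x j)

/-- the univariate kernel of depth `s` -/
noncomputable def kb1 (u : ℝ → ℝ) (s : ℕ) (x y : ℝ) : ℝ :=
  ∑ c ∈ range (2 ^ s), ub u s c x * ub u s c y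

/-- the kernel `∑_{s ∈ Sh} ∑_c σ_{s,c}(x) σ_{s,c}(y)` -/
noncomputable def kb {d : ℕ} (u : ℝ → ℝ) (Sh : Finset (Fin d → ℕ)) (x y : Fin d → ℝ) : ℝ :=
  ∑ s ∈ Sh, ∏ j, kb1 u (s j) (x j) (y j)

/-- the number of the dyadic cell of depth `a` containing `x` -/
noncomputable def cell (a : ℕ) (x : ℝ) : ℕ := ⌊2 ^ a * Int.fract (x / (2 * π))⌋₊

/-- the largest `a ≤ M` such that `x`, `y` lie in the same dyadic cell of depth `a` -/
noncomputable def lc (M : ℕ) (x y : ℝ) : ℕ := Nat.findGreatest (fun a => cell a x = cell a y) M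

/-- truncation at height `K` -/
noncomputable def clip (K t : ℝ) : ℝ := max (-K) (min K t)

/-- the sum of the building block over the points `X` -/
noncomputable def SX {d N : ℕ} (u : ℝ → ℝ) (X : Fin N → Fin d → ℝ) (s c : Fin d → ℕ) : ℝ :=
  ∑ i, sblk u s c (X i)

/-! ### smooth dyadic blocks of frequencies -/

/-- the cut-off equal to `1` for `|k| ≤ 2^s` and to `0` for `|k| ≥ 2^(s+1)`, linear in between -/
noncomputable def vp (s : ℕ) (k : ℤ) : ℝ := max 0 (min 1 (2 - |(k : ℝ)| / 2 ^ s))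

/-- the smooth partition of unity on the integers -/
noncomputable def eta (s : ℕ) (k : ℤ) : ℝ := if s = 0 then vp 0 k else vp s k - vp (s - 1) k

/-- the shapes of level exactly `m` -/
def shps (d m : ℕ) : Finset (Fin d → ℕ) :=
  (Fintype.piFinset fun _ => range (m + 1)).filter fun s => ∑ j, s j = m

/-- the frequencies of the smooth level `m` -/
noncomputable def Qs (d m : ℕ) : Finset (Fin d → ℤ) :=
  (range (d + 1)).biUnion fun i => Qm d (m + i)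

/-- the univariate polynomial with the coefficients `M k`, `|k| ≤ 2^b` -/
noncomputable def upol (M : ℤ → ℂ) (b : ℕ) (x : ℝ) : ℂ :=
  ∑ k ∈ Finset.Icc (-2 ^ b : ℤ) (2 ^ b), M k * Complex.exp (Complex.I * k * x)

/-- `M` is a family of multipliers adapted to the dyadic blocks -/
def MulFam (M : ℕ → ℤ → ℂ) (C : ℝ) : Prop :=
  (∀ s k, (k.natAbs.size ≠ s ∧ k.natAbs.size ≠ s + 1) → M s k = 0) ∧ (∀ s k, ‖M s k‖ ≤ C) ∧
    ∀ s, ∫ x, ‖upol (M s) (s + 1) x‖ ∂tor1 ≤ C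

/-- the multipliers of the classes `W` -/
noncomputable def mW (r : ℝ) (s : ℕ) (k : ℤ) : ℂ :=
  (((2 : ℝ) ^ (r * s) * eta s k : ℝ) : ℂ) * bmul r r k

/-- the multipliers of the classes `H`, `r < 1` -/
noncomputable def mH (s : ℕ) (k : ℤ) : ℂ :=
  if s = 0 then (eta 0 k : ℂ)
  else (eta s k : ℂ) / (Complex.exp (Complex.I * k * ((2 : ℝ) ^ (-(s : ℝ)) : ℝ)) - 1)

/-- the coefficient vector of level `m` of the family `h` -/
noncomputable def yb {e : ℕ} (M : ℕ → ℤ → ℂ) (m : ℕ)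
    (h : (Fin (e + 1) → ℕ) → (Fin (e + 1) → ℝ) → ℂ) (i : Qs (e + 1) m × Bool) : ℝ :=
  if i.2 then
    (∑ s ∈ shps (e + 1) m, (∏ j, M (s j) ((i.1 : Fin (e + 1) → ℤ) j)) * fc (h s) i.1).im
  else (∑ s ∈ shps (e + 1) m, (∏ j, M (s j) ((i.1 : Fin (e + 1) → ℤ) j)) * fc (h s) i.1).re

open scoped Classical in
/-- `y` represents `f` -/
def SRep {e : ℕ} (r p a C : ℝ) (f : (Fin (e + 1) → ℝ) → ℂ)
    (y : (m : ℕ) → (Qs (e + 1) m × Bool → ℝ)) : Prop :=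
  Integrable f (tor (e + 1)) ∧
  (∀ k : Fin (e + 1) → ℤ, fc f k = ∑ m ∈ range (∑ j, lev k j + 1),
    (((2 : ℝ) ^ (-(r * m)) : ℝ) : ℂ) * (if h : k ∈ Qs (e + 1) m then cco (y m) ⟨k, h⟩ else 0)) ∧
  (∀ m, ∑ i, (y m i) ^ 2 ≤ C ^ 2 * ((m : ℝ) + 1) ^ a) ∧
  (∀ m, ∀ A : ℝ, 1 ≤ A → ∃ u v : Qs (e + 1) m × Bool → ℝ, y m = u + v ∧
    (∀ x, ‖TT (Qs (e + 1) m) u x‖ ≤ C * A * ((m : ℝ) + 1) ^ e) ∧
    ∑ i, (v i) ^ 2 ≤ C ^ 2 * A ^ (2 - p) * ((m : ℝ) + 1) ^ a)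

/-- the set of the polynomials of the smooth level `m` -/
def SLev (e : ℕ) (p a C : ℝ) (m : ℕ) : Set ((Fin (e + 1) → ℝ) → ℂ) :=
  {g | ∃ y : Qs (e + 1) m × Bool → ℝ, g = TT (Qs (e + 1) m) y ∧
    ∑ i, (y i) ^ 2 ≤ C ^ 2 * ((m : ℝ) + 1) ^ a ∧
    ∀ A : ℝ, 1 ≤ A → ∃ u v : Qs (e + 1) m × Bool → ℝ, y = u + v ∧
      (∀ x, ‖TT (Qs (e + 1) m) u x‖ ≤ C * A * ((m : ℝ) + 1) ^ e) ∧
      ∑ i, (v i) ^ 2 ≤ C ^ 2 * A ^ (2 - p) * ((m : ℝ) + 1) ^ a}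

end Pool.Agent.Helper60.SB
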