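import Pool.Agent.Helper60.SB.Defs2

/-!
Elementary facts on prefixes and digits of binary numbers.
-/

open Finset

namespace Pool.Agent.Helper60.SB

lemma pre_lt {T s : ℕ} (h : s ≤ T) (x : Fin (2 ^ T)) : pre T s x < 2 ^ s := by
  unfold pre
  rw [Nat.div_lt_iff_lt_mul (by positivity), ← pow_add]
  have : s + (T - s) = T := by omega
  rw [this]
  exact x.2

lemma pre_div {T s s' : ℕ} (h : s ≤ s') (hT : s' ≤ T) (x : Fin (2 ^ T)) :
    pre T s x = pre T s' x / 2 ^ (s' - s) := by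
  unfold pre
  rw [Nat.div_div_eq_div_mul, ← pow_add]
  congr 2
  omega

lemma pre_eq_of_le {T s s' : ℕ} (h : s ≤ s') (hT : s' ≤ T) {x y : Fin (2 ^ T)}
    (hxy : pre T s' x = pre T s' y) : pre T s x = pre T s y := by
  rw [pre_div h hT, pre_div h hT, hxy]

lemma hs_eq_of_lt {T s s' : ℕ} (h : s < s') (hT : s' ≤ T) {x y : Fin (2 ^ T)}
    (hxy : pre T s' x = pre T s' y) : hs T s x = hs T s y := by
  have h1 : pre T (s + 1) x = pre T (s + 1) y := pre_eq_of_le h hT hxy
  unfold pre at h1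
  unfold hs
  rw [h1]

lemma hs_sq (T s : ℕ) (x : Fin (2 ^ T)) : hs T s x * hs T s x = 1 := by
  unfold hs; split_ifs <;> norm_num

lemma hs_or (T s : ℕ) (x : Fin (2 ^ T)) : hs T s x = 1 ∨ hs T s x = -1 := by
  unfold hs; split_ifs <;> simp

lemma abs_hs (T s : ℕ) (x : Fin (2 ^ T)) : |hs T s x| = 1 := by
  rcases hs_or T s x with h | h <;> rw [h] <;> norm_num

lemma pre_self (T : ℕ) (x : Fin (2 ^ T)) : pre T T x = x := by
  unfold pre; simp

/-- number of `x` with a given prefix -/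
lemma card_pre {T s : ℕ} (h : s ≤ T) {c : ℕ} (hc : c < 2 ^ s) :
    (univ.filter fun x : Fin (2 ^ T) => pre T s x = c).card = 2 ^ (T - s) := by
  have hpos : 0 < 2 ^ (T - s) := by positivity
  have hT : 2 ^ s * 2 ^ (T - s) = 2 ^ T := by rw [← pow_add]; congr 1; omega
  rw [← Finset.card_map (Fin.valEmbedding)]
  have : (univ.filter fun x : Fin (2 ^ T) => pre T s x = c).map Fin.valEmbedding =
      Finset.Ico (c * 2 ^ (T - s)) ((c + 1) * 2 ^ (T - s)) := by
    ext k
    simp only [mem_map, mem_filter, mem_univ, true_and, Fin.valEmbedding_apply, mem_Ico, pre]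
    constructor
    · rintro ⟨x, hx, rfl⟩
      rw [Nat.div_eq_iff hpos] at hx
      constructor
      · exact hx.1
      · have := hx.2
        rw [add_mul]; omega
    · rintro ⟨h1, h2⟩
      have h3 : (c + 1) * 2 ^ (T - s) ≤ 2 ^ T := by
        rw [← hT]; exact Nat.mul_le_mul_right _ hc
      refine ⟨⟨k, by omega⟩, ?_, rfl⟩
      rw [Nat.div_eq_iff hpos]
      rw [add_mul, one_mul] at h2
      refine ⟨h1, ?_⟩
      change k ≤ _
      omega
  rw [this, Nat.card_Ico, add_mul, one_mul]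
  omega

/-- number of pairs in a cell of depth `s` that agree to depth `a` -/
lemma card_agree {T s a : ℕ} (h : s ≤ a) (ha : a ≤ T) {c : ℕ} (hc : c < 2 ^ s) :
    ((univ.filter fun q : Fin (2 ^ T) × Fin (2 ^ T) =>
      pre T s q.1 = c ∧ pre T s q.2 = c ∧ pre T a q.1 = pre T a q.2).card) =
      2 ^ (T - s) * 2 ^ (T - a) := by
  classical
  have h1 : (univ.filter fun q : Fin (2 ^ T) × Fin (2 ^ T) =>
      pre T s q.1 = c ∧ pre T s q.2 = c ∧ pre T a q.1 = pre T a q.2) =
      ((univ.filter fun x : Fin (2 ^ T) => pre T s x = c).sigma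
        (fun x => univ.filter fun y : Fin (2 ^ T) => pre T a y = pre T a x)).map
        (Equiv.sigmaEquivProd _ _).toEmbedding := by
    ext ⟨x, y⟩
    simp only [mem_filter, mem_univ, true_and, mem_map, mem_sigma, Equiv.coe_toEmbedding]
    constructor
    · rintro ⟨h1, h2, h3⟩
      exact ⟨⟨x, y⟩, ⟨h1, h3.symm⟩, rfl⟩
    · rintro ⟨⟨x', y'⟩, ⟨h1, h2⟩, h3⟩
      simp only [Equiv.sigmaEquivProd_apply, Prod.mk.injEq] at h3
      obtain ⟨rfl, rfl⟩ := h3
      simp only at h1 h2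
      refine ⟨h1, ?_, h2.symm⟩
      rw [pre_eq_of_le h ha h2, h1]
  rw [h1, card_map, card_sigma]
  rw [Finset.sum_congr rfl (fun x _ => card_pre ha (pre_lt ha x))]
  rw [sum_const, card_pre (h.trans ha) hc, smul_eq_mul]

/-- length of the common prefix -/
noncomputable def lcp (T : ℕ) (x y : Fin (2 ^ T)) : ℕ :=
  Nat.findGreatest (fun a => pre T a x = pre T a y) T

lemma lcp_le (T : ℕ) (x y : Fin (2 ^ T)) : lcp T x y ≤ T := Nat.findGreatest_le _

lemma pre_zero (T : ℕ) (x : Fin (2 ^ T)) : pre T 0 x = 0 := by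
  unfold pre; simp

lemma le_lcp_iff {T a : ℕ} (ha : a ≤ T) (x y : Fin (2 ^ T)) :
    a ≤ lcp T x y ↔ pre T a x = pre T a y := by
  constructor
  · intro h
    have h1 : pre T (lcp T x y) x = pre T (lcp T x y) y := by
      have := Nat.findGreatest_spec (P := fun a => pre T a x = pre T a y) (Nat.zero_le T)
        (by simp only [pre_zero])
      exact this
    exact pre_eq_of_le h (lcp_le T x y) h1
  · intro h
    exact Nat.le_findGreatest ha h

/-- moment bound for the length of the common prefix of pairs in a cell -/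
lemma sum_pow_lcp {T s : ℕ} (hsT : s ≤ T) {c : ℕ} (hc : c < 2 ^ s) (z : ℝ) (hz : 0 ≤ z)
    (hz2 : z / 2 ≤ 3 / 4) :
    ∑ q ∈ univ.filter (fun q : Fin (2 ^ T) × Fin (2 ^ T) =>
      pre T s q.1 = c ∧ pre T s q.2 = c), z ^ lcp T q.1 q.2 ≤
      4 * z ^ s * 4 ^ (T - s) := by
  classical
  set Q := univ.filter (fun q : Fin (2 ^ T) × Fin (2 ^ T) =>
      pre T s q.1 = c ∧ pre T s q.2 = c) with hQ
  have h1 : ∀ q ∈ Q, z ^ lcp T q.1 q.2 ≤
      ∑ a ∈ Finset.Icc s T, if pre T a q.1 = pre T a q.2 then z ^ a else 0 := by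
    intro q hq
    rw [hQ, mem_filter] at hq
    have h2 : s ≤ lcp T q.1 q.2 := by
      rw [le_lcp_iff hsT, hq.2.1, hq.2.2]
    have h3 := Finset.single_le_sum (f := fun a => if pre T a q.1 = pre T a q.2 then z ^ a else 0)
      (s := Finset.Icc s T) (fun a _ => by positivity) (a := lcp T q.1 q.2)
      (by rw [mem_Icc]; exact ⟨h2, lcp_le _ _ _⟩)
    refine le_trans (le_of_eq ?_) h3
    rw [if_pos ((le_lcp_iff (lcp_le _ _ _) _ _).1 le_rfl)]
  refine (Finset.sum_le_sum h1).trans ?_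
  rw [Finset.sum_comm]
  have h4 : ∀ a ∈ Finset.Icc s T, ∑ q ∈ Q, (if pre T a q.1 = pre T a q.2 then z ^ a else 0) =
      z ^ s * 4 ^ (T - s) * (z / 2) ^ (a - s) := by
    intro a ha
    rw [mem_Icc] at ha
    rw [← Finset.sum_filter, Finset.sum_const, hQ, Finset.filter_filter]
    have h5 : (univ.filter fun q : Fin (2 ^ T) × Fin (2 ^ T) =>
        (pre T s q.1 = c ∧ pre T s q.2 = c) ∧ pre T a q.1 = pre T a q.2) =
        (univ.filter fun q : Fin (2 ^ T) × Fin (2 ^ T) =>
        pre T s q.1 = c ∧ pre T s q.2 = c ∧ pre T a q.1 = pre T a q.2) := by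
      ext q; simp only [mem_filter, and_assoc]
    rw [h5, card_agree ha.1 ha.2 hc, nsmul_eq_mul]
    push_cast
    have h6 : (2 : ℝ) ^ (T - s) = 2 ^ (T - a) * 2 ^ (a - s) := by
      rw [← pow_add]; congr 1; omega
    have h7 : (4 : ℝ) ^ (T - s) = 2 ^ (T - s) * 2 ^ (T - s) := by
      rw [← mul_pow]; norm_num
    have h8 : z ^ a = z ^ s * z ^ (a - s) := by rw [← pow_add]; congr 1; omega
    rw [h7, h8, div_pow]
    have h9 : (2 : ℝ) ^ (a - s) ≠ 0 := by positivity
    field_simp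
    rw [h6]
    ring
  rw [Finset.sum_congr rfl h4, ← Finset.mul_sum]
  have h10 : ∑ a ∈ Finset.Icc s T, (z / 2) ^ (a - s) ≤ 4 := by
    have h11 : ∑ a ∈ Finset.Icc s T, (z / 2) ^ (a - s) =
        ∑ j ∈ Finset.range (T - s + 1), (z / 2) ^ j := by
      have hI : Finset.Icc s T = (Finset.range (T - s + 1)).map (addLeftEmbedding s) := by
        ext a
        simp only [mem_Icc, mem_map, mem_range, addLeftEmbedding_apply]
        constructor
        · rintro ⟨h1, h2⟩
          exact ⟨a - s, by omega, by omega⟩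
        · rintro ⟨j, h1, h2⟩
          omega
      rw [hI, Finset.sum_map]
      refine Finset.sum_congr rfl fun j _ => ?_
      simp
    rw [h11]
    have h12 : ∑ j ∈ Finset.range (T - s + 1), (z / 2) ^ j ≤
        ∑ j ∈ Finset.range (T - s + 1), (3 / 4 : ℝ) ^ j :=
      Finset.sum_le_sum fun j _ => pow_le_pow_left₀ (by positivity) hz2 j
    refine h12.trans ?_
    rw [geom_sum_eq (by norm_num)]
    have : (0 : ℝ) ≤ (3 / 4) ^ (T - s + 1) := by positivity
    rw [div_le_iff_of_neg (by norm_num)]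
    linarith
  calc z ^ s * 4 ^ (T - s) * ∑ a ∈ Finset.Icc s T, (z / 2) ^ (a - s)
      ≤ z ^ s * 4 ^ (T - s) * 4 := mul_le_mul_of_nonneg_left h10 (by positivity)
    _ = 4 * z ^ s * 4 ^ (T - s) := by ring

end Pool.Agent.Helper60.SB
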