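import Pool.Agent.Helper60.SB.Shapes

/-!
The one-variable average in the second moment computation.
-/

open Finset

namespace Pool.Agent.Helper60.SB

variable {m T : ℕ}

/-- the factor `z_i(a,b)` -/
noncomputable def zz (T : ℕ) (c : ℕ → ℝ) (i : ℕ) (a b : Fin (2 ^ T)) : ℝ :=
  1 / 4 * (hs T i a * hs T i b * if pre T i a = pre T i b then c i else 0)

lemma zz_prod (hmT : m ≤ T) (c : ℕ → ℝ) (i : Fin m) (a b : Fin (2 ^ T)) :
    zz T c i a b * ∏ l ∈ univ.filter (fun l : Fin m => l < i), (1 + zz T c l a b) =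
      (1 / 4 * c i * ∏ l ∈ univ.filter (fun l : Fin m => l < i), (1 + 1 / 4 * c l)) *
        (if pre T i a = pre T i b then hs T i a * hs T i b else 0) := by
  have hi : (i : ℕ) ≤ T := i.2.le.trans hmT
  by_cases h : pre T i a = pre T i b
  · have h1 : ∏ l ∈ univ.filter (fun l : Fin m => l < i), (1 + zz T c l a b) =
        ∏ l ∈ univ.filter (fun l : Fin m => l < i), (1 + 1 / 4 * c l) := by
      refine Finset.prod_congr rfl fun l hl => ?_
      rw [mem_filter] at hl
      have hl' : (l : ℕ) < i := hl.2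
      unfold zz
      rw [if_pos (pre_eq_of_le hl'.le hi h), hs_eq_of_lt hl' hi h, hs_sq, one_mul]
    rw [h1]
    unfold zz
    rw [if_pos h, if_pos h]
    ring
  · unfold zz
    rw [if_neg h, if_neg h]
    ring

lemma inner_expand (hmT : m ≤ T) (c : ℕ → ℝ) (w : Fin (2 ^ T) → ℝ) :
    ∑ a, ∑ b, w a * w b * ∏ i : Fin m, (1 + zz T c i a b) =
      (∑ a, w a) ^ 2 + ∑ i : Fin m,
        (1 / 4 * c i * ∏ l ∈ univ.filter (fun l : Fin m => l < i), (1 + 1 / 4 * c l)) *
        ∑ a, ∑ b, w a * w b * (if pre T i a = pre T i b then hs T i a * hs T i b else 0) := by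
  have h1 : ∀ a b, w a * w b * ∏ i : Fin m, (1 + zz T c i a b) = w a * w b + ∑ i : Fin m,
      (1 / 4 * c i * ∏ l ∈ univ.filter (fun l : Fin m => l < i), (1 + 1 / 4 * c l)) *
      (w a * w b * (if pre T i a = pre T i b then hs T i a * hs T i b else 0)) := by
    intro a b
    rw [Finset.prod_one_add_ordered, mul_add, mul_one, Finset.mul_sum]
    congr 1
    refine Finset.sum_congr rfl fun i _ => ?_
    rw [zz_prod hmT]
    ring
  simp_rw [h1]
  rw [Finset.sum_congr rfl (fun a _ => Finset.sum_add_distrib), Finset.sum_add_distrib]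
  congr 1
  · rw [sq, Finset.sum_mul_sum]
  · rw [Finset.sum_congr rfl (fun a _ => Finset.sum_comm), Finset.sum_comm]
    refine Finset.sum_congr rfl fun i _ => ?_
    rw [Finset.mul_sum]
    refine Finset.sum_congr rfl fun a _ => ?_
    rw [Finset.mul_sum]

lemma inner_A_lt {s i : ℕ} (hsT : s ≤ T) (his : i < s) (w : Fin (2 ^ T) → ℝ) {c0 : ℕ}
    (hw : ∀ a, pre T s a ≠ c0 → w a = 0) (hw0 : ∑ a, w a = 0) :
    ∑ a, ∑ b, w a * w b * (if pre T i a = pre T i b then hs T i a * hs T i b else 0) = 0 := by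
  have h1 : ∀ a b, w a * w b * (if pre T i a = pre T i b then hs T i a * hs T i b else 0) =
      w a * w b := by
    intro a b
    by_cases ha : pre T s a = c0
    · by_cases hb : pre T s b = c0
      · have h2 : pre T s a = pre T s b := by rw [ha, hb]
        rw [if_pos (pre_eq_of_le his.le hsT h2), hs_eq_of_lt his hsT h2, hs_sq, mul_one]
      · rw [hw b hb]; ring
    · rw [hw a ha]; ring
  simp_rw [h1]
  rw [← Finset.sum_mul_sum, hw0, zero_mul]

lemma inner_A_ge {s i : ℕ} (hiT : i ≤ T) (his : s ≤ i) (w : Fin (2 ^ T) → ℝ) {c0 : ℕ}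
    (hc0 : c0 < 2 ^ s) (hw : ∀ a, pre T s a ≠ c0 → w a = 0) (hw1 : ∀ a, |w a| ≤ 1) :
    |∑ a, ∑ b, w a * w b * (if pre T i a = pre T i b then hs T i a * hs T i b else 0)| ≤
      2 ^ (T - s) * 2 ^ (T - i) := by
  have h0 : ((2 : ℝ) ^ (T - s) * 2 ^ (T - i)) = ∑ a : Fin (2 ^ T), ∑ b : Fin (2 ^ T),
      (if pre T s a = c0 ∧ pre T s b = c0 ∧ pre T i a = pre T i b then (1 : ℝ) else 0) := by
    rw [← Fintype.sum_prod_type' (f := fun (a b : Fin (2 ^ T)) =>
      (if pre T s a = c0 ∧ pre T s b = c0 ∧ pre T i a = pre T i b then (1 : ℝ) else 0)),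
      Finset.sum_boole, card_agree his hiT hc0]
    push_cast; ring
  rw [h0]
  refine (Finset.abs_sum_le_sum_abs _ _).trans (Finset.sum_le_sum fun a _ => ?_)
  refine (Finset.abs_sum_le_sum_abs _ _).trans (Finset.sum_le_sum fun b _ => ?_)
  by_cases ha : pre T s a = c0
  · by_cases hb : pre T s b = c0
    · by_cases hab : pre T i a = pre T i b
      · rw [if_pos hab, if_pos ⟨ha, hb, hab⟩, abs_mul, abs_mul, abs_mul, abs_hs, abs_hs]
        have := hw1 a
        have := hw1 b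
        nlinarith [abs_nonneg (w a), abs_nonneg (w b)]
      · rw [if_neg hab, mul_zero, abs_zero]; positivity
    · rw [hw b hb, mul_zero, zero_mul, abs_zero]; positivity
  · rw [hw a ha, zero_mul, zero_mul, abs_zero]; positivity

/-- the one-variable average -/
lemma inner_bound (hmT : m ≤ T) (c : ℕ → ℝ) (w : Fin (2 ^ T) → ℝ) (s : Fin m) {c0 : ℕ}
    (hc0 : c0 < 2 ^ (s : ℕ)) (hw : ∀ a, pre T s a ≠ c0 → w a = 0) (hw1 : ∀ a, |w a| ≤ 1)
    (hw0 : ∑ a, w a = 0) :
    |∑ a, ∑ b, w a * w b * ∏ i : Fin m, (1 + zz T c i a b)| ≤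
      ∑ i ∈ univ.filter (fun i : Fin m => s ≤ i),
        1 / 4 * |c i| * (∏ l ∈ univ.filter (fun l : Fin m => l < i), (1 + 1 / 4 * |c l|)) *
          (2 ^ (T - s) * 2 ^ (T - i)) := by
  rw [inner_expand hmT, hw0, Finset.sum_filter]
  rw [zero_pow two_ne_zero, zero_add]
  refine (Finset.abs_sum_le_sum_abs _ _).trans (Finset.sum_le_sum fun i _ => ?_)
  have hiT : (i : ℕ) ≤ T := i.2.le.trans hmT
  have hsT : (s : ℕ) ≤ T := s.2.le.trans hmT
  by_cases h : s ≤ i
  · rw [if_pos h, abs_mul, abs_mul, abs_mul]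
    have h1 := inner_A_ge hiT (show (s : ℕ) ≤ i from h) w hc0 hw hw1
    have h2 : |∏ l ∈ univ.filter (fun l : Fin m => l < i), (1 + 1 / 4 * c l)| ≤
        ∏ l ∈ univ.filter (fun l : Fin m => l < i), (1 + 1 / 4 * |c l|) := by
      rw [Finset.abs_prod]
      refine Finset.prod_le_prod (fun _ _ => abs_nonneg _) fun l _ => ?_
      refine (abs_add_le _ _).trans ?_
      rw [abs_mul, abs_one]
      norm_num
    have h3 : |(1 / 4 : ℝ)| = 1 / 4 := by norm_num
    rw [h3]
    refine mul_le_mul ?_ h1 (abs_nonneg _) ?_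
    · exact mul_le_mul_of_nonneg_left h2 (by positivity)
    · refine mul_nonneg (by positivity) (Finset.prod_nonneg fun l _ => by positivity)
  · rw [if_neg h]
    have h1 : (i : ℕ) < s := not_le.1 h
    rw [inner_A_lt hsT h1 w hw hw0, mul_zero, abs_zero]

end Pool.Agent.Helper60.SB
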