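import Pool.Agent.Helper60.SB.Link
import Pool.Agent.Helper60.SB.Defs4
import Pool.Agent.Helper83.SB.L13
import Pool.Agent.Helper73.SB.L8
import Pool.Agent.Helper42.SB.L6
import Pool.Agent.Helper42.SB.M9
import Pool.Agent.Helper24.SB.M8
import Pool.Agent.Helper36.SB.M14
import Pool.Agent.Helper26.SB.SL15
import Pool.Agent.Helper26.SB.SL16
import Pool.Agent.Helper21.SB.M34
import Pool.Agent.Helper16.SB.M5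
import Pool.Agent.Helper30.SB.M6
import Pool.Agent.Helper68.SB.M7
import Pool.Agent.Helper68.SB.M11
import Pool.Agent.Helper56.SB.L14b
import Pool.Agent.Helper16.SB.L14a
import Pool.Agent.Helper21.SB.L15
import Pool.Agent.Helper23.SB.L7

/-!
The modules for small smoothness, linked together.
-/

open Finset MeasureTheory
open scoped ENNReal Real

namespace Pool.Agent.Helper60.SB

theorem rep_W (e : ℕ) (r p : ℝ) (hr : 0 < r) (hp : 2 < p) :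
    ∃ C ≥ 1, ∀ f ∈ Wclass (e + 1) ℂ r (ENNReal.ofReal p),
      ∃ y : (m : ℕ) → (Qs (e + 1) m × Bool → ℝ), SRep r p 0 C f y ∧
        ∀ L : ℕ, ∑ m ∈ range L, ∑ i, (y m i) ^ 2 ≤ C ^ 2 :=
  Pool.Agent.Helper24.SB.rep_W sum_eta eta_eq_zero Pool.Agent.Helper21.SB.mulFam_W
    Pool.Agent.Helper16.SB.yb_sup Pool.Agent.Helper30.SB.yb_l2_joint
    (fun p hp h h1 h2 A hA => trunc_Lp p hp h h1 h2 A hA) e r p hr hp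

theorem rep_H (e : ℕ) (r p : ℝ) (hr : 0 < r) (hr1 : r < 1) (hp : 2 < p) :
    ∃ C ≥ 1, ∀ f ∈ Hclass (e + 1) ℂ r (ENNReal.ofReal p),
      ∃ y : (m : ℕ) → (Qs (e + 1) m × Bool → ℝ), SRep r p e C f y :=
  Pool.Agent.Helper42.SB.rep_H_of sum_eta eta_eq_zero eta_support
    Pool.Agent.Helper21.SB.mulFam_H Pool.Agent.Helper16.SB.yb_sup Pool.Agent.Helper30.SB.yb_l2
    (fun p hp h h1 h2 A hA => trunc_Lp p hp h h1 h2 A hA) e r p hr hr1 hp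

theorem slev_low (e : ℕ) (p a C : ℝ) (hC : 1 ≤ C) :
    ∃ C' ≥ 1, ∀ m j : ℕ, CovF (SLev e p a C m)
      (C' * ((m : ℝ) + 1) ^ (a / 2 + 1 / 2) * (2 : ℝ) ^ (-(j : ℝ)))
      (C' * (1 + j) * ((m : ℝ) + 1) ^ e * 2 ^ m + 1) :=
  Pool.Agent.Helper36.SB.slev_low_of Pool.Agent.Helper30.SB.card_Qs e p a C hC

theorem slev_A (e : ℕ) (p a C : ℝ) (hC : 1 ≤ C) :
    ∃ C' ≥ 1, ∀ (m : ℕ) (K : ℝ), 0 < K → CovF (SLev e p a C m)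
      (C' * ((m : ℝ) + 1) ^ e * Real.sqrt (((m : ℝ) + 1) ^ (a + 1 - e) * 2 ^ m / K)) (K + 1) :=
  Pool.Agent.Helper36.SB.slev_A_of Pool.Agent.Helper30.SB.card_Qs e p a C hC

theorem slev_B (e : ℕ) (p a C : ℝ) (hp : 2 < p) (hC : 1 ≤ C) :
    ∃ C' ≥ 1, ∀ (m : ℕ) (K : ℝ), 0 < K → CovF (SLev e p a C m)
      (C' * ((m : ℝ) + 1) ^ e * (((m : ℝ) + 1) ^ (a + 1 - e) * 2 ^ m / K) ^ (1 / p)) (K + 1) :=
  Pool.Agent.Helper36.SB.slev_B_of Pool.Agent.Helper30.SB.card_Qs e p a C hp hC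

theorem window_cov (e : ℕ) : ∃ C ≥ 1, ∀ (m₀ m₁ : ℕ) (D K : ℝ), 0 < D → 0 < K →
    CovF {g : (Fin (e + 1) → ℝ) → ℂ | ∃ y : (m : ℕ) → (Qs (e + 1) m × Bool → ℝ),
        ∑ m ∈ Finset.Ico m₀ m₁, ∑ i, (y m i) ^ 2 ≤ D ^ 2 ∧
        g = fun x => ∑ m ∈ Finset.Ico m₀ m₁, (((2 : ℝ) ^ (-(1 / 2 * (m : ℝ))) : ℝ) : ℂ) *
          TT (Qs (e + 1) m) (y m) x}
      (C * D * Real.sqrt (((m₁ - m₀ : ℕ) : ℝ) * ((m₁ : ℝ) + 1) ^ (e + 1) / K)) (K + 1) :=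
  Pool.Agent.Helper36.SB.window_cov_of Pool.Agent.Helper30.SB.card_Qs gauss_sup_w e

theorem kernel_location (e : ℕ) (he : 1 ≤ e) (u : ℝ → ℝ) (hu : Continuous u)
    (hu1 : ∀ t, |u t| ≤ 1) (hsupp : ∀ t, (t ≤ 1 / 10 ∨ 9 / 10 ≤ t) → u t = 0)
    (hint : ∫ t, u t = 0) (ν : ℝ) (hν : 0 < ν) (hν2 : ∫ t, u t ^ 2 = ν) (B₁ : ℝ) (hB₁ : 0 < B₁) :
    ∃ α > 0, ∃ m₂ : ℕ, ∀ m₀ m₁ N : ℕ, m₂ ≤ m₁ → m₀ ≤ m₁ → m₁ ≤ 2 * m₀ → m₂ ≤ N →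
      (N : ℝ) * m₁ ≤ B₁ * 2 ^ m₀ * ((m₁ - m₀ + 1 : ℕ) : ℝ) ^ 2 * (m₁ : ℝ) ^ e →
      ∃ 𝒯 : Set (Fin N → Fin (e + 1) → ℝ), MeasurableSet 𝒯 ∧
        2 / 3 ≤ (Measure.pi fun _ : Fin N => tor (e + 1)).real 𝒯 ∧
        (∀ X ∈ 𝒯, |∑ i, ∑ j, kb u (Shp e m₀ m₁) (X i) (X j) -
          N * (ν ^ (e + 1) * (Shp e m₀ m₁).card)| ≤
            1 / 16 * N * (ν ^ (e + 1) * (Shp e m₀ m₁).card)) ∧
        ∀ Y ∈ 𝒯, (Measure.pi fun _ : Fin N => tor (e + 1)).real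
          {X | N * (ν ^ (e + 1) * (Shp e m₀ m₁).card) / 2 ≤
            ∑ i, ∑ j, kb u (Shp e m₀ m₁) (X i) (Y j)} ≤ Real.exp (-(α * m₁ * N / 8)) :=
  Pool.Agent.Helper69.SB.kernel_location
    (fun u hu hsupp Sh => Pool.Agent.Helper23.SB.kb_continuous u hu hsupp Sh)
    (fun hd u hu hsupp hint Sh x => Pool.Agent.Helper23.SB.integral_kb hd u hu hsupp hint Sh x)
    (fun u hu hsupp Sh => Pool.Agent.Helper23.SB.integral_kb_diag u hu hsupp Sh)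
    (fun u hu1 hsupp Sh M hM x y => Pool.Agent.Helper75.SB.abs_kb_le u hu1 hsupp Sh M hM x y)
    (fun M x g hg => Pool.Agent.Helper75.SB.integral_lc_le M x g hg)
    e he u hu hu1 hsupp hint ν hν hν2 B₁ hB₁

theorem H_pack (e : ℕ) (he : 1 ≤ e) (r : ℝ) (hr : 0 < r) (hr2 : r ≤ 1 / 2) (𝕜 : Type)
    [RCLike 𝕜] (p : ℝ≥0∞) (B₁ : ℝ) (hB₁ : 0 < B₁) :
    ∃ c > 0, ∃ m₂ : ℕ, ∀ m₀ m₁ : ℕ, m₂ ≤ m₁ → m₀ ≤ m₁ → m₁ ≤ 2 * m₀ →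
      (2 : ℝ) ^ m₁ * m₁ ≤ B₁ * 2 ^ m₀ * ((m₁ - m₀ + 1 : ℕ) : ℝ) ^ 2 * (m₁ : ℝ) ^ e →
      ∀ n : ℕ, (n : ℝ) ≤ c * m₁ * 2 ^ m₁ →
        ENNReal.ofReal (c * (2 : ℝ) ^ ((1 / 2 - r) * m₀) * (2 : ℝ) ^ (-(m₁ : ℝ) / 2) *
          (Shp e m₀ m₁).card) ≤ entropyNumber n (Hclass (e + 1) 𝕜 r p) :=
  Pool.Agent.Helper73.SB.H_pack
    (fun P _ fX h1 h2 F G h3 h4 ε q h5 h6 n h7 =>
      Pool.Agent.Helper41.SB.entropy_of_packing P fX h1 h2 F G h3 h4 ε q h5 h6 n h7)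
    (fun u hu hs s c => Pool.Agent.Helper23.SB.ub_continuous u hu hs s c)
    (fun u s c x => Pool.Agent.Helper23.SB.ub_periodic u s c x)
    (fun u Sh x y => Pool.Agent.Helper23.SB.kb_eq u Sh x y)
    (fun e he u hu hu1 hs hi ν hν hν2 B₁ hB₁ =>
      kernel_location e he u hu hu1 hs hi ν hν hν2 B₁ hB₁)
    (fun e u hu hs r hr p 𝕜 _ => Pool.Agent.Helper42.SB.mem_H_gen e u hu hs r hr p 𝕜)
    (fun I a b τ K hK hτ => Pool.Agent.Helper23.SB.clip_pair I a b τ K hK hτ)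
    (fun e u hu hu1 hs hi m₀ m₁ N hN K hK =>
      Pool.Agent.Helper23.SB.EK_le e u hu hu1 hs hi m₀ m₁ N hN K hK)
    e he r hr hr2 𝕜 p B₁ hB₁

end Pool.Agent.Helper60.SB
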