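import Pool.Agent.Helper60.SB.Core
import Pool.Agent.Helper96.SB.S
import Pool.Agent.Helper16.SB.Entropy
import Pool.Agent.Helper42.SB.H1
import Pool.Agent.Helper7.SB.Z

/-!
The lower bound for the classes of Nikol'skii type.
-/

open Finset MeasureTheory
open scoped ENNReal Real

namespace Pool.Agent.Helper60.SB

/-- counting theorem in its continuous form -/
theorem core_cont' (e : ℕ) (u : ℝ → ℝ) (hu1 : ∀ t, |u t| ≤ 1) (hodd : ∀ t, u (1 - t) = -u t)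
    (hpos : ∀ t, 1 / 2 ≤ t → 0 ≤ u t) (hpl : ∀ t, 7 / 12 ≤ t → t ≤ 2 / 3 → 1 / 3 ≤ u t)
    (hsupp : ∀ t, (t ≤ 0 ∨ 1 ≤ t) → u t = 0) (ca : ℝ) (hca : 0 < ca) :
    ∃ c > 0, ∃ m₀ : ℕ, ∀ m ≥ m₀,
      ∀ a : Box e m → ℝ, (∀ R, 0 ≤ a R) → (∀ R, a R ≤ 1) →
      ca * Fintype.card (Box e m) ≤ ∑ R, a R →
      ∀ g : (Fin (e + 2) → ℝ) → ℝ,
        ((univ.filter fun α : Box e m → Bool =>
            ∀ x : Fin (e + 2) → Fin (2 ^ ((e + 2) * m + 5)),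
              |∑ R, a R * sg (α R) * bx u R (fun j => pt ((e + 2) * m + 5) (x j)) -
                g (fun j => pt ((e + 2) * m + 5) (x j))| ≤
              c * (m : ℝ) ^ (((e : ℝ) + 2) / 2)).card : ℝ) ≤
          Real.exp (-c * Fintype.card (Box e m)) * 2 ^ Fintype.card (Box e m) :=
  Pool.Agent.Helper96.SB.core_cont (fun e cv ca h1 h2 => core e cv ca h1 h2) e u hu1 hodd hpos hpl
    hsupp ca hca

theorem lower_H (d : ℕ) (hd : 2 ≤ d) (𝕜 : Type) [RCLike 𝕜] (p : ℝ≥0∞)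
    (r : ℝ) (hr : 0 < r) :
    ∃ c > 0, ∃ n₀ : ℕ, ∀ n ≥ n₀,
      ENNReal.ofReal (c * (n : ℝ) ^ (-r) * Real.log n ^ (((d : ℝ) - 1) * r + (d : ℝ) / 2)) ≤
        entropyNumber n (Hclass d 𝕜 r p) :=
  Pool.Agent.Helper7.SB.lower_H_of Pool.Agent.Helper96.SB.exists_block
    Pool.Agent.Helper96.SB.card_box
    (fun e u hu hu1 hodd hpos hpl hsupp 𝕜 _ => Pool.Agent.Helper16.SB.entropy_ge e u hu
      (fun ca hca => core_cont' e u hu1 hodd hpos hpl hsupp ca hca) 𝕜)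
    (fun e u hu hsupp r hr p 𝕜 _ => Pool.Agent.Helper42.SB.mem_H e u hu hsupp r hr p 𝕜)
    d hd 𝕜 p r hr

end Pool.Agent.Helper60.SB
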