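import Pool.Agent.Helper60.SB.LowerH
import Pool.Agent.Helper3.SB.F3
import Pool.Agent.Helper25.SB.F1

/-!
The lower bound for the classes of Sobolev type.
-/

open Finset MeasureTheory
open scoped ENNReal Real

namespace Pool.Agent.Helper60.SB

theorem lower_W (d : ℕ) (hd : 2 ≤ d) (𝕜 : Type) [RCLike 𝕜] (p : ℝ≥0∞) (hp : p ≠ ⊤)
    (r : ℝ) (hr : 0 < r) :
    ∃ c > 0, ∃ n₀ : ℕ, ∀ n ≥ n₀,
      ENNReal.ofReal (c * (n : ℝ) ^ (-r) * Real.log n ^ (((d : ℝ) - 1) * r + 1 / 2)) ≤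
        entropyNumber n (Wclass d 𝕜 r p) :=
  Pool.Agent.Helper7.SB.lower_W_of Pool.Agent.Helper96.SB.exists_block
    Pool.Agent.Helper96.SB.card_box
    (fun e u hu hu1 hodd hpos hpl hsupp 𝕜 _ => Pool.Agent.Helper16.SB.entropy_ge e u hu
      (fun ca hca => core_cont' e u hu1 hodd hpos hpl hsupp ca hca) 𝕜)
    (fun e u hu hsupp hint r hr p hp 𝕜 _ => Pool.Agent.Helper3.SB.half_in_W
      (fun u hu hsupp hint r a hr => Pool.Agent.Helper25.SB.exists_uni u hu hsupp hint r a hr)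
      e u hu hsupp hint r hr p hp 𝕜)
    d hd 𝕜 p hp r hr

end Pool.Agent.Helper60.SB
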