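import Pool.Agent.Helper60.SB.Inner
import Pool.Agent.Helper80.SB.Signs

/-!
The second moment of the coefficients of the Riesz product.
-/

open Finset

namespace Pool.Agent.Helper60.SB

open Pool.Agent.Helper80.SB

variable {e m T : ℕ}

/-- the box of depth `i` and shape `t` containing `x` -/
def idB (T : ℕ) (i : Fin m) (t : Fin e → Fin m) (x : Fin (e + 2) → Fin (2 ^ T)) : Box e m :=
  ⟨Fin.cons i t, fun j => ⟨pre T (shp e m (Fin.cons i t) j) (x j) % 2 ^ shp e m (Fin.cons i t) j,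
    Nat.mod_lt _ (by positivity)⟩⟩

/-- depth and remaining shape of a box -/
def blkB (R : Box e m) : Fin m × (Fin e → Fin m) := (R.1 0, Fin.tail R.1)

/-- sign in the first coordinate -/
noncomputable def e0B (T : ℕ) (i : Fin m) (x : Fin (e + 2) → Fin (2 ^ T)) : ℝ := hs T i (x 0)

/-- sign in the other coordinates -/
noncomputable def e1B (T : ℕ) (i : Fin m) (t : Fin e → Fin m) (x : Fin (e + 2) → Fin (2 ^ T)) : ℝ :=
  ∏ j : Fin (e + 1), hs T (shp e m (Fin.cons i t) j.succ) (x j.succ)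

lemma blkB_idB (i : Fin m) (t : Fin e → Fin m) (x : Fin (e + 2) → Fin (2 ^ T)) :
    blkB (idB T i t x) = (i, t) := by
  simp [blkB, idB]

lemma e0B_or (i : Fin m) (x : Fin (e + 2) → Fin (2 ^ T)) : e0B T i x = 1 ∨ e0B T i x = -1 :=
  hs_or _ _ _

lemma prod_or {ι : Type*} (s : Finset ι) (f : ι → ℝ) (h : ∀ i ∈ s, f i = 1 ∨ f i = -1) :
    ∏ i ∈ s, f i = 1 ∨ ∏ i ∈ s, f i = -1 := by
  classical
  induction s using Finset.induction_on with
  | empty => left; simp
  | insert a s ha ih =>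
    rw [Finset.prod_insert ha]
    rcases h a (mem_insert_self _ _) with h1 | h1 <;>
      rcases ih (fun i hi => h i (mem_insert_of_mem hi)) with h2 | h2 <;> rw [h1, h2] <;> norm_num

lemma e1B_or (i : Fin m) (t : Fin e → Fin m) (x : Fin (e + 2) → Fin (2 ^ T)) :
    e1B T i t x = 1 ∨ e1B T i t x = -1 :=
  prod_or _ _ fun _ _ => hs_or _ _ _

lemma idB_eq_iff (hT : (e + 2) * m ≤ T) (i : Fin m) (t : Fin e → Fin m)
    (x y : Fin (e + 2) → Fin (2 ^ T)) :
    idB T i t x = idB T i t y ↔ pre T i (x 0) = pre T i (y 0) ∧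
      ∀ j : Fin (e + 1), pre T (shp e m (Fin.cons i t) j.succ) (x j.succ) =
        pre T (shp e m (Fin.cons i t) j.succ) (y j.succ) := by
  have h1 : ∀ (z : Fin (e + 2) → Fin (2 ^ T)) (j : Fin (e + 2)),
      pre T (shp e m (Fin.cons i t) j) (z j) % 2 ^ shp e m (Fin.cons i t) j =
      pre T (shp e m (Fin.cons i t) j) (z j) := fun z j =>
    Nat.mod_eq_of_lt (pre_lt ((shp_le _ _).trans hT) _)
  simp only [idB, Sigma.mk.injEq, heq_eq_eq, true_and, funext_iff, Fin.mk.injEq, h1]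
  rw [Fin.forall_fin_succ, shp_zero, Fin.cons_zero]

lemma idB_blkB_iff (hT : (e + 2) * m ≤ T) (R : Box e m) (x : Fin (e + 2) → Fin (2 ^ T)) :
    idB T (blkB R).1 (blkB R).2 x = R ↔ ∀ j, pre T (shp e m R.1 j) (x j) = R.2 j := by
  obtain ⟨τ, c⟩ := R
  obtain ⟨i, t, rfl⟩ : ∃ (i : Fin m) (t : Fin e → Fin m), τ = Fin.cons i t :=
    ⟨τ 0, Fin.tail τ, (Fin.cons_self_tail τ).symm⟩
  have h1 : ∀ (z : Fin (e + 2) → Fin (2 ^ T)) (j : Fin (e + 2)),
      pre T (shp e m (Fin.cons i t) j) (z j) % 2 ^ shp e m (Fin.cons i t) j =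
      pre T (shp e m (Fin.cons i t) j) (z j) := fun z j =>
    Nat.mod_eq_of_lt (pre_lt ((shp_le _ _).trans hT) _)
  have h2 : (blkB (⟨Fin.cons i t, c⟩ : Box e m)) = (i, t) := by simp [blkB]
  rw [h2]
  simp only [idB, Sigma.mk.injEq, heq_eq_eq, true_and, funext_iff, Fin.ext_iff, h1]

/-- sum over the points of the cube -/
lemma sum_cons {X : Type*} [Fintype X] {n : ℕ} (F : (Fin (n + 1) → X) → ℝ) :
    ∑ x, F x = ∑ a, ∑ x' : Fin n → X, F (Fin.cons a x') := by
  rw [← (Fin.consEquiv (fun _ => X)).sum_comp F, Fintype.sum_prod_type]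
  rfl

/-- the covariance coefficient in terms of the last coordinates -/
noncomputable def cB (T : ℕ) (u : ℝ) (i : Fin m) (x' y' : Fin (e + 1) → Fin (2 ^ T)) : ℝ :=
  Cf (idB (e := e) T) (e1B T) u i (Fin.cons ⟨0, by positivity⟩ x') (Fin.cons ⟨0, by positivity⟩ y')

lemma e1B_cons (i : Fin m) (t : Fin e → Fin m) (a b : Fin (2 ^ T))
    (x' : Fin (e + 1) → Fin (2 ^ T)) :
    e1B T i t (Fin.cons a x') = e1B T i t (Fin.cons b x') := by
  simp only [e1B, Fin.cons_succ]

lemma Cf_cons (hT : (e + 2) * m ≤ T) (u : ℝ) (i : Fin m) (a b : Fin (2 ^ T))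
    (x' y' : Fin (e + 1) → Fin (2 ^ T)) :
    Cf (idB (e := e) T) (e1B T) u i (Fin.cons a x') (Fin.cons b y') =
      if pre T i a = pre T i b then cB T u i x' y' else 0 := by
  have h1 := Cf_eq (idB (e := e) (m := m) T) (e1B T) u blkB blkB_idB e1B_or i
  by_cases hab : pre T i a = pre T i b
  · rw [if_pos hab, cB, h1, h1]
    have h2 : ∀ t : Fin e → Fin m, (idB T i t (Fin.cons a x') = idB T i t (Fin.cons b y')) ↔
        (idB T i t (Fin.cons (⟨0, by positivity⟩ : Fin (2 ^ T)) x') =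
          idB T i t (Fin.cons (⟨0, by positivity⟩ : Fin (2 ^ T)) y')) := by
      intro t
      rw [idB_eq_iff hT, idB_eq_iff hT]
      simp only [Fin.cons_zero, Fin.cons_succ, hab, true_and]
    simp only [h2, e1B_cons i _ a (⟨0, by positivity⟩ : Fin (2 ^ T)),
      e1B_cons i _ b (⟨0, by positivity⟩ : Fin (2 ^ T))]
  · rw [if_neg hab, h1]
    have h2 : ∀ t : Fin e → Fin m, ¬ (idB T i t (Fin.cons a x') = idB T i t (Fin.cons b y')) := by
      intro t h
      rw [idB_eq_iff hT] at h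
      simp only [Fin.cons_zero] at h
      exact hab h.1
    simp only [h2, if_false, sub_self, zero_div]

lemma abs_cB_le (hT : (e + 2) * m ≤ T) {u : ℝ} (hu : 0 < u) (i : Fin m)
    (x' y' : Fin (e + 1) → Fin (2 ^ T)) :
    |cB T u i x' y'| ≤ (Jc e m (fun j => lcp T (x' j) (y' j)) i : ℝ) / u ^ 2 := by
  refine (abs_Cf_le (idB (e := e) (m := m) T) (e1B T) u blkB blkB_idB e1B_or hu i _ _).trans
    (le_of_eq ?_)
  congr 2
  rw [Jc]
  congr 1
  ext t
  simp only [mem_filter, mem_univ, true_and]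
  rw [idB_eq_iff hT]
  simp only [Fin.cons_zero, Fin.cons_succ, true_and]
  refine forall_congr' fun j => ?_
  exact (le_lcp_iff ((shp_le _ _).trans hT) _ _).symm

/-- product bound for the weights -/
lemma prod_c_le (hT : (e + 2) * m ≤ T) {u : ℝ} (hu : 0 < u) (hu2 : (m : ℝ) ^ e ≤ u ^ 2)
    (i : Fin m) (x' y' : Fin (e + 1) → Fin (2 ^ T))
    (hK : (e + 2) * m ≤ ∑ j, lcp T (x' j) (y' j) + i) :
    |cB T u i x' y'| * ∏ l ∈ univ.filter (fun l : Fin m => l < i), (1 + 1 / 4 * |cB T u l x' y'|) ≤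
      1 / u ^ 2 * (10 ^ e * (25 / 18) ^ (∑ j, lcp T (x' j) (y' j) + i - (e + 2) * m)) := by
  set k : Fin (e + 1) → ℕ := fun j => lcp T (x' j) (y' j) with hk
  have h1 : ∏ l ∈ univ.filter (fun l : Fin m => l < i), (1 + 1 / 4 * |cB T u l x' y'|) ≤
      (5 / 4 : ℝ) ^ (univ.filter fun l : Fin m => l < i ∧ 1 ≤ Jc e m k l).card := by
    have h2 : (univ.filter fun l : Fin m => l < i ∧ 1 ≤ Jc e m k l) =
        (univ.filter fun l : Fin m => l < i).filter fun l => 1 ≤ Jc e m k l := by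
      rw [Finset.filter_filter]
    rw [h2, ← Finset.prod_const, Finset.prod_filter _ (s := univ.filter fun l : Fin m => l < i)]
    refine Finset.prod_le_prod (fun l _ => by positivity) fun l _ => ?_
    have h3 := abs_cB_le hT hu l x' y'
    rw [← hk] at h3
    split_ifs with h4
    · have h5 : (Jc e m k l : ℝ) / u ^ 2 ≤ 1 := by
        rw [div_le_one (by positivity)]
        exact (Jc_le_card k l).trans hu2
      linarith
    · have h5 : Jc e m k l = 0 := by omega
      rw [h5] at h3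
      simp only [Nat.cast_zero, zero_div] at h3
      have := abs_nonneg (cB T u l x' y')
      linarith
  have h3 := abs_cB_le hT hu i x' y'
  rw [← hk] at h3
  calc _ ≤ (Jc e m k i : ℝ) / u ^ 2 *
        (5 / 4 : ℝ) ^ (univ.filter fun l : Fin m => l < i ∧ 1 ≤ Jc e m k l).card :=
        mul_le_mul h3 h1 (Finset.prod_nonneg fun l _ => by positivity) (by positivity)
    _ = 1 / u ^ 2 * ((Jc e m k i : ℝ) *
        (5 / 4 : ℝ) ^ (univ.filter fun l : Fin m => l < i ∧ 1 ≤ Jc e m k l).card) := by ring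
    _ ≤ _ := mul_le_mul_of_nonneg_left (J_bound k i hK) (by positivity)

end Pool.Agent.Helper60.SB
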