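import Pool.Agent.Helper60.SB.Moment

/-!
The second moment bound.
-/

open Finset

namespace Pool.Agent.Helper60.SB

open Pool.Agent.Helper80.SB

variable {e m T : ℕ}

lemma av_sum_sum {ι P : Type*} [Fintype ι] [DecidableEq ι] [Fintype P]
    (f : (ι → Bool) → P → ℝ) (w : P → ℝ) :
    av (fun β => (∑ x, f β x * w x) ^ 2) =
      ∑ x, ∑ y, w x * w y * av (fun β => f β x * f β y) := by
  unfold av
  have h1 : ∀ β, (∑ x, f β x * w x) ^ 2 = ∑ x, ∑ y, w x * w y * (f β x * f β y) := by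
    intro β
    rw [sq, Finset.sum_mul_sum]
    refine Finset.sum_congr rfl fun x _ => Finset.sum_congr rfl fun y _ => ?_
    ring
  simp_rw [h1]
  rw [Finset.sum_comm, Finset.sum_div]
  refine Finset.sum_congr rfl fun x _ => ?_
  rw [Finset.sum_comm, Finset.sum_div]
  refine Finset.sum_congr rfl fun y _ => ?_
  rw [← Finset.mul_sum, mul_div_assoc]

lemma av_div_div {ι : Type*} [Fintype ι] [DecidableEq ι] (f g : (ι → Bool) → ℝ) (M : ℝ) :
    av (fun β => f β / M * (g β / M)) = av (fun β => f β * g β) / M ^ 2 := by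
  unfold av
  have h1 : ∑ β, f β / M * (g β / M) = (∑ β, f β * g β) / M ^ 2 := by
    rw [Finset.sum_div]
    refine Finset.sum_congr rfl fun β _ => ?_
    rw [sq, div_mul_div_comm]
  rw [h1, div_right_comm]

/-- the building block in the first coordinate -/
noncomputable def w0 (T : ℕ) (v : ℕ → Fin (2 ^ T) → ℝ) (R : Box e m) (a : Fin (2 ^ T)) : ℝ :=
  if pre T (shp e m R.1 0) a = R.2 0 then v (shp e m R.1 0) a else 0

/-- the building block in the other coordinates -/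
noncomputable def w1 (T : ℕ) (v : ℕ → Fin (2 ^ T) → ℝ) (R : Box e m)
    (x' : Fin (e + 1) → Fin (2 ^ T)) : ℝ :=
  ∏ j : Fin (e + 1), if pre T (shp e m R.1 j.succ) (x' j) = R.2 j.succ then
    v (shp e m R.1 j.succ) (x' j) else 0

lemma wt_cons (v : ℕ → Fin (2 ^ T) → ℝ) (R : Box e m) (a : Fin (2 ^ T))
    (x' : Fin (e + 1) → Fin (2 ^ T)) :
    wt v R (Fin.cons a x') = w0 T v R a * w1 T v R x' := by
  unfold wt w0 w1
  rw [Fin.prod_univ_succ]
  simp only [Fin.cons_zero, Fin.cons_succ]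

/-- the weight of a pair in the cell of depth `s` -/
noncomputable def FF (T s c : ℕ) (p q : Fin (2 ^ T)) : ℝ :=
  if pre T s p = c ∧ pre T s q = c then (25 / 18 : ℝ) ^ (lcp T p q - s) else 0

lemma sum_FF {s c : ℕ} (hsT : s ≤ T) (hc : c < 2 ^ s) :
    ∑ p, ∑ q, FF T s c p q ≤ 4 * 4 ^ (T - s) := by
  have h1 := sum_pow_lcp hsT hc (25 / 18 : ℝ) (by norm_num) (by norm_num)
  rw [← Fintype.sum_prod_type' (f := FF T s c)]
  have h2 : ∑ q : Fin (2 ^ T) × Fin (2 ^ T), FF T s c q.1 q.2 =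
      ∑ q ∈ univ.filter (fun q : Fin (2 ^ T) × Fin (2 ^ T) => pre T s q.1 = c ∧ pre T s q.2 = c),
        (25 / 18 : ℝ) ^ lcp T q.1 q.2 / (25 / 18 : ℝ) ^ s := by
    rw [Finset.sum_filter]
    refine Finset.sum_congr rfl fun q _ => ?_
    unfold FF
    split_ifs with h
    · have h3 : s ≤ lcp T q.1 q.2 := by rw [le_lcp_iff hsT, h.1, h.2]
      rw [eq_div_iff (by positivity), ← pow_add]
      congr 1; omega
    · rfl
  rw [h2, ← Finset.sum_div, div_le_iff₀ (by positivity)]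
  calc _ ≤ _ := h1
    _ = _ := by ring

lemma w1_abs_le (v : ℕ → Fin (2 ^ T) → ℝ) (hv1 : ∀ s x, |v s x| ≤ 1) (R : Box e m)
    (x' : Fin (e + 1) → Fin (2 ^ T)) : |w1 T v R x'| ≤ 1 := by
  unfold w1
  rw [Finset.abs_prod]
  refine Finset.prod_le_one (fun _ _ => abs_nonneg _) fun j _ => ?_
  split_ifs
  · exact hv1 _ _
  · simp

lemma w1_zero (v : ℕ → Fin (2 ^ T) → ℝ) (R : Box e m)
    (x' : Fin (e + 1) → Fin (2 ^ T))
    (h : ¬ ∀ j : Fin (e + 1), pre T (shp e m R.1 j.succ) (x' j) = R.2 j.succ) :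
    w1 T v R x' = 0 := by
  rw [not_forall] at h
  obtain ⟨j, hj⟩ := h
  unfold w1
  refine Finset.prod_eq_zero (mem_univ j) ?_
  rw [if_neg hj]

lemma geo_tail (hmT : m ≤ T) (s : Fin m) :
    ∑ i ∈ univ.filter (fun i : Fin m => s ≤ i),
      (25 / 18 : ℝ) ^ ((i : ℕ) - s) * (2 ^ (T - (s : ℕ)) * 2 ^ (T - (i : ℕ))) ≤
      4 * 4 ^ (T - (s : ℕ)) := by
  have h1 : ∀ i ∈ univ.filter (fun i : Fin m => s ≤ i),
      (25 / 18 : ℝ) ^ ((i : ℕ) - s) * (2 ^ (T - (s : ℕ)) * 2 ^ (T - (i : ℕ))) =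
      4 ^ (T - (s : ℕ)) * (25 / 36 : ℝ) ^ ((i : ℕ) - s) := by
    intro i hi
    rw [mem_filter] at hi
    have h2 : (s : ℕ) ≤ i := hi.2
    have h3 : (i : ℕ) < m := i.2
    have h4 : (2 : ℝ) ^ (T - (s : ℕ)) = 2 ^ (T - (i : ℕ)) * 2 ^ ((i : ℕ) - s) := by
      rw [← pow_add]; congr 1; omega
    have h5 : (4 : ℝ) ^ (T - (s : ℕ)) = 2 ^ (T - (s : ℕ)) * 2 ^ (T - (s : ℕ)) := by
      rw [← mul_pow]; norm_num
    have h6 : (25 / 36 : ℝ) ^ ((i : ℕ) - s) * 2 ^ ((i : ℕ) - s) = (25 / 18 : ℝ) ^ ((i : ℕ) - s) := by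
      rw [← mul_pow]; norm_num
    rw [h5]
    calc (25 / 18 : ℝ) ^ ((i : ℕ) - s) * (2 ^ (T - (s : ℕ)) * 2 ^ (T - (i : ℕ)))
        = ((25 / 36 : ℝ) ^ ((i : ℕ) - s) * 2 ^ ((i : ℕ) - s)) *
          (2 ^ (T - (s : ℕ)) * 2 ^ (T - (i : ℕ))) := by rw [h6]
      _ = 2 ^ (T - (s : ℕ)) * (2 ^ (T - (i : ℕ)) * 2 ^ ((i : ℕ) - s)) *
          (25 / 36 : ℝ) ^ ((i : ℕ) - s) := by ring
      _ = _ := by rw [← h4]
  rw [Finset.sum_congr rfl h1, ← Finset.mul_sum]
  have h2 : ∑ i ∈ univ.filter (fun i : Fin m => s ≤ i), (25 / 36 : ℝ) ^ ((i : ℕ) - s) ≤ 4 := by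
    have h3 : ∑ i ∈ univ.filter (fun i : Fin m => s ≤ i), (25 / 36 : ℝ) ^ ((i : ℕ) - s) =
        ∑ i ∈ Finset.Ico (s : ℕ) m, (25 / 36 : ℝ) ^ (i - s) := by
      have h4 : Finset.Ico (s : ℕ) m =
          (univ.filter (fun i : Fin m => s ≤ i)).map Fin.valEmbedding := by
        ext i
        simp only [mem_map, mem_filter, mem_univ, true_and, Fin.valEmbedding_apply, mem_Ico]
        constructor
        · rintro ⟨h4, h5⟩
          exact ⟨⟨i, h5⟩, h4, rfl⟩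
        · rintro ⟨i, h, rfl⟩
          exact ⟨h, i.2⟩
      rw [h4, Finset.sum_map]
      rfl
    rw [h3, Finset.sum_Ico_eq_sum_range]
    have h4 : ∑ k ∈ range (m - s), (25 / 36 : ℝ) ^ ((s : ℕ) + k - s) =
        ∑ k ∈ range (m - s), (25 / 36 : ℝ) ^ k := by
      refine Finset.sum_congr rfl fun k _ => ?_
      congr 1; omega
    rw [h4, geom_sum_eq (by norm_num)]
    have : (0 : ℝ) ≤ (25 / 36) ^ (m - s) := by positivity
    rw [div_le_iff_of_neg (by norm_num)]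
    linarith
  calc _ ≤ 4 ^ (T - (s : ℕ)) * 4 := mul_le_mul_of_nonneg_left h2 (by positivity)
    _ = _ := by ring

/-- bound of the inner sum -/
lemma inner_total (hmT : (e + 2) * m ≤ T) (v : ℕ → Fin (2 ^ T) → ℝ) (hv1 : ∀ s x, |v s x| ≤ 1)
    (hv0 : ∀ s ≤ (e + 2) * m, ∀ c' < 2 ^ s,
        ∑ x ∈ univ.filter (fun x => pre T s x = c'), v s x = 0)
    {u : ℝ} (hu : 0 < u) (hu2 : (m : ℝ) ^ e ≤ u ^ 2) (R : Box e m)
    (x' y' : Fin (e + 1) → Fin (2 ^ T))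
    (hx : ∀ j : Fin (e + 1), pre T (shp e m R.1 j.succ) (x' j) = R.2 j.succ)
    (hy : ∀ j : Fin (e + 1), pre T (shp e m R.1 j.succ) (y' j) = R.2 j.succ) :
    |∑ a, ∑ b, w0 T v R a * w0 T v R b *
      ∏ i : Fin m, (1 + zz T (fun l => if h : l < m then cB T u ⟨l, h⟩ x' y' else 0) i a b)| ≤
      1 / u ^ 2 * 10 ^ e * 4 ^ (T - shp e m R.1 0) *
        ∏ j : Fin (e + 1), FF T (shp e m R.1 j.succ) (R.2 j.succ) (x' j) (y' j) := by
  have hmT' : m ≤ T := by nlinarith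
  obtain ⟨s, hs⟩ : ∃ s : Fin m, s = R.1 0 := ⟨_, rfl⟩
  have hs0 : shp e m R.1 0 = s := by rw [shp_zero, hs]
  obtain ⟨c0, hc0'⟩ : ∃ c0 : ℕ, c0 = (R.2 0 : ℕ) := ⟨_, rfl⟩
  have hc0 : c0 < 2 ^ (s : ℕ) := by
    have := (R.2 0).2
    rw [hc0', ← hs0]; exact this
  have hsn : (s : ℕ) ≤ (e + 2) * m := by rw [← hs0]; exact shp_le _ _
  have hw0e : ∀ a, w0 T v R a = if pre T s a = c0 then v s a else 0 := by
    intro a
    unfold w0
    simp only [hs0, hc0']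
  have h1 := inner_bound hmT' (fun l => if h : l < m then cB T u ⟨l, h⟩ x' y' else 0)
    (w0 T v R) s hc0 (fun a ha => by rw [hw0e, if_neg ha])
    (fun a => by rw [hw0e]; split_ifs; exacts [hv1 _ _, by simp])
    (by
      simp only [hw0e]
      rw [← Finset.sum_filter]
      exact hv0 _ hsn _ hc0)
  refine h1.trans ?_
  -- simplify the coefficients
  have h2 : ∀ i ∈ univ.filter (fun i : Fin m => s ≤ i),
      1 / 4 * |(fun l : ℕ => if h : l < m then cB T u ⟨l, h⟩ x' y' else 0) i| *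
        (∏ l ∈ univ.filter (fun l : Fin m => l < i),
          (1 + 1 / 4 * |(fun l : ℕ => if h : l < m then cB T u ⟨l, h⟩ x' y' else 0) l|)) *
          (2 ^ (T - (s : ℕ)) * 2 ^ (T - (i : ℕ))) ≤
      (1 / 4 * (1 / u ^ 2) * 10 ^ e * ∏ j : Fin (e + 1), (25 / 18 : ℝ) ^
        (lcp T (x' j) (y' j) - shp e m R.1 j.succ)) *
        ((25 / 18 : ℝ) ^ ((i : ℕ) - s) * (2 ^ (T - (s : ℕ)) * 2 ^ (T - (i : ℕ)))) := by
    intro i hi
    rw [mem_filter] at hi
    have hsi : (s : ℕ) ≤ i := hi.2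
    have h3 : ∀ l : Fin m, (fun l : ℕ => if h : l < m then cB T u ⟨l, h⟩ x' y' else 0) l =
        cB T u l x' y' := by
      intro l
      simp [l.2]
    simp only [h3]
    have h4 : ∀ j : Fin (e + 1), shp e m R.1 j.succ ≤ lcp T (x' j) (y' j) := by
      intro j
      rw [le_lcp_iff ((shp_le _ _).trans hmT), hx j, hy j]
    have h5 := sum_shp_succ R.1
    rw [← hs] at h5
    have h6 : ∑ j : Fin (e + 1), shp e m R.1 j.succ ≤ ∑ j, lcp T (x' j) (y' j) :=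
      Finset.sum_le_sum fun j _ => h4 j
    have hK : (e + 2) * m ≤ ∑ j, lcp T (x' j) (y' j) + i := by omega
    have h7 := prod_c_le hmT hu hu2 i x' y' hK
    have h8 : ∑ j, lcp T (x' j) (y' j) + i - (e + 2) * m =
        ∑ j, (lcp T (x' j) (y' j) - shp e m R.1 j.succ) + ((i : ℕ) - s) := by
      have h9 : ∑ j, (lcp T (x' j) (y' j) - shp e m R.1 j.succ) +
          ∑ j : Fin (e + 1), shp e m R.1 j.succ = ∑ j, lcp T (x' j) (y' j) := by
        rw [← Finset.sum_add_distrib]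
        exact Finset.sum_congr rfl fun j _ => Nat.sub_add_cancel (h4 j)
      omega
    rw [h8, pow_add, ← Finset.prod_pow_eq_pow_sum] at h7
    have h10 : (0 : ℝ) ≤ 2 ^ (T - (s : ℕ)) * 2 ^ (T - (i : ℕ)) := by positivity
    calc _ = 1 / 4 * (|cB T u i x' y'| *
          ∏ l ∈ univ.filter (fun l : Fin m => l < i), (1 + 1 / 4 * |cB T u l x' y'|)) *
          (2 ^ (T - (s : ℕ)) * 2 ^ (T - (i : ℕ))) := by ring
      _ ≤ 1 / 4 * (1 / u ^ 2 * (10 ^ e * ((∏ j : Fin (e + 1), (25 / 18 : ℝ) ^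
        (lcp T (x' j) (y' j) - shp e m R.1 j.succ)) * (25 / 18 : ℝ) ^ ((i : ℕ) - s)))) *
          (2 ^ (T - (s : ℕ)) * 2 ^ (T - (i : ℕ))) := by
        refine mul_le_mul_of_nonneg_right ?_ h10
        exact mul_le_mul_of_nonneg_left h7 (by norm_num)
      _ = _ := by ring
  refine (Finset.sum_le_sum h2).trans ?_
  rw [← Finset.mul_sum]
  have h3 := geo_tail hmT' s
  have h4 : ∏ j : Fin (e + 1), FF T (shp e m R.1 j.succ) (R.2 j.succ) (x' j) (y' j) =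
      ∏ j : Fin (e + 1), (25 / 18 : ℝ) ^ (lcp T (x' j) (y' j) - shp e m R.1 j.succ) := by
    refine Finset.prod_congr rfl fun j _ => ?_
    unfold FF
    rw [if_pos ⟨hx j, hy j⟩]
  rw [h4, hs0]
  calc _ ≤ (1 / 4 * (1 / u ^ 2) * 10 ^ e * ∏ j : Fin (e + 1), (25 / 18 : ℝ) ^
        (lcp T (x' j) (y' j) - shp e m R.1 j.succ)) * (4 * 4 ^ (T - (s : ℕ))) :=
        mul_le_mul_of_nonneg_left h3 (by positivity)
    _ = _ := by ring

/-- the second moment bound -/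
theorem moment2 (hT : (e + 2) * m ≤ T) (v : ℕ → Fin (2 ^ T) → ℝ) (hv1 : ∀ s x, |v s x| ≤ 1)
    (hv0 : ∀ s ≤ (e + 2) * m, ∀ c' < 2 ^ s,
        ∑ x ∈ univ.filter (fun x => pre T s x = c'), v s x = 0)
    {u : ℝ} (hu : 0 < u) (hu2 : (m : ℝ) ^ e ≤ u ^ 2) (R : Box e m) :
    av (fun β : Box e m → Bool => (∑ x, rz (idB T) (e0B T) (e1B T) u β x /
      ((2 : ℝ) ^ T) ^ (e + 2) * wt v R x) ^ 2) ≤
      10 ^ e * 4 ^ (e + 1) / (u ^ 2 * 4 ^ ((e + 2) * m)) := by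
  set M : ℝ := ((2 : ℝ) ^ T) ^ (e + 2) with hM
  have hMpos : 0 < M := by positivity
  rw [av_sum_sum]
  -- the average of the product
  have h1 : ∀ x y : Fin (e + 2) → Fin (2 ^ T),
      av (fun β : Box e m → Bool => rz (idB T) (e0B T) (e1B T) u β x / M *
        (rz (idB T) (e0B T) (e1B T) u β y / M)) =
      (∏ i : Fin m, (1 + (1 / 4) * (e0B T i x * e0B T i y *
        Cf (idB (e := e) T) (e1B T) u i x y))) / M ^ 2 := by
    intro x y
    rw [← av_rz_mul (idB (e := e) (m := m) T) (e0B T) (e1B T) u blkB blkB_idB x y]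
    exact av_div_div _ _ M
  simp_rw [h1]
  have hsc : ∀ G : (Fin (e + 2) → Fin (2 ^ T)) → (Fin (e + 2) → Fin (2 ^ T)) → ℝ,
      ∑ x : Fin (e + 2) → Fin (2 ^ T), ∑ y : Fin (e + 2) → Fin (2 ^ T), G x y =
        ∑ a : Fin (2 ^ T), ∑ x' : Fin (e + 1) → Fin (2 ^ T), ∑ b : Fin (2 ^ T),
        ∑ y' : Fin (e + 1) → Fin (2 ^ T), G (Fin.cons a x') (Fin.cons b y') := by
    intro G
    rw [sum_cons (fun x => ∑ y, G x y)]
    refine Finset.sum_congr rfl fun a _ => Finset.sum_congr rfl fun x' _ => ?_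
    rw [sum_cons (fun y => G (Fin.cons a x') y)]
  rw [hsc]
  -- rewrite the summand
  have h2 : ∀ (a b : Fin (2 ^ T)) (x' y' : Fin (e + 1) → Fin (2 ^ T)),
      wt v R (Fin.cons a x') * wt v R (Fin.cons b y') *
        ((∏ i : Fin m, (1 + (1 / 4) * (e0B T i (Fin.cons a x' : Fin (e + 2) → Fin (2 ^ T)) *
          e0B T i (Fin.cons b y' : Fin (e + 2) → Fin (2 ^ T)) *
        Cf (idB (e := e) T) (e1B T) u i (Fin.cons a x') (Fin.cons b y')))) / M ^ 2) =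
      (w1 T v R x' * w1 T v R y' / M ^ 2) * (w0 T v R a * w0 T v R b *
      ∏ i : Fin m, (1 + zz T (fun l => if h : l < m then cB T u ⟨l, h⟩ x' y' else 0) i a b)) := by
    intro a b x' y'
    have h3 : ∏ i : Fin m, (1 + (1 / 4) * (e0B T i (Fin.cons a x' : Fin (e + 2) → Fin (2 ^ T)) *
          e0B T i (Fin.cons b y' : Fin (e + 2) → Fin (2 ^ T)) *
        Cf (idB (e := e) T) (e1B T) u i (Fin.cons a x') (Fin.cons b y'))) =
        ∏ i : Fin m, (1 + zz T (fun l => if h : l < m then cB T u ⟨l, h⟩ x' y' else 0) i a b) := by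
      refine Finset.prod_congr rfl fun i _ => ?_
      rw [Cf_cons hT]
      unfold zz e0B
      simp only [Fin.cons_zero, Fin.is_lt, dite_true]
    rw [h3, wt_cons, wt_cons]
    ring
  simp_rw [h2]
  -- reorder
  have h3 : ∑ a : Fin (2 ^ T), ∑ x' : Fin (e + 1) → Fin (2 ^ T), ∑ b : Fin (2 ^ T),
      ∑ y' : Fin (e + 1) → Fin (2 ^ T), (w1 T v R x' * w1 T v R y' / M ^ 2) *
        (w0 T v R a * w0 T v R b * ∏ i : Fin m,
          (1 + zz T (fun l => if h : l < m then cB T u ⟨l, h⟩ x' y' else 0) i a b)) =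
      ∑ x' : Fin (e + 1) → Fin (2 ^ T), ∑ y' : Fin (e + 1) → Fin (2 ^ T),
      (w1 T v R x' * w1 T v R y' / M ^ 2) * ∑ a : Fin (2 ^ T), ∑ b : Fin (2 ^ T),
        (w0 T v R a * w0 T v R b * ∏ i : Fin m,
          (1 + zz T (fun l => if h : l < m then cB T u ⟨l, h⟩ x' y' else 0) i a b)) := by
    rw [Finset.sum_comm]
    refine Finset.sum_congr rfl fun x' _ => ?_
    rw [Finset.sum_congr rfl (fun a _ => Finset.sum_comm), Finset.sum_comm]
    refine Finset.sum_congr rfl fun y' _ => ?_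
    rw [Finset.mul_sum]
    refine Finset.sum_congr rfl fun a _ => ?_
    rw [Finset.mul_sum]
  rw [h3]
  -- pointwise bound
  have h4 : ∀ x' y' : Fin (e + 1) → Fin (2 ^ T),
      (w1 T v R x' * w1 T v R y' / M ^ 2) * ∑ a : Fin (2 ^ T), ∑ b : Fin (2 ^ T),
        (w0 T v R a * w0 T v R b * ∏ i : Fin m,
          (1 + zz T (fun l => if h : l < m then cB T u ⟨l, h⟩ x' y' else 0) i a b)) ≤
      1 / u ^ 2 * 10 ^ e * 4 ^ (T - shp e m R.1 0) / M ^ 2 *
        ∏ j : Fin (e + 1), FF T (shp e m R.1 j.succ) (R.2 j.succ) (x' j) (y' j) := by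
    intro x' y'
    have hFF : 0 ≤ ∏ j : Fin (e + 1), FF T (shp e m R.1 j.succ) (R.2 j.succ) (x' j) (y' j) :=
      Finset.prod_nonneg fun j _ => by unfold FF; split_ifs <;> positivity
    by_cases hx : ∀ j : Fin (e + 1), pre T (shp e m R.1 j.succ) (x' j) = R.2 j.succ
    · by_cases hy : ∀ j : Fin (e + 1), pre T (shp e m R.1 j.succ) (y' j) = R.2 j.succ
      · have h5 := inner_total hT v hv1 hv0 hu hu2 R x' y' hx hy
        refine (le_abs_self _).trans ?_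
        rw [abs_mul, abs_div, abs_mul, abs_of_pos (by positivity : (0:ℝ) < M ^ 2)]
        have h6 := w1_abs_le v hv1 R x'
        have h7 := w1_abs_le v hv1 R y'
        have h8 : |w1 T v R x'| * |w1 T v R y'| / M ^ 2 ≤ 1 / M ^ 2 := by
          refine div_le_div_of_nonneg_right ?_ (by positivity)
          nlinarith [abs_nonneg (w1 T v R x'), abs_nonneg (w1 T v R y')]
        calc _ ≤ 1 / M ^ 2 * (1 / u ^ 2 * 10 ^ e * 4 ^ (T - shp e m R.1 0) *
              ∏ j : Fin (e + 1), FF T (shp e m R.1 j.succ) (R.2 j.succ) (x' j) (y' j)) :=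
              mul_le_mul h8 h5 (abs_nonneg _) (by positivity)
          _ = _ := by ring
      · rw [w1_zero v R y' hy]
        simp only [mul_zero, zero_div, zero_mul]
        positivity
    · rw [w1_zero v R x' hx]
      simp only [zero_mul, zero_div]
      positivity
  refine (Finset.sum_le_sum fun x' _ => Finset.sum_le_sum fun y' _ => h4 x' y').trans ?_
  -- factor the sum of products
  have h5 : ∑ x' : Fin (e + 1) → Fin (2 ^ T), ∑ y' : Fin (e + 1) → Fin (2 ^ T),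
      (1 / u ^ 2 * 10 ^ e * 4 ^ (T - shp e m R.1 0) / M ^ 2 *
        ∏ j : Fin (e + 1), FF T (shp e m R.1 j.succ) (R.2 j.succ) (x' j) (y' j)) =
      1 / u ^ 2 * 10 ^ e * 4 ^ (T - shp e m R.1 0) / M ^ 2 *
        ∏ j : Fin (e + 1), ∑ p, ∑ q, FF T (shp e m R.1 j.succ) (R.2 j.succ) p q := by
    rw [Finset.prod_univ_sum, Fintype.piFinset_univ, Finset.mul_sum]
    refine Finset.sum_congr rfl fun x' _ => ?_
    rw [Finset.prod_univ_sum, Fintype.piFinset_univ, Finset.mul_sum]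
  rw [h5]
  have h6 : ∏ j : Fin (e + 1), ∑ p, ∑ q, FF T (shp e m R.1 j.succ) (R.2 j.succ) p q ≤
      ∏ j : Fin (e + 1), (4 * 4 ^ (T - shp e m R.1 j.succ) : ℝ) := by
    refine Finset.prod_le_prod (fun j _ => ?_) fun j _ => sum_FF ((shp_le _ _).trans hT) (R.2 j.succ).2
    exact Finset.sum_nonneg fun p _ => Finset.sum_nonneg fun q _ => by
      unfold FF; split_ifs <;> positivity
  have h7 : (4 : ℝ) ^ (T - shp e m R.1 0) * ∏ j : Fin (e + 1),
      (4 * 4 ^ (T - shp e m R.1 j.succ) : ℝ) =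
      4 ^ (e + 1) * ((4 : ℝ) ^ ((e + 2) * T) / 4 ^ ((e + 2) * m)) := by
    rw [Finset.prod_mul_distrib, Finset.prod_const, card_univ, Fintype.card_fin]
    have h8 : (4 : ℝ) ^ (T - shp e m R.1 0) * ∏ j : Fin (e + 1),
        (4 : ℝ) ^ (T - shp e m R.1 j.succ) = ∏ j : Fin (e + 2), (4 : ℝ) ^ (T - shp e m R.1 j) :=
      (Fin.prod_univ_succ (fun j : Fin (e + 2) => (4 : ℝ) ^ (T - shp e m R.1 j))).symm
    have h9 : ∏ j : Fin (e + 2), (4 : ℝ) ^ (T - shp e m R.1 j) =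
        (4 : ℝ) ^ ((e + 2) * T) / 4 ^ ((e + 2) * m) := by
      rw [Finset.prod_pow_eq_pow_sum, eq_div_iff (by positivity), ← pow_add]
      congr 1
      rw [← sum_shp R.1, ← Finset.sum_add_distrib]
      rw [Finset.sum_congr rfl (fun j _ => Nat.sub_add_cancel ((shp_le R.1 j).trans hT))]
      simp
    calc _ = 4 ^ (e + 1) * ((4 : ℝ) ^ (T - shp e m R.1 0) * ∏ j : Fin (e + 1),
        (4 : ℝ) ^ (T - shp e m R.1 j.succ)) := by ring
      _ = _ := by rw [h8, h9]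
  have hM2 : M ^ 2 = 4 ^ ((e + 2) * T) := by
    rw [hM, ← pow_mul, ← pow_mul, show (4 : ℝ) = 2 ^ 2 by norm_num, ← pow_mul]
    congr 1; ring
  calc _ ≤ 1 / u ^ 2 * 10 ^ e * 4 ^ (T - shp e m R.1 0) / M ^ 2 *
        ∏ j : Fin (e + 1), (4 * 4 ^ (T - shp e m R.1 j.succ) : ℝ) :=
        mul_le_mul_of_nonneg_left h6 (by positivity)
    _ = 1 / u ^ 2 * 10 ^ e / M ^ 2 * (4 ^ (T - shp e m R.1 0) *
        ∏ j : Fin (e + 1), (4 * 4 ^ (T - shp e m R.1 j.succ) : ℝ)) := by ring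
    _ = 1 / u ^ 2 * 10 ^ e / M ^ 2 * (4 ^ (e + 1) *
        ((4 : ℝ) ^ ((e + 2) * T) / 4 ^ ((e + 2) * m))) := by rw [h7]
    _ = _ := by
        rw [hM2]
        have : (4 : ℝ) ^ ((e + 2) * T) ≠ 0 := by positivity
        field_simp
    _ ≤ _ := le_rfl

end Pool.Agent.Helper60.SB
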