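import Pool.Agent.Helper60.SB.UpperH
import Pool.Agent.Helper60.SB.LowerW

/-!
Two-sided bounds.
-/

open Finset MeasureTheory
open scoped ENNReal Real

namespace Pool.Agent.Helper60.SB

theorem upper_W (d : ℕ) (hd : 1 ≤ d) (𝕜 : Type) [RCLike 𝕜] (p : ℝ≥0∞) (hp : 1 < p) (r : ℝ)
    (hr1 : 1 / p.toReal < r) (hr2 : 1 / 2 < r) :
    ∃ C > 0, ∃ n₀ : ℕ, ∀ n ≥ n₀, entropyNumber n (Wclass d 𝕜 r p) ≤
      ENNReal.ofReal (C * (n : ℝ) ^ (-r) * Real.log n ^ (((d : ℝ) - 1) * r + 1 / 2)) := by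
  obtain ⟨e, rfl⟩ : ∃ e, d = e + 1 := ⟨d - 1, by omega⟩
  obtain ⟨C, hC, n₀, h⟩ := upper_W_complex e p hp r hr1 hr2
  refine ⟨C, hC, n₀, fun n hn => (entropy_W_field _ 𝕜 r p n).trans ((h n hn).trans (le_of_eq ?_))⟩
  congr 3
  push_cast; ring

theorem upper_H (d : ℕ) (hd : 1 ≤ d) (𝕜 : Type) [RCLike 𝕜] (p : ℝ≥0∞) (hp : 1 ≤ p) (r : ℝ)
    (hr1 : 1 / p.toReal < r) (hr2 : 1 / 2 < r) :
    ∃ C > 0, ∃ n₀ : ℕ, ∀ n ≥ n₀, entropyNumber n (Hclass d 𝕜 r p) ≤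
      ENNReal.ofReal (C * (n : ℝ) ^ (-r) * Real.log n ^ (((d : ℝ) - 1) * r + (d : ℝ) / 2)) := by
  obtain ⟨e, rfl⟩ : ∃ e, d = e + 1 := ⟨d - 1, by omega⟩
  have hmain : ∃ C' > 0, ∃ n₀ : ℕ, ∀ n ≥ n₀, entropyNumber n (Hclass (e + 1) ℂ r p) ≤
      ENNReal.ofReal (C' * (n : ℝ) ^ (-r) *
        Real.log n ^ ((e : ℝ) * r + ((e : ℝ) / 2 + 1 / 2))) := by
    rcases eq_or_lt_of_le hp with h | h
    · subst h
      exact upper_H_complex_one e r (by simpa using hr1)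
    · exact upper_H_complex e p h r hr1 hr2
  obtain ⟨C, hC, n₀, h⟩ := hmain
  refine ⟨C, hC, n₀, fun n hn => (entropy_H_field _ 𝕜 r p n).trans ((h n hn).trans (le_of_eq ?_))⟩
  congr 3
  push_cast; ring

/-- the lower bound for `p = ∞` from those for `p = 4` and the upper bound for `p = 2` -/
theorem lower_W_top (d : ℕ) (hd : 2 ≤ d) (𝕜 : Type) [RCLike 𝕜] (r : ℝ) (hr : 1 / 2 < r) :
    ∃ c > 0, ∃ n₀ : ℕ, ∀ n ≥ n₀,
      ENNReal.ofReal (c * (n : ℝ) ^ (-r) * Real.log n ^ (((d : ℝ) - 1) * r + 1 / 2)) ≤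
        entropyNumber n (Wclass d 𝕜 r ⊤) := by
  have hr0 : 0 < r := by linarith
  obtain ⟨c, hc, n₁, h1⟩ := lower_W d hd 𝕜 4 (by norm_num) r hr0
  obtain ⟨C, hC, n₂, h2⟩ := upper_W d (by omega) 𝕜 2 (by norm_num) r
    (by simpa using hr) hr
  set E : ℝ := ((d : ℝ) - 1) * r + 1 / 2 with hE
  have hE0 : 0 ≤ E := by
    have : (2 : ℝ) ≤ d := by exact_mod_cast hd
    rw [hE]; nlinarith
  set A : ℝ := 2 * C * (2 : ℝ) ^ r / c with hA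
  have hA0 : 0 < A := by positivity
  refine ⟨c * (2 : ℝ) ^ (-r) / (2 * A), by positivity, max (max n₁ n₂) 1, fun n hn => ?_⟩
  have hn1 : n₁ ≤ n := (le_max_left _ _).trans ((le_max_left _ _).trans hn)
  have hn2 : n₂ ≤ n := (le_max_right _ _).trans ((le_max_left _ _).trans hn)
  have hn3 : 1 ≤ n := (le_max_right _ _).trans hn
  have hnr : (1 : ℝ) ≤ n := by exact_mod_cast hn3
  have hn0 : (0 : ℝ) < n := by linarith
  have hL0 : 0 ≤ Real.log n := Real.log_nonneg hnr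
  have h3 := h1 (n + n) (by omega)
  have h4 := W_trunc d 𝕜 r hr0 A hA0 n
  have h5 := h2 n hn2
  set X : ℝ := (n : ℝ) ^ (-r) * Real.log n ^ E with hX
  have hX0 : 0 ≤ X := by positivity
  -- lower bound at `2 n`
  have h6 : c * (2 : ℝ) ^ (-r) * X ≤ c * ((n + n : ℕ) : ℝ) ^ (-r) * Real.log ((n + n : ℕ) : ℝ) ^ E := by
    have h7 : ((n + n : ℕ) : ℝ) = 2 * n := by push_cast; ring
    rw [h7, Real.mul_rpow (by norm_num) hn0.le]
    have h8 : Real.log n ≤ Real.log (2 * n) := Real.log_le_log hn0 (by linarith)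
    have h9 : Real.log n ^ E ≤ Real.log (2 * n) ^ E := Real.rpow_le_rpow hL0 h8 hE0
    calc c * (2 : ℝ) ^ (-r) * X = c * ((2 : ℝ) ^ (-r) * (n : ℝ) ^ (-r)) * Real.log n ^ E := by
          rw [hX]; ring
      _ ≤ _ := mul_le_mul_of_nonneg_left h9 (by positivity)
  have h7 : ENNReal.ofReal (c * (2 : ℝ) ^ (-r) * X) ≤
      ENNReal.ofReal (c * (2 : ℝ) ^ (-r) * X / 2) +
        ENNReal.ofReal A * entropyNumber n (Wclass d 𝕜 r ⊤) := by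
    refine (ENNReal.ofReal_le_ofReal h6).trans (h3.trans (h4.trans (add_le_add_left ?_ _)))
    refine (mul_le_mul_right h5 _).trans ?_
    rw [← ENNReal.ofReal_mul (by positivity)]
    refine ENNReal.ofReal_le_ofReal (le_of_eq ?_)
    rw [hA, hX, Real.rpow_neg (by norm_num : (0:ℝ) ≤ 2) r]
    field_simp
  have h8 : ENNReal.ofReal (c * (2 : ℝ) ^ (-r) * X / 2) ≤
      ENNReal.ofReal A * entropyNumber n (Wclass d 𝕜 r ⊤) := by
    have h9 : ENNReal.ofReal (c * (2 : ℝ) ^ (-r) * X) =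
        ENNReal.ofReal (c * (2 : ℝ) ^ (-r) * X / 2) + ENNReal.ofReal (c * (2 : ℝ) ^ (-r) * X / 2) := by
      rw [← ENNReal.ofReal_add (by positivity) (by positivity)]
      congr 1; ring
    rw [h9] at h7
    exact (ENNReal.add_le_add_iff_left ENNReal.ofReal_ne_top).1 h7
  have h9 : ENNReal.ofReal (c * (2 : ℝ) ^ (-r) * X / 2) =
      ENNReal.ofReal A * ENNReal.ofReal (c * (2 : ℝ) ^ (-r) / (2 * A) * (n : ℝ) ^ (-r) *
        Real.log n ^ E) := by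
    rw [← ENNReal.ofReal_mul hA0.le]
    congr 1
    rw [hX]
    field_simp
  rw [h9] at h8
  exact (ENNReal.mul_le_mul_iff_right (by simpa using hA0) ENNReal.ofReal_ne_top).1 h8

/-- order of the entropy numbers of `W^r_p` -/
theorem order_W (d : ℕ) (hd : 2 ≤ d) (𝕜 : Type) [RCLike 𝕜] (p : ℝ≥0∞) (hp : 1 < p) (r : ℝ)
    (hr1 : 1 / p.toReal < r) (hr2 : 1 / 2 < r) :
    ∃ c > 0, ∃ C > 0, ∃ n₀ : ℕ, ∀ n ≥ n₀,
      ENNReal.ofReal (c * (n : ℝ) ^ (-r) * Real.log n ^ (((d : ℝ) - 1) * r + 1 / 2)) ≤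
        entropyNumber n (Wclass d 𝕜 r p) ∧
      entropyNumber n (Wclass d 𝕜 r p) ≤
        ENNReal.ofReal (C * (n : ℝ) ^ (-r) * Real.log n ^ (((d : ℝ) - 1) * r + 1 / 2)) := by
  obtain ⟨C, hC, n₂, h2⟩ := upper_W d (by omega) 𝕜 p hp r hr1 hr2
  have hlow : ∃ c > 0, ∃ n₀ : ℕ, ∀ n ≥ n₀,
      ENNReal.ofReal (c * (n : ℝ) ^ (-r) * Real.log n ^ (((d : ℝ) - 1) * r + 1 / 2)) ≤
        entropyNumber n (Wclass d 𝕜 r p) := by
    by_cases h : p = ⊤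
    · subst h
      exact lower_W_top d hd 𝕜 r hr2
    · exact lower_W d hd 𝕜 p h r (by linarith)
  obtain ⟨c, hc, n₁, h1⟩ := hlow
  exact ⟨c, hc, C, hC, max n₁ n₂, fun n hn =>
    ⟨h1 n ((le_max_left _ _).trans hn), h2 n ((le_max_right _ _).trans hn)⟩⟩

/-- order of the entropy numbers of `H^r_p` -/
theorem order_H (d : ℕ) (hd : 2 ≤ d) (𝕜 : Type) [RCLike 𝕜] (p : ℝ≥0∞) (hp : 1 ≤ p) (r : ℝ)
    (hr1 : 1 / p.toReal < r) (hr2 : 1 / 2 < r) :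
    ∃ c > 0, ∃ C > 0, ∃ n₀ : ℕ, ∀ n ≥ n₀,
      ENNReal.ofReal (c * (n : ℝ) ^ (-r) * Real.log n ^ (((d : ℝ) - 1) * r + (d : ℝ) / 2)) ≤
        entropyNumber n (Hclass d 𝕜 r p) ∧
      entropyNumber n (Hclass d 𝕜 r p) ≤
        ENNReal.ofReal (C * (n : ℝ) ^ (-r) * Real.log n ^ (((d : ℝ) - 1) * r + (d : ℝ) / 2)) := by
  obtain ⟨C, hC, n₂, h2⟩ := upper_H d (by omega) 𝕜 p hp r hr1 hr2
  obtain ⟨c, hc, n₁, h1⟩ := lower_H d hd 𝕜 p r (by linarith)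
  exact ⟨c, hc, C, hC, max n₁ n₂, fun n hn =>
    ⟨h1 n ((le_max_left _ _).trans hn), h2 n ((le_max_right _ _).trans hn)⟩⟩

end Pool.Agent.Helper60.SB
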