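import Pool.Agent.Helper60.SB.UpperSmall

/-!
Two-sided bounds for small smoothness.
-/

open Finset MeasureTheory
open scoped ENNReal Real

namespace Pool.Agent.Helper60.SB

theorem lower_H_small (e : ℕ) (he : 1 ≤ e) (𝕜 : Type) [RCLike 𝕜] (p : ℝ≥0∞) (r : ℝ)
    (hr : 0 < r) (hr2 : r < 1 / 2) :
    ∃ c > 0, ∃ n₀ : ℕ, ∀ n ≥ n₀,
      ENNReal.ofReal (c * (n : ℝ) ^ (-r) * Real.log n ^ ((e : ℝ) + r)) ≤
        entropyNumber n (Hclass (e + 1) 𝕜 r p) :=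
  Pool.Agent.Helper16.SB.asym_H_small e he r hr hr2 _
    (H_pack e he r hr hr2.le 𝕜 p 1 one_pos)

theorem lower_H_half (e : ℕ) (he : 2 ≤ e) (𝕜 : Type) [RCLike 𝕜] (p : ℝ≥0∞) :
    ∃ c > 0, ∃ n₀ : ℕ, ∀ n ≥ n₀,
      ENNReal.ofReal (c * (n : ℝ) ^ (-(1 / 2 : ℝ)) * Real.log n ^ ((e : ℝ) + 1 / 2) *
        Real.log (Real.log n)) ≤ entropyNumber n (Hclass (e + 1) 𝕜 (1 / 2) p) :=
  Pool.Agent.Helper16.SB.asym_H_half e he (1 / 2) rfl _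
    (H_pack e (by omega) (1 / 2) (by norm_num) le_rfl 𝕜 p 1 one_pos)

theorem lower_W_small (e : ℕ) (he : 1 ≤ e) (𝕜 : Type) [RCLike 𝕜] (p : ℝ≥0∞) (hp : p ≠ ⊤)
    (r : ℝ) (hr : 0 < r) (hr2 : r < 1 / 2) :
    ∃ c > 0, ∃ n₀ : ℕ, ∀ n ≥ n₀,
      ENNReal.ofReal (c * (n : ℝ) ^ (-r) * Real.log n ^ ((e : ℝ) * (1 - r) + r)) ≤
        entropyNumber n (Wclass (e + 1) 𝕜 r p) :=
  Pool.Agent.Helper56.SB.asym_W_small e he r hr hr2 _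
    (Pool.Agent.Helper83.SB.W_pack e he r hr hr2.le 𝕜 p hp 1 one_pos)

theorem lower_W_half (e : ℕ) (he : 1 ≤ e) (𝕜 : Type) [RCLike 𝕜] (p : ℝ≥0∞) (hp : p ≠ ⊤) :
    ∃ c > 0, ∃ n₀ : ℕ, ∀ n ≥ n₀,
      ENNReal.ofReal (c * (n : ℝ) ^ (-(1 / 2 : ℝ)) * Real.log n ^ (((e : ℝ) + 1) / 2) *
        Real.log (Real.log n) ^ (1 / 2 : ℝ)) ≤ entropyNumber n (Wclass (e + 1) 𝕜 (1 / 2) p) :=
  Pool.Agent.Helper56.SB.asym_W_half e he (1 / 2) rfl _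
    (Pool.Agent.Helper83.SB.W_pack e he (1 / 2) (by norm_num) le_rfl 𝕜 p hp 1 one_pos)

/-! ### the case `p = ∞` of the lower bounds for `W` -/

lemma lower_top_of (d : ℕ) (𝕜 : Type) [RCLike 𝕜] (r : ℝ) (hr : 0 < r) (φ : ℕ → ℝ)
    (hφ : ∀ n : ℕ, 3 ≤ n → 0 ≤ φ n) (p₁ p₂ : ℝ) (h1 : 1 ≤ p₁) (h12 : p₁ < p₂)
    (hlow : ∃ c > 0, ∃ n₀ : ℕ, ∀ n ≥ n₀,
      ENNReal.ofReal (c * φ n) ≤ entropyNumber n (Wclass d 𝕜 r (ENNReal.ofReal p₂)))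
    (hup : ∃ C > 0, ∃ n₀ : ℕ, ∀ n ≥ n₀,
      entropyNumber n (Wclass d 𝕜 r (ENNReal.ofReal p₁)) ≤ ENNReal.ofReal (C * φ n))
    (hdbl : ∃ c > 0, ∃ n₀ : ℕ, ∀ n ≥ n₀, c * φ n ≤ φ (n + n)) :
    ∃ c > 0, ∃ n₀ : ℕ, ∀ n ≥ n₀,
      ENNReal.ofReal (c * φ n) ≤ entropyNumber n (Wclass d 𝕜 r ⊤) := by
  obtain ⟨c, hc, n₁, hl⟩ := hlow
  obtain ⟨C, hC, n₂, hu⟩ := hup
  obtain ⟨b, hb, n₃, hd⟩ := hdbl
  have hp1 : 0 < p₁ := by linarith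
  have hex : 1 - p₂ / p₁ < 0 := by
    have : 1 < p₂ / p₁ := (one_lt_div hp1).2 h12
    linarith
  set t : ℝ := c * b / (2 * C) with ht
  have ht0 : 0 < t := by positivity
  set A : ℝ := t ^ (1 / (1 - p₂ / p₁)) with hA
  have hA0 : 0 < A := Real.rpow_pos_of_pos ht0 _
  have hAt : A ^ (1 - p₂ / p₁) = t := by
    rw [hA, ← Real.rpow_mul ht0.le, one_div, inv_mul_cancel₀ hex.ne, Real.rpow_one]
  refine ⟨c * b / (2 * A), by positivity, max (max n₁ n₂) (max n₃ 3), fun n hn => ?_⟩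
  have hn1 : n₁ ≤ n := (le_max_left _ _).trans ((le_max_left _ _).trans hn)
  have hn2 : n₂ ≤ n := (le_max_right _ _).trans ((le_max_left _ _).trans hn)
  have hn3 : n₃ ≤ n := (le_max_left _ _).trans ((le_max_right _ _).trans hn)
  have hn4 : 3 ≤ n := (le_max_right _ _).trans ((le_max_right _ _).trans hn)
  have h3 := hl (n + n) (by omega)
  have h4 := Pool.Agent.Helper21.SB.W_trunc_gen d 𝕜 r hr p₁ p₂ h1 h12 A hA0 n
  have h5 := hu n hn2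
  have h6 := hd n hn3
  have hX0 : 0 ≤ φ n := hφ n hn4
  have h7 : ENNReal.ofReal (c * b * φ n) ≤
      ENNReal.ofReal (c * b * φ n / 2) +
        ENNReal.ofReal A * entropyNumber n (Wclass d 𝕜 r ⊤) := by
    have h8 : c * b * φ n ≤ c * φ (n + n) := by
      rw [mul_assoc]
      exact mul_le_mul_of_nonneg_left h6 hc.le
    refine (ENNReal.ofReal_le_ofReal h8).trans (h3.trans (h4.trans (add_le_add_left ?_ _)))
    refine (mul_le_mul_right h5 _).trans ?_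
    rw [hAt, ← ENNReal.ofReal_mul ht0.le]
    refine ENNReal.ofReal_le_ofReal (le_of_eq ?_)
    rw [ht]
    field_simp
  have h8 : ENNReal.ofReal (c * b * φ n / 2) ≤
      ENNReal.ofReal A * entropyNumber n (Wclass d 𝕜 r ⊤) := by
    have h9 : ENNReal.ofReal (c * b * φ n) =
        ENNReal.ofReal (c * b * φ n / 2) + ENNReal.ofReal (c * b * φ n / 2) := by
      rw [← ENNReal.ofReal_add (by positivity) (by positivity)]
      congr 1; ring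
    rw [h9] at h7
    exact (ENNReal.add_le_add_iff_left ENNReal.ofReal_ne_top).1 h7
  have h9 : ENNReal.ofReal (c * b * φ n / 2) =
      ENNReal.ofReal A * ENNReal.ofReal (c * b / (2 * A) * φ n) := by
    rw [← ENNReal.ofReal_mul hA0.le]
    congr 1
    field_simp
  rw [h9] at h8
  exact (ENNReal.mul_le_mul_iff_right (by simpa using hA0) ENNReal.ofReal_ne_top).1 h8

lemma one_le_log {n : ℕ} (hn : 3 ≤ n) : 1 ≤ Real.log n := by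
  rw [Real.le_log_iff_exp_le (by positivity)]
  have h1 : Real.exp 1 < 3 := lt_trans Real.exp_one_lt_d9 (by norm_num)
  have h2 : (3 : ℝ) ≤ n := by exact_mod_cast hn
  linarith

lemma phi_dbl (r x y : ℝ) (hx : 0 ≤ x) (hy : 0 ≤ y) :
    ∃ c > 0, ∃ n₀ : ℕ, ∀ n : ℕ, n ≥ n₀ →
      c * ((n : ℝ) ^ (-r) * Real.log n ^ x * Real.log (Real.log n) ^ y) ≤
        ((n + n : ℕ) : ℝ) ^ (-r) * Real.log ((n + n : ℕ) : ℝ) ^ x *
          Real.log (Real.log ((n + n : ℕ) : ℝ)) ^ y := by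
  refine ⟨(2 : ℝ) ^ (-r), by positivity, 3, fun n hn => ?_⟩
  have h2 : (3 : ℝ) ≤ n := by exact_mod_cast hn
  have h1 : ((n + n : ℕ) : ℝ) = 2 * n := by push_cast; ring
  have h3 := one_le_log hn
  have h4 : Real.log n ≤ Real.log (2 * n) := Real.log_le_log (by linarith) (by linarith)
  have h5 : 0 ≤ Real.log (Real.log n) := Real.log_nonneg h3
  have h6 : Real.log (Real.log n) ≤ Real.log (Real.log (2 * n)) :=
    Real.log_le_log (by linarith) h4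
  rw [h1, Real.mul_rpow (by norm_num) (by linarith)]
  have h7 : 0 ≤ Real.log (2 * n) := by linarith
  calc (2 : ℝ) ^ (-r) * ((n : ℝ) ^ (-r) * Real.log n ^ x * Real.log (Real.log n) ^ y) =
      (2 : ℝ) ^ (-r) * (n : ℝ) ^ (-r) * Real.log n ^ x * Real.log (Real.log n) ^ y := by ring
    _ ≤ _ := by
      have h8 : 0 ≤ (2 : ℝ) ^ (-r) * (n : ℝ) ^ (-r) * Real.log (2 * n) ^ x := by positivity
      gcongr

lemma lower_W_top_small (e : ℕ) (he : 1 ≤ e) (𝕜 : Type) [RCLike 𝕜] (r : ℝ) (hr : 0 < r)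
    (hr2 : r < 1 / 2) :
    ∃ c > 0, ∃ n₀ : ℕ, ∀ n ≥ n₀,
      ENNReal.ofReal (c * (n : ℝ) ^ (-r) * Real.log n ^ ((e : ℝ) * (1 - r) + r)) ≤
        entropyNumber n (Wclass (e + 1) 𝕜 r ⊤) := by
  have hx : (0 : ℝ) ≤ (e : ℝ) * (1 - r) + r := by
    have : (0 : ℝ) ≤ e := Nat.cast_nonneg e
    nlinarith
  have hp : 1 ≤ 2 / r := by
    rw [le_div_iff₀ hr]; linarith
  have h1 : ∃ C > 0, ∃ n₀ : ℕ, ∀ n ≥ n₀,
      entropyNumber n (Wclass (e + 1) 𝕜 r (ENNReal.ofReal (2 / r))) ≤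
        ENNReal.ofReal (C * ((n : ℝ) ^ (-r) * Real.log n ^ ((e : ℝ) * (1 - r) + r) *
          Real.log (Real.log n) ^ (0 : ℝ))) := by
    obtain ⟨C, hC, n₀, h⟩ := upper_W_small e 𝕜 (ENNReal.ofReal (2 / r))
      (by simpa using ENNReal.ofReal_le_ofReal hp) r
      (by
        rw [ENNReal.toReal_ofReal (by positivity), one_div_div]
        linarith) hr2
    refine ⟨C, hC, n₀, fun n hn => (h n hn).trans (le_of_eq ?_)⟩
    rw [Real.rpow_zero, mul_one, mul_assoc]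
  have h2 : ∃ c > 0, ∃ n₀ : ℕ, ∀ n ≥ n₀,
      ENNReal.ofReal (c * ((n : ℝ) ^ (-r) * Real.log n ^ ((e : ℝ) * (1 - r) + r) *
          Real.log (Real.log n) ^ (0 : ℝ))) ≤
        entropyNumber n (Wclass (e + 1) 𝕜 r (ENNReal.ofReal (2 / r + 1))) := by
    obtain ⟨c, hc, n₀, h⟩ := lower_W_small e he 𝕜 (ENNReal.ofReal (2 / r + 1))
      ENNReal.ofReal_ne_top r hr hr2
    refine ⟨c, hc, n₀, fun n hn => le_trans (le_of_eq ?_) (h n hn)⟩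
    rw [Real.rpow_zero, mul_one, mul_assoc]
  obtain ⟨c, hc, n₀, h⟩ := lower_top_of (e + 1) 𝕜 r hr
    (fun n => (n : ℝ) ^ (-r) * Real.log n ^ ((e : ℝ) * (1 - r) + r) *
      Real.log (Real.log n) ^ (0 : ℝ))
    (fun n hn => by
      have := one_le_log hn
      positivity)
    (2 / r) (2 / r + 1) hp (by linarith) h2 h1 (phi_dbl r _ 0 hx le_rfl)
  refine ⟨c, hc, n₀, fun n hn => le_trans (le_of_eq ?_) (h n hn)⟩
  rw [Real.rpow_zero, mul_one, mul_assoc]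

lemma lower_W_top_half (e : ℕ) (he : 1 ≤ e) (𝕜 : Type) [RCLike 𝕜] :
    ∃ c > 0, ∃ n₀ : ℕ, ∀ n ≥ n₀,
      ENNReal.ofReal (c * (n : ℝ) ^ (-(1 / 2 : ℝ)) * Real.log n ^ (((e : ℝ) + 1) / 2) *
        Real.log (Real.log n) ^ (1 / 2 : ℝ)) ≤ entropyNumber n (Wclass (e + 1) 𝕜 (1 / 2) ⊤) := by
  have h1 : ∃ C > 0, ∃ n₀ : ℕ, ∀ n ≥ n₀,
      entropyNumber n (Wclass (e + 1) 𝕜 (1 / 2) (ENNReal.ofReal 3)) ≤
        ENNReal.ofReal (C * ((n : ℝ) ^ (-(1 / 2 : ℝ)) * Real.log n ^ (((e : ℝ) + 1) / 2) *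
          Real.log (Real.log n) ^ (1 / 2 : ℝ))) := by
    obtain ⟨C, hC, n₀, h⟩ := upper_W_half e 𝕜 (ENNReal.ofReal 3)
      (by simp)
      (by
        rw [ENNReal.toReal_ofReal (by norm_num)]
        norm_num)
    refine ⟨C, hC, n₀, fun n hn => (h n hn).trans (le_of_eq ?_)⟩
    rw [mul_assoc, mul_assoc, mul_assoc]
  have h2 : ∃ c > 0, ∃ n₀ : ℕ, ∀ n ≥ n₀,
      ENNReal.ofReal (c * ((n : ℝ) ^ (-(1 / 2 : ℝ)) * Real.log n ^ (((e : ℝ) + 1) / 2) *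
          Real.log (Real.log n) ^ (1 / 2 : ℝ))) ≤
        entropyNumber n (Wclass (e + 1) 𝕜 (1 / 2) (ENNReal.ofReal 4)) := by
    obtain ⟨c, hc, n₀, h⟩ := lower_W_half e he 𝕜 (ENNReal.ofReal 4) ENNReal.ofReal_ne_top
    refine ⟨c, hc, n₀, fun n hn => le_trans (le_of_eq ?_) (h n hn)⟩
    rw [mul_assoc, mul_assoc, mul_assoc]
  obtain ⟨c, hc, n₀, h⟩ := lower_top_of (e + 1) 𝕜 (1 / 2) (by norm_num)
    (fun n => (n : ℝ) ^ (-(1 / 2 : ℝ)) * Real.log n ^ (((e : ℝ) + 1) / 2) *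
      Real.log (Real.log n) ^ (1 / 2 : ℝ))
    (fun n hn => by
      have := one_le_log hn
      have h5 : 0 ≤ Real.log (Real.log n) := Real.log_nonneg this
      positivity)
    3 4 (by norm_num) (by norm_num) h2 h1 (phi_dbl (1 / 2) _ (1 / 2) (by positivity) (by norm_num))
  refine ⟨c, hc, n₀, fun n hn => le_trans (le_of_eq ?_) (h n hn)⟩
  rw [mul_assoc, mul_assoc, mul_assoc]

/-! ### two-sided bounds -/

theorem order_W_small (e : ℕ) (he : 1 ≤ e) (𝕜 : Type) [RCLike 𝕜] (p : ℝ≥0∞) (hp : 1 ≤ p)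
    (r : ℝ) (hr1 : 1 / p.toReal < r) (hr2 : r < 1 / 2) :
    ∃ c > 0, ∃ C > 0, ∃ n₀ : ℕ, ∀ n ≥ n₀,
      ENNReal.ofReal (c * (n : ℝ) ^ (-r) * Real.log n ^ ((e : ℝ) * (1 - r) + r)) ≤
        entropyNumber n (Wclass (e + 1) 𝕜 r p) ∧
      entropyNumber n (Wclass (e + 1) 𝕜 r p) ≤
        ENNReal.ofReal (C * (n : ℝ) ^ (-r) * Real.log n ^ ((e : ℝ) * (1 - r) + r)) := by
  have hr : 0 < r := lt_of_le_of_lt (by positivity) hr1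
  obtain ⟨C, hC, n₂, h2⟩ := upper_W_small e 𝕜 p hp r hr1 hr2
  have hlow : ∃ c > 0, ∃ n₀ : ℕ, ∀ n ≥ n₀,
      ENNReal.ofReal (c * (n : ℝ) ^ (-r) * Real.log n ^ ((e : ℝ) * (1 - r) + r)) ≤
        entropyNumber n (Wclass (e + 1) 𝕜 r p) := by
    by_cases h : p = ⊤
    · subst h
      exact lower_W_top_small e he 𝕜 r hr hr2
    · exact lower_W_small e he 𝕜 p h r hr hr2
  obtain ⟨c, hc, n₁, h1⟩ := hlow
  exact ⟨c, hc, C, hC, max n₁ n₂, fun n hn =>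
    ⟨h1 n ((le_max_left _ _).trans hn), h2 n ((le_max_right _ _).trans hn)⟩⟩

theorem order_W_half (e : ℕ) (he : 1 ≤ e) (𝕜 : Type) [RCLike 𝕜] (p : ℝ≥0∞) (hp : 1 ≤ p)
    (hr1 : 1 / p.toReal < 1 / 2) :
    ∃ c > 0, ∃ C > 0, ∃ n₀ : ℕ, ∀ n ≥ n₀,
      ENNReal.ofReal (c * (n : ℝ) ^ (-(1 / 2 : ℝ)) * Real.log n ^ (((e : ℝ) + 1) / 2) *
        Real.log (Real.log n) ^ (1 / 2 : ℝ)) ≤ entropyNumber n (Wclass (e + 1) 𝕜 (1 / 2) p) ∧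
      entropyNumber n (Wclass (e + 1) 𝕜 (1 / 2) p) ≤
        ENNReal.ofReal (C * (n : ℝ) ^ (-(1 / 2 : ℝ)) * Real.log n ^ (((e : ℝ) + 1) / 2) *
          Real.log (Real.log n) ^ (1 / 2 : ℝ)) := by
  obtain ⟨C, hC, n₂, h2⟩ := upper_W_half e 𝕜 p hp hr1
  have hlow : ∃ c > 0, ∃ n₀ : ℕ, ∀ n ≥ n₀,
      ENNReal.ofReal (c * (n : ℝ) ^ (-(1 / 2 : ℝ)) * Real.log n ^ (((e : ℝ) + 1) / 2) *
        Real.log (Real.log n) ^ (1 / 2 : ℝ)) ≤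
        entropyNumber n (Wclass (e + 1) 𝕜 (1 / 2) p) := by
    by_cases h : p = ⊤
    · subst h
      exact lower_W_top_half e he 𝕜
    · exact lower_W_half e he 𝕜 p h
  obtain ⟨c, hc, n₁, h1⟩ := hlow
  exact ⟨c, hc, C, hC, max n₁ n₂, fun n hn =>
    ⟨h1 n ((le_max_left _ _).trans hn), h2 n ((le_max_right _ _).trans hn)⟩⟩

theorem order_H_small (e : ℕ) (he : 1 ≤ e) (𝕜 : Type) [RCLike 𝕜] (p : ℝ≥0∞) (hp : 1 ≤ p)
    (r : ℝ) (hr1 : 1 / p.toReal < r) (hr2 : r < 1 / 2) :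
    ∃ c > 0, ∃ C > 0, ∃ n₀ : ℕ, ∀ n ≥ n₀,
      ENNReal.ofReal (c * (n : ℝ) ^ (-r) * Real.log n ^ ((e : ℝ) + r)) ≤
        entropyNumber n (Hclass (e + 1) 𝕜 r p) ∧
      entropyNumber n (Hclass (e + 1) 𝕜 r p) ≤
        ENNReal.ofReal (C * (n : ℝ) ^ (-r) * Real.log n ^ ((e : ℝ) + r)) := by
  have hr : 0 < r := lt_of_le_of_lt (by positivity) hr1
  obtain ⟨C, hC, n₂, h2⟩ := upper_H_small e 𝕜 p hp r hr1 hr2
  obtain ⟨c, hc, n₁, h1⟩ := lower_H_small e he 𝕜 p r hr hr2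
  exact ⟨c, hc, C, hC, max n₁ n₂, fun n hn =>
    ⟨h1 n ((le_max_left _ _).trans hn), h2 n ((le_max_right _ _).trans hn)⟩⟩

theorem order_H_half (e : ℕ) (he : 2 ≤ e) (𝕜 : Type) [RCLike 𝕜] (p : ℝ≥0∞) (hp : 1 ≤ p)
    (hr1 : 1 / p.toReal < 1 / 2) :
    ∃ c > 0, ∃ C > 0, ∃ n₀ : ℕ, ∀ n ≥ n₀,
      ENNReal.ofReal (c * (n : ℝ) ^ (-(1 / 2 : ℝ)) * Real.log n ^ ((e : ℝ) + 1 / 2) *
        Real.log (Real.log n)) ≤ entropyNumber n (Hclass (e + 1) 𝕜 (1 / 2) p) ∧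
      entropyNumber n (Hclass (e + 1) 𝕜 (1 / 2) p) ≤
        ENNReal.ofReal (C * (n : ℝ) ^ (-(1 / 2 : ℝ)) * Real.log n ^ ((e : ℝ) + 1 / 2) *
          Real.log (Real.log n)) := by
  obtain ⟨C, hC, n₂, h2⟩ := upper_H_half e 𝕜 p hp hr1
  obtain ⟨c, hc, n₁, h1⟩ := lower_H_half e he 𝕜 p
  exact ⟨c, hc, C, hC, max n₁ n₂, fun n hn =>
    ⟨h1 n ((le_max_left _ _).trans hn), h2 n ((le_max_right _ _).trans hn)⟩⟩

end Pool.Agent.Helper60.SB
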