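import Pool.Agent.Helper60.SB.Defs5
import Pool.Agent.Helper22.SB.U12
import Pool.Agent.Helper84.SB.P7
import Pool.Agent.Helper30.SB.M6

/-!
Module P11, part a: membership in the classes and linearity.
-/

open Finset MeasureTheory
open scoped ENNReal Real

namespace Pool.Agent.Helper60.SB

open Pool.Agent.Helper84.SB (integrable_of_cont prob_tor)

/-- convolution with an exponential -/
theorem conv_ex (d : ℕ) (r : ℝ) (hr : 0 < r) (k : Fin d → ℤ) (x : Fin d → ℝ) :
    ∫ y, (Fker r (x - y) : ℂ) * ex k y ∂(tor d) = (∏ j, bmul r r (k j)) * ex k x := by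
  have := Pool.Agent.Helper22.SB.prob1
  have hex : ∀ x : Fin d → ℝ, ex k x = ∏ j, Complex.exp (Complex.I * (k j) * x j) := by
    intro x
    unfold ex
    rw [Finset.mul_sum, Complex.exp_sum]
    refine Finset.prod_congr rfl fun j _ => ?_
    rw [mul_assoc]
  have e : (fun y : Fin d → ℝ => (Fker r (x - y) : ℂ) * ex k y) =
      fun y => ∏ j, (((bern r r (x j - y j) : ℝ) : ℂ) *
        Complex.exp (Complex.I * (k j) * y j)) := by
    funext y
    rw [hex, Finset.prod_mul_distrib, Fker]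
    congr 1
    push_cast
    rfl
  rw [e]
  have h := integral_fintype_prod_eq_prod (𝕜 := ℂ) (ι := Fin d) (E := fun _ => ℝ)
    (fun j t => ((bern r r (x j - t) : ℝ) : ℂ) * Complex.exp (Complex.I * (k j) * t))
    (μ := fun _ => tor1)
  unfold tor
  rw [h, hex, ← Finset.prod_mul_distrib]
  refine Finset.prod_congr rfl fun j _ => ?_
  rw [Pool.Agent.Helper22.SB.bern_conv_exp r r hr]

/-- continuous functions belong to all the spaces `L_p` -/
theorem memLp_of_cont {d : ℕ} {E : Type*} [NormedAddCommGroup E] {g : (Fin d → ℝ) → E}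
    (hg : Continuous g) (p : ℝ≥0∞) : MemLp g p (tor d) := by
  have := prob_tor d
  have hK : IsCompact (Set.pi Set.univ (fun _ : Fin d => Set.Icc (0 : ℝ) (2 * π))) :=
    isCompact_univ_pi fun _ => isCompact_Icc
  obtain ⟨C, hC⟩ := hK.exists_bound_of_continuousOn hg.continuousOn
  exact MemLp.of_bound (integrable_of_cont hg).aestronglyMeasurable C
    ((Pool.Agent.Helper84.SB.ae_box d).mono fun x hx => hC x hx)

/-- the kernel is integrable in the second variable -/
theorem Fker_integrable' (d : ℕ) (r : ℝ) (hr : 0 < r) (x : Fin d → ℝ) :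
    Integrable (fun y => (Fker r (x - y) : ℂ)) (tor d) := by
  have := Pool.Agent.Helper22.SB.prob1
  have h : Integrable (fun y : Fin d → ℝ => ∏ i, ((bern r r (x i - y i) : ℝ) : ℂ)) (tor d) := by
    refine Integrable.fintype_prod (f := fun i t => ((bern r r (x i - t) : ℝ) : ℂ))
      fun i => ?_
    refine (Integrable.ofReal ?_)
    have h1 := Pool.Agent.Helper22.SB.bern_integrable r r hr (x i)
    exact h1
  refine h.congr (Filter.Eventually.of_forall fun x => ?_)
  simp [Fker]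

/-- the kernel times a continuous function is integrable -/
theorem Fker_mul_integrable (d : ℕ) (r : ℝ) (hr : 0 < r) (x : Fin d → ℝ)
    {g : (Fin d → ℝ) → ℂ} (hg : Continuous g) :
    Integrable (fun y => (Fker r (x - y) : ℂ) * g y) (tor d) := by
  have hK : IsCompact (Set.pi Set.univ (fun _ : Fin d => Set.Icc (0 : ℝ) (2 * π))) :=
    isCompact_univ_pi fun _ => isCompact_Icc
  obtain ⟨C, hC⟩ := hK.exists_bound_of_continuousOn hg.continuousOn
  exact (Fker_integrable' d r hr x).mul_bdd (c := C)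
    (integrable_of_cont hg).aestronglyMeasurable
    ((Pool.Agent.Helper84.SB.ae_box d).mono fun x hx => hC x hx)

/-- the `L_2` norm of a trigonometric polynomial -/
theorem poly_l2 {d : ℕ} (Q : Finset (Fin d → ℤ)) (c : (Fin d → ℤ) → ℂ) :
    ∫ x, ‖∑ k ∈ Q, c k * ex k x‖ ^ 2 ∂(tor d) = ∑ k ∈ Q, ‖c k‖ ^ 2 := by
  classical
  have hint : ∀ k l : Fin d → ℤ, ∫ x, ex (-k) x * ex l x ∂(tor d) = if k = l then 1 else 0 := by
    intro k l
    have h1 : ∀ x, ex (-k) x * ex l x = ex (-k + l) x := fun x =>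
      (Pool.Agent.Helper5.SB.ex_add (-k) l x).symm
    simp_rw [h1]
    rw [Pool.Agent.Helper5.SB.integral_ex]
    by_cases h : k = l
    · rw [if_pos (by rw [h]; simp), if_pos h]
    · rw [if_neg, if_neg h]
      intro h2
      exact h (neg_add_eq_zero.1 h2)
  have h1 : ((∫ x, ‖∑ k ∈ Q, c k * ex k x‖ ^ 2 ∂(tor d) : ℝ) : ℂ) =
      ((∑ k ∈ Q, ‖c k‖ ^ 2 : ℝ) : ℂ) := by
    rw [← integral_complex_ofReal]
    have h2 : ∀ x, ((‖∑ k ∈ Q, c k * ex k x‖ ^ 2 : ℝ) : ℂ) =
        ∑ k ∈ Q, ∑ l ∈ Q, ((starRingEnd ℂ) (c k) * c l) * (ex (-k) x * ex l x) := by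
      intro x
      have e1 : ∀ z : ℂ, ((‖z‖ ^ 2 : ℝ) : ℂ) = (starRingEnd ℂ) z * z := by
        intro z
        rw [Complex.conj_mul']
        push_cast
        rfl
      rw [e1, map_sum, Finset.sum_mul_sum]
      refine Finset.sum_congr rfl fun k _ => Finset.sum_congr rfl fun l _ => ?_
      rw [map_mul, Pool.Agent.Helper5.SB.conj_ex]
      ring
    simp_rw [h2]
    have hc : ∀ k l : Fin d → ℤ, Integrable (fun x =>
        ((starRingEnd ℂ) (c k) * c l) * (ex (-k) x * ex l x)) (tor d) := by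
      intro k l
      refine integrable_of_cont (continuous_const.mul ?_)
      exact (Pool.Agent.Helper84.SB.continuous_ex _).mul (Pool.Agent.Helper84.SB.continuous_ex _)
    rw [integral_finsetSum _ fun k _ => integrable_finsetSum _ fun l _ => hc k l]
    push_cast
    refine Finset.sum_congr rfl fun k hk => ?_
    rw [integral_finsetSum _ fun l _ => hc k l]
    have h3 : ∀ l ∈ Q, ∫ x, ((starRingEnd ℂ) (c k) * c l) * (ex (-k) x * ex l x) ∂(tor d) =
        if k = l then ((‖c k‖ : ℂ)) ^ 2 else 0 := by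
      intro l _
      rw [integral_const_mul, hint]
      by_cases h : k = l
      · subst h
        rw [if_pos rfl, if_pos rfl, mul_one, Complex.conj_mul']
      · rw [if_neg h, if_neg h, mul_zero]
    rw [Finset.sum_congr rfl h3, Finset.sum_ite_eq, if_pos hk]
  exact_mod_cast h1

/-- `L_2` norms of continuous functions -/
theorem eLpNorm_two_le {d : ℕ} {E : Type*} [NormedAddCommGroup E] {g : (Fin d → ℝ) → E}
    (hg : Continuous g) (A : ℝ) (hA : 0 ≤ A) (h : ∫ x, ‖g x‖ ^ 2 ∂(tor d) ≤ A ^ 2) :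
    eLpNorm g 2 (tor d) ≤ ENNReal.ofReal A := by
  have h1 := (memLp_of_cont hg 2).eLpNorm_eq_integral_rpow_norm (by norm_num) (by norm_num)
  rw [h1]
  refine ENNReal.ofReal_le_ofReal ?_
  have h2 : (2 : ℝ≥0∞).toReal = 2 := by norm_num
  rw [h2]
  have h3 : ∫ x, ‖g x‖ ^ (2 : ℝ) ∂(tor d) = ∫ x, ‖g x‖ ^ 2 ∂(tor d) := by
    refine integral_congr_ae (Filter.Eventually.of_forall fun x => ?_)
    exact Real.rpow_two _
  rw [h3]
  have h4 : (0 : ℝ) ≤ ∫ x, ‖g x‖ ^ 2 ∂(tor d) := integral_nonneg fun x => sq_nonneg _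
  calc (∫ x, ‖g x‖ ^ 2 ∂(tor d)) ^ (2 : ℝ)⁻¹ ≤ (A ^ 2) ^ (2 : ℝ)⁻¹ :=
        Real.rpow_le_rpow h4 h (by norm_num)
    _ = A := by
      rw [← Real.rpow_two, ← Real.rpow_mul hA]
      norm_num

/-- `L_1` norms of continuous functions -/
theorem eLpNorm_one_le {d : ℕ} {E : Type*} [NormedAddCommGroup E] {g : (Fin d → ℝ) → E}
    (hg : Continuous g) (A : ℝ) (h : ∫ x, ‖g x‖ ∂(tor d) ≤ A) :
    eLpNorm g 1 (tor d) ≤ ENNReal.ofReal A := by
  rw [eLpNorm_one_eq_lintegral_enorm]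
  have h1 := ofReal_integral_norm_eq_lintegral_enorm (integrable_of_cont hg)
  rw [← h1]
  exact ENNReal.ofReal_le_ofReal h

/-- the projection of `F_r * φ` belongs to the class `W^r_2` -/
theorem MPW_mem {d : ℕ} (r : ℝ) (hr : 0 < r) (Q : Finset (Fin d → ℤ)) (φ : (Fin d → ℝ) → ℂ)
    (A : ℝ) (hA : 0 < A) (h : ∑ k ∈ Q, ‖fc φ k‖ ^ 2 ≤ A ^ 2) :
    (fun x => ((A⁻¹ : ℝ) : ℂ) * MPW r Q φ x) ∈ Wclass d ℂ r 2 := by
  have hc : Continuous fun x : Fin d → ℝ => ∑ k ∈ Q, (((A⁻¹ : ℝ) : ℂ) * fc φ k) * ex k x :=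
    continuous_finsetSum _ fun k _ =>
      continuous_const.mul (Pool.Agent.Helper84.SB.continuous_ex k)
  refine ⟨_, memLp_of_cont hc 2, ?_, ?_⟩
  · have h1 := eLpNorm_two_le hc 1 zero_le_one ?_
    · simpa using h1
    · rw [poly_l2]
      have h2 : ∀ k ∈ Q, ‖((A⁻¹ : ℝ) : ℂ) * fc φ k‖ ^ 2 = (A⁻¹) ^ 2 * ‖fc φ k‖ ^ 2 := by
        intro k _
        rw [norm_mul, mul_pow, Complex.norm_real, Real.norm_eq_abs, sq_abs]
      rw [Finset.sum_congr rfl h2, ← Finset.mul_sum]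
      calc (A⁻¹) ^ 2 * ∑ k ∈ Q, ‖fc φ k‖ ^ 2 ≤ (A⁻¹) ^ 2 * A ^ 2 :=
            mul_le_mul_of_nonneg_left h (by positivity)
        _ = 1 ^ 2 := by
          rw [← mul_pow, inv_mul_cancel₀ hA.ne']
  · funext x
    unfold MPW
    have h1 : ∀ y, (Fker r (x - y) : ℂ) * ∑ k ∈ Q, (((A⁻¹ : ℝ) : ℂ) * fc φ k) * ex k y =
        ∑ k ∈ Q, (((A⁻¹ : ℝ) : ℂ) * fc φ k) * ((Fker r (x - y) : ℂ) * ex k y) := by
      intro y
      rw [Finset.mul_sum]
      refine Finset.sum_congr rfl fun k _ => ?_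
      ring
    have h2 : ∫ y, (Fker r (x - y) : ℂ) * ∑ k ∈ Q, (((A⁻¹ : ℝ) : ℂ) * fc φ k) * ex k y ∂(tor d) =
        ∑ k ∈ Q, (((A⁻¹ : ℝ) : ℂ) * fc φ k) * ((∏ j, bmul r r (k j)) * ex k x) := by
      simp_rw [h1]
      rw [integral_finsetSum _ fun k _ => (Fker_mul_integrable d r hr x
        (Pool.Agent.Helper84.SB.continuous_ex k)).const_mul _]
      refine Finset.sum_congr rfl fun k _ => ?_
      rw [integral_const_mul, conv_ex d r hr]
    refine Eq.trans ?_ h2.symm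
    rw [Finset.mul_sum]
    refine Finset.sum_congr rfl fun k _ => ?_
    ring

/-- linearity of the projection -/
theorem MPW_comb {d : ℕ} (r : ℝ) (Q : Finset (Fin d → ℤ)) (f g : (Fin d → ℝ) → ℂ)
    (hf : Continuous f) (hg : Continuous g) (a b : ℂ) (x : Fin d → ℝ) :
    MPW r Q (fun x => a * f x + b * g x) x = a * MPW r Q f x + b * MPW r Q g x := by
  unfold MPW
  rw [Finset.mul_sum, Finset.mul_sum, ← Finset.sum_add_distrib]
  refine Finset.sum_congr rfl fun k _ => ?_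
  rw [Pool.Agent.Helper5.SB.fc_comb f g (integrable_of_cont hf) (integrable_of_cont hg)]
  ring

theorem MPW_const_mul {d : ℕ} (r : ℝ) (Q : Finset (Fin d → ℤ)) (f : (Fin d → ℝ) → ℂ)
    (a : ℂ) (x : Fin d → ℝ) :
    MPW r Q (fun x => a * f x) x = a * MPW r Q f x := by
  unfold MPW
  rw [Finset.mul_sum]
  refine Finset.sum_congr rfl fun k _ => ?_
  have h : fc (fun x => a * f x) k = a * fc f k := by
    unfold fc
    rw [← integral_const_mul]
    refine integral_congr_ae (Filter.Eventually.of_forall fun x => ?_)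
    simp only
    ring
  rw [h]
  ring

end Pool.Agent.Helper60.SB
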