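import Pool.Agent.Helper60.SB.P11a

/-!
Module P11, part b: typical sign patterns.
-/

open Finset MeasureTheory
open scoped ENNReal Real

namespace Pool.Agent.Helper60.SB

open Pool.Agent.Helper84.SB (integrable_of_cont prob_tor continuous_an continuous_sa continuous_rp
  continuous_nl)

/-- Markov's inequality for averages over sign patterns -/
theorem av_markov {ι : Type} [Fintype ι] [DecidableEq ι] (f : (ι → Bool) → ℝ)
    (hf : ∀ β, 0 ≤ f β) (A : ℝ) (hA : 0 < A) (h : av f ≤ A) :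
    ((univ.filter fun β => 8 * A < f β).card : ℝ) ≤ 2 ^ Fintype.card ι / 8 := by
  have hN : (0 : ℝ) < 2 ^ Fintype.card ι := by positivity
  unfold av at h
  rw [div_le_iff₀ hN] at h
  have h1 : ((univ.filter fun β => 8 * A < f β).card : ℝ) * (8 * A) ≤ ∑ β, f β := by
    calc ((univ.filter fun β => 8 * A < f β).card : ℝ) * (8 * A) =
          ∑ _β ∈ univ.filter (fun β => 8 * A < f β), 8 * A := by
          rw [Finset.sum_const, nsmul_eq_mul]
      _ ≤ ∑ β ∈ univ.filter (fun β => 8 * A < f β), f β :=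
          Finset.sum_le_sum fun β hβ => (Finset.mem_filter.1 hβ).2.le
      _ ≤ ∑ β, f β :=
          Finset.sum_le_sum_of_subset_of_nonneg (Finset.filter_subset _ _) fun β _ _ => hf β
  have h2 : ((univ.filter fun β => 8 * A < f β).card : ℝ) * (8 * A) ≤
      (2 ^ Fintype.card ι / 8) * (8 * A) := by
    calc _ ≤ A * 2 ^ Fintype.card ι := h1.trans h
      _ = _ := by ring
  exact le_of_mul_le_mul_right h2 (by positivity)

theorem typical {ι : Type} [Fintype ι] [DecidableEq ι] (f₁ f₂ f₃ : (ι → Bool) → ℝ)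
    (h₁ : ∀ β, 0 ≤ f₁ β) (h₂ : ∀ β, 0 ≤ f₂ β) (h₃ : ∀ β, 0 ≤ f₃ β) (A₁ A₂ A₃ : ℝ)
    (hA₁ : 0 < A₁) (hA₂ : 0 < A₂) (hA₃ : 0 < A₃) (k₁ : av f₁ ≤ A₁) (k₂ : av f₂ ≤ A₂)
    (k₃ : av f₃ ≤ A₃) :
    (1 / 2 : ℝ) * 2 ^ Fintype.card ι ≤
      ((univ.filter fun β => f₁ β ≤ 8 * A₁ ∧ f₂ β ≤ 8 * A₂ ∧ f₃ β ≤ 8 * A₃).card : ℝ) := by
  classical
  have e1 := av_markov f₁ h₁ A₁ hA₁ k₁
  have e2 := av_markov f₂ h₂ A₂ hA₂ k₂
  have e3 := av_markov f₃ h₃ A₃ hA₃ k₃
  have hsub : (univ : Finset (ι → Bool)) ⊆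
      (univ.filter fun β => f₁ β ≤ 8 * A₁ ∧ f₂ β ≤ 8 * A₂ ∧ f₃ β ≤ 8 * A₃) ∪
      ((univ.filter fun β => 8 * A₁ < f₁ β) ∪ ((univ.filter fun β => 8 * A₂ < f₂ β) ∪
        (univ.filter fun β => 8 * A₃ < f₃ β))) := by
    intro β _
    simp only [Finset.mem_union, Finset.mem_filter, Finset.mem_univ, true_and]
    by_cases g1 : f₁ β ≤ 8 * A₁
    · by_cases g2 : f₂ β ≤ 8 * A₂
      · by_cases g3 : f₃ β ≤ 8 * A₃
        · exact Or.inl ⟨g1, g2, g3⟩
        · exact Or.inr (Or.inr (Or.inr (not_le.1 g3)))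
      · exact Or.inr (Or.inr (Or.inl (not_le.1 g2)))
    · exact Or.inr (Or.inl (not_le.1 g1))
  have hcard : (Finset.univ : Finset (ι → Bool)).card = 2 ^ Fintype.card ι := by
    rw [Finset.card_univ, Fintype.card_fun, Fintype.card_bool]
  have h5 := (Finset.card_le_card hsub).trans ((Finset.card_union_le _ _).trans
    (Nat.add_le_add_left ((Finset.card_union_le _ _).trans
      (Nat.add_le_add_left (Finset.card_union_le _ _) _)) _))
  rw [hcard] at h5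
  have h6 : (2 : ℝ) ^ Fintype.card ι ≤
      ((univ.filter fun β => f₁ β ≤ 8 * A₁ ∧ f₂ β ≤ 8 * A₂ ∧ f₃ β ≤ 8 * A₃).card : ℝ) +
      (((univ.filter fun β => 8 * A₁ < f₁ β).card : ℝ) +
        (((univ.filter fun β => 8 * A₂ < f₂ β).card : ℝ) +
        ((univ.filter fun β => 8 * A₃ < f₃ β).card : ℝ))) := by
    exact_mod_cast h5
  have hN : (0 : ℝ) < 2 ^ Fintype.card ι := by positivity
  linarith

/-- the linear part -/
noncomputable def lin {e m : ℕ} (v : Box e m → (Fin (e + 2) → ℝ) → ℝ) (U : ℝ) (β : Box e m → Bool)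
    (x : Fin (e + 2) → ℝ) : ℝ := ∑ R, sg (β R) * an v U R x

/-- the difference of the Riesz product and its linear part -/
noncomputable def erz {e m : ℕ} (v : Box e m → (Fin (e + 2) → ℝ) → ℝ) (U : ℝ) (β : Box e m → Bool)
    (x : Fin (e + 2) → ℝ) : ℝ := rp blk0 (an v U) β x - 1 / 2 * lin v U β x

theorem continuous_lin {e m : ℕ} {v : Box e m → (Fin (e + 2) → ℝ) → ℝ}
    (hv : ∀ R, Continuous (v R)) (U : ℝ) (β : Box e m → Bool) : Continuous (lin v U β) := by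
  unfold lin
  exact continuous_finsetSum _ fun R _ => continuous_const.mul (continuous_an hv U R)

theorem continuous_erz {e m : ℕ} {v : Box e m → (Fin (e + 2) → ℝ) → ℝ}
    (hv : ∀ R, Continuous (v R)) (U : ℝ) (β : Box e m → Bool) : Continuous (erz v U β) := by
  unfold erz
  exact (continuous_rp hv U β).sub (continuous_const.mul (continuous_lin hv U β))

theorem ne_zero_of_mem_Qmid {d N J : ℕ} (hJ : J < N) {k : Fin d → ℤ} (hk : k ∈ Qmid d N J) :
    k ≠ 0 := by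
  unfold Qmid at hk
  rw [Finset.mem_biUnion] at hk
  obtain ⟨l, hl, hk⟩ := hk
  rw [Finset.mem_Icc] at hl
  unfold Qm at hk
  rw [Finset.mem_filter] at hk
  intro h0
  subst h0
  have h1 : ∑ j : Fin d, lev (0 : Fin d → ℤ) j = 0 := by
    refine Finset.sum_eq_zero fun j _ => ?_
    unfold lev
    simp
  omega

/-- the energy of `erz` in the middle frequencies, for one sign pattern -/
theorem erz_energy_le {e m : ℕ} (v : Box e m → (Fin (e + 2) → ℝ) → ℝ)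
    (hv : ∀ R, Continuous (v R)) (U : ℝ) (β : Box e m → Bool) (Q : Finset (Fin (e + 2) → ℤ))
    (hQ : ∀ k ∈ Q, k ≠ 0) :
    ∑ k ∈ Q, ‖fc (fun x => ((erz v U β x : ℝ) : ℂ)) k‖ ^ 2 ≤
      2 * ∑ k ∈ Q, ‖fc (fun x => ((nl blk0 (an v U) β x : ℝ) : ℂ)) k‖ ^ 2 +
      1 / 2 * ∫ x, (∑ R, sg (β R) * (sa blk0 (an v U) R x - an v U R x)) ^ 2 ∂(tor (e + 2)) := by
  set S : (Fin (e + 2) → ℝ) → ℝ := fun x =>
    ∑ R, sg (β R) * (sa blk0 (an v U) R x - an v U R x) with hS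
  have hSc : Continuous S := continuous_finsetSum _ fun R _ => continuous_const.mul
    ((continuous_sa hv U R).sub (continuous_an hv U R))
  have hScc : Continuous fun x => ((S x : ℝ) : ℂ) := Complex.continuous_ofReal.comp hSc
  have hnc : Continuous fun x => ((nl blk0 (an v U) β x : ℝ) : ℂ) :=
    Complex.continuous_ofReal.comp (continuous_nl hv U β)
  have hE : ∀ x, erz v U β x = nl blk0 (an v U) β x + (1 + 1 / 2 * S x) := by
    intro x
    have h1 : S x = ∑ R, sg (β R) * sa blk0 (an v U) R x - lin v U β x := by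
      rw [hS]
      simp only [lin]
      rw [← Finset.sum_sub_distrib]
      refine Finset.sum_congr rfl fun R _ => ?_
      ring
    rw [h1]
    unfold erz nl
    ring
  have hfc : ∀ k ∈ Q, fc (fun x => ((erz v U β x : ℝ) : ℂ)) k =
      fc (fun x => ((nl blk0 (an v U) β x : ℝ) : ℂ)) k + (1 / 2 : ℂ) * fc (fun x => ((S x : ℝ) : ℂ)) k := by
    intro k hk
    have h1 : (fun x => ((erz v U β x : ℝ) : ℂ)) = fun x =>
        (1 : ℂ) * ((nl blk0 (an v U) β x : ℝ) : ℂ) + 1 * (1 * (1 : ℂ) + (1 / 2 : ℂ) * ((S x : ℝ) : ℂ)) := by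
      funext x
      rw [hE x]
      push_cast
      ring
    rw [h1, Pool.Agent.Helper5.SB.fc_comb (fun x => ((nl blk0 (an v U) β x : ℝ) : ℂ))
      (fun x => 1 * (1 : ℂ) + (1 / 2 : ℂ) * ((S x : ℝ) : ℂ)) (integrable_of_cont hnc)
      (integrable_of_cont (by fun_prop)),
      Pool.Agent.Helper5.SB.fc_comb (fun _ => (1 : ℂ)) (fun x => ((S x : ℝ) : ℂ))
      (integrable_of_cont continuous_const) (integrable_of_cont hScc)]
    have h2 : fc (fun _ : Fin (e + 2) → ℝ => (1 : ℂ)) k = 0 := by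
      unfold fc
      simp only [one_mul]
      rw [Pool.Agent.Helper5.SB.integral_ex, if_neg]
      intro h3
      exact hQ k hk (neg_eq_zero.1 h3)
    rw [h2]
    ring
  have hb : ∑ k ∈ Q, ‖fc (fun x => ((S x : ℝ) : ℂ)) k‖ ^ 2 ≤ ∫ x, S x ^ 2 ∂(tor (e + 2)) := by
    have h1 := Pool.Agent.Helper30.SB.bessel_gen (fun x => ((S x : ℝ) : ℂ)) (memLp_of_cont hScc 2) Q
    refine h1.trans (le_of_eq ?_)
    refine integral_congr_ae (Filter.Eventually.of_forall fun x => ?_)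
    simp only
    rw [Complex.norm_real, Real.norm_eq_abs, sq_abs]
  calc ∑ k ∈ Q, ‖fc (fun x => ((erz v U β x : ℝ) : ℂ)) k‖ ^ 2 ≤
      ∑ k ∈ Q, (2 * ‖fc (fun x => ((nl blk0 (an v U) β x : ℝ) : ℂ)) k‖ ^ 2 +
        1 / 2 * ‖fc (fun x => ((S x : ℝ) : ℂ)) k‖ ^ 2) := by
        refine Finset.sum_le_sum fun k hk => ?_
        rw [hfc k hk]
        have h1 : ‖fc (fun x => ((nl blk0 (an v U) β x : ℝ) : ℂ)) k +
            (1 / 2 : ℂ) * fc (fun x => ((S x : ℝ) : ℂ)) k‖ ≤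
            ‖fc (fun x => ((nl blk0 (an v U) β x : ℝ) : ℂ)) k‖ +
            1 / 2 * ‖fc (fun x => ((S x : ℝ) : ℂ)) k‖ := by
          refine (norm_add_le _ _).trans (le_of_eq ?_)
          rw [norm_mul]
          norm_num
        have h2 := norm_nonneg (fc (fun x => ((nl blk0 (an v U) β x : ℝ) : ℂ)) k)
        have h3 := norm_nonneg (fc (fun x => ((S x : ℝ) : ℂ)) k)
        calc _ ≤ (‖fc (fun x => ((nl blk0 (an v U) β x : ℝ) : ℂ)) k‖ +
            1 / 2 * ‖fc (fun x => ((S x : ℝ) : ℂ)) k‖) ^ 2 :=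
              pow_le_pow_left₀ (norm_nonneg _) h1 2
          _ ≤ _ := by
            nlinarith [sq_nonneg (‖fc (fun x => ((nl blk0 (an v U) β x : ℝ) : ℂ)) k‖ -
              1 / 2 * ‖fc (fun x => ((S x : ℝ) : ℂ)) k‖)]
    _ = 2 * ∑ k ∈ Q, ‖fc (fun x => ((nl blk0 (an v U) β x : ℝ) : ℂ)) k‖ ^ 2 +
        1 / 2 * ∑ k ∈ Q, ‖fc (fun x => ((S x : ℝ) : ℂ)) k‖ ^ 2 := by
        rw [Finset.sum_add_distrib, ← Finset.mul_sum, ← Finset.mul_sum]
    _ ≤ _ := by gcongr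

theorem av_mono' {ι : Type} [Fintype ι] [DecidableEq ι] {f g : (ι → Bool) → ℝ}
    (h : ∀ β, f β ≤ g β) : av f ≤ av g := by
  unfold av
  exact div_le_div_of_nonneg_right (Finset.sum_le_sum fun β _ => h β) (by positivity)

theorem av_comb {ι : Type} [Fintype ι] [DecidableEq ι] (f g : (ι → Bool) → ℝ) (a b : ℝ) :
    av (fun β => a * f β + b * g β) = a * av f + b * av g := by
  unfold av
  rw [Finset.sum_add_distrib, ← Finset.mul_sum, ← Finset.mul_sum]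
  ring

/-- many typical sign patterns -/
theorem many_typical {e m : ℕ} (v : Box e m → (Fin (e + 2) → ℝ) → ℝ)
    (hv : ∀ R, Continuous (v R)) (U : ℝ) (Q : Finset (Fin (e + 2) → ℤ))
    (hQ : ∀ k ∈ Q, k ≠ 0) (A₂ A₃ : ℝ) (hA₂ : 0 < A₂) (hA₃ : 0 < A₃)
    (h2 : av (fun β : Box e m → Bool => ∫ x, (∑ R, sg (β R) * an v U R x) ^ 2 ∂(tor (e + 2))) ≤ A₂)
    (h3 : av (fun β : Box e m → Bool =>
      ∫ x, (∑ R, sg (β R) * (sa blk0 (an v U) R x - an v U R x)) ^ 2 ∂(tor (e + 2))) ≤ A₃)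
    (h4 : av (fun β : Box e m → Bool => ∑ k ∈ Q,
        ‖fc (fun x => ((nl blk0 (an v U) β x : ℝ) : ℂ)) k‖ ^ 2) ≤ A₃ / 4)
    (hav : ∀ x, av (fun β : Box e m → Bool => rp blk0 (an v U) β x) = 1)
    (hrp : ∀ β x, 0 ≤ rp blk0 (an v U) β x) :
    (1 / 2 : ℝ) * 2 ^ Fintype.card (Box e m) ≤
      ((univ.filter fun β : Box e m → Bool =>
        ∫ x, rp blk0 (an v U) β x ∂(tor (e + 2)) ≤ 8 ∧
        ∫ x, lin v U β x ^ 2 ∂(tor (e + 2)) ≤ 8 * A₂ ∧
        ∑ k ∈ Q, ‖fc (fun x => ((erz v U β x : ℝ) : ℂ)) k‖ ^ 2 ≤ 8 * A₃).card : ℝ) := by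
  have := prob_tor (e + 2)
  have h := typical (fun β : Box e m → Bool => ∫ x, rp blk0 (an v U) β x ∂(tor (e + 2)))
    (fun β => ∫ x, lin v U β x ^ 2 ∂(tor (e + 2)))
    (fun β => ∑ k ∈ Q, ‖fc (fun x => ((erz v U β x : ℝ) : ℂ)) k‖ ^ 2)
    (fun β => integral_nonneg fun x => hrp β x) (fun β => integral_nonneg fun x => sq_nonneg _)
    (fun β => Finset.sum_nonneg fun k _ => sq_nonneg _) 1 A₂ A₃ one_pos hA₂ hA₃ ?_ h2 ?_
  · simpa using h
  · rw [Pool.Agent.Helper84.SB.av_integral (fun β x => rp blk0 (an v U) β x)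
      (fun β => continuous_rp hv U β)]
    simp_rw [hav]
    simp
  · refine (av_mono' fun β => erz_energy_le v hv U β Q hQ).trans ?_
    rw [av_comb]
    linarith

end Pool.Agent.Helper60.SB
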