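import Pool.Agent.Helper60.SB.P11b
import Pool.Agent.Helper16.SB.Entropy

/-!
Module P11, part c: the identity behind the lower bound, cells.
-/

open Finset MeasureTheory
open scoped ENNReal Real

namespace Pool.Agent.Helper60.SB

open Pool.Agent.Helper84.SB (integrable_of_cont prob_tor continuous_an continuous_sa continuous_rp
  continuous_nl)

/-- convolution with the kernel -/
noncomputable def cvl {d : ℕ} (r : ℝ) (φ : (Fin d → ℝ) → ℂ) (x : Fin d → ℝ) : ℂ :=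
  ∫ y, (Fker r (x - y) : ℂ) * φ y ∂(tor d)

theorem cvl_const_mul {d : ℕ} (r : ℝ) (φ : (Fin d → ℝ) → ℂ) (a : ℂ) (x : Fin d → ℝ) :
    cvl r (fun x => a * φ x) x = a * cvl r φ x := by
  unfold cvl
  rw [← integral_const_mul]
  refine integral_congr_ae (Filter.Eventually.of_forall fun y => ?_)
  simp only
  ring

theorem cvl_real {d : ℕ} (r : ℝ) (g : (Fin d → ℝ) → ℝ) (x : Fin d → ℝ) :
    cvl r (fun x => ((g x : ℝ) : ℂ)) x = ((∫ y, Fker r (x - y) * g y ∂(tor d) : ℝ) : ℂ) := by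
  unfold cvl
  rw [← integral_complex_ofReal]
  refine integral_congr_ae (Filter.Eventually.of_forall fun y => ?_)
  simp only
  push_cast
  rfl

/-- the convolution of the linear part -/
theorem cvl_lin {e m : ℕ} (r : ℝ) (hr : 0 < r) (u : ℝ → ℝ)
    (v : Box e m → (Fin (e + 2) → ℝ) → ℝ) (hv : ∀ R, Continuous (v R))
    (hvc : ∀ (R : Box e m) x, ∫ y, Fker r (x - y) * v R y ∂(tor (e + 2)) =
        (2 : ℝ) ^ (-(r * (((e : ℝ) + 2) * m))) * bxp u R x) (U : ℝ) (β : Box e m → Bool)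
    (x : Fin (e + 2) → ℝ) :
    ∫ y, Fker r (x - y) * lin v U β y ∂(tor (e + 2)) =
      (2 : ℝ) ^ (-(r * (((e : ℝ) + 2) * m))) / (U * Real.sqrt ((m : ℝ) ^ e)) *
        ∑ R, sg (β R) * bxp u R x := by
  have hi : ∀ R : Box e m, Integrable (fun y => Fker r (x - y) * v R y) (tor (e + 2)) := by
    intro R
    have h1 := Fker_mul_integrable (e + 2) r hr x
      (Complex.continuous_ofReal.comp (hv R))
    have h2 := h1.re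
    refine h2.congr (Filter.Eventually.of_forall fun y => ?_)
    simp only [Function.comp]
    rw [← Complex.ofReal_mul]
    exact Complex.ofReal_re _
  have h1 : ∀ y, Fker r (x - y) * lin v U β y =
      ∑ R, (sg (β R) / (U * Real.sqrt ((m : ℝ) ^ e))) * (Fker r (x - y) * v R y) := by
    intro y
    unfold lin an
    rw [Finset.mul_sum]
    refine Finset.sum_congr rfl fun R _ => ?_
    ring
  simp_rw [h1]
  rw [integral_finsetSum _ fun R _ => (hi R).const_mul _, Finset.mul_sum]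
  refine Finset.sum_congr rfl fun R _ => ?_
  rw [integral_const_mul, hvc]
  ring

/-- the identity behind the lower bound -/
theorem lin_identity {e m : ℕ} (r : ℝ) (v : Box e m → (Fin (e + 2) → ℝ) → ℝ)
    (hv : ∀ R, Continuous (v R)) (U : ℝ) (β : Box e m → Bool) (Q : Finset (Fin (e + 2) → ℤ))
    (κ₂ κ₃ : ℝ) (hκ₂ : 0 < κ₂) (hκ₃ : 0 < κ₃) (x : Fin (e + 2) → ℝ) :
    ((1 / 2 * ∫ y, Fker r (x - y) * lin v U β y ∂(tor (e + 2)) : ℝ) : ℂ) =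
      ((κ₂ / 2 : ℝ) : ℂ) * (cvl r (fun x => ((κ₂⁻¹ : ℝ) : ℂ) * ((lin v U β x : ℝ) : ℂ)) x -
        MPW r Q (fun x => ((κ₂⁻¹ : ℝ) : ℂ) * ((lin v U β x : ℝ) : ℂ)) x) +
      8 * ((∫ y, Fker r (x - y) * (1 / 8 * rp blk0 (an v U) β y) ∂(tor (e + 2)) : ℝ) : ℂ) -
      8 * (cvl r (fun x => ((1 / 8 : ℝ) : ℂ) * ((rp blk0 (an v U) β x : ℝ) : ℂ)) x -
        MPW r Q (fun x => ((1 / 8 : ℝ) : ℂ) * ((rp blk0 (an v U) β x : ℝ) : ℂ)) x) -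
      (κ₃ : ℂ) * (((κ₃⁻¹ : ℝ) : ℂ) * MPW r Q (fun x => ((erz v U β x : ℝ) : ℂ)) x) := by
  have h1 : MPW r Q (fun x => ((erz v U β x : ℝ) : ℂ)) x =
      MPW r Q (fun x => ((rp blk0 (an v U) β x : ℝ) : ℂ)) x -
        1 / 2 * MPW r Q (fun x => ((lin v U β x : ℝ) : ℂ)) x := by
    have h2 := MPW_comb r Q (fun x => ((rp blk0 (an v U) β x : ℝ) : ℂ))
      (fun x => ((lin v U β x : ℝ) : ℂ))
      (Complex.continuous_ofReal.comp (continuous_rp hv U β))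
      (Complex.continuous_ofReal.comp (continuous_lin hv U β)) 1 (-(1 / 2)) x
    have h3 : (fun x => ((erz v U β x : ℝ) : ℂ)) = fun x =>
        (1 : ℂ) * ((rp blk0 (an v U) β x : ℝ) : ℂ) + (-(1 / 2)) * ((lin v U β x : ℝ) : ℂ) := by
      funext y
      unfold erz
      push_cast
      ring
    rw [h3, h2]
    ring
  have h2 : ((∫ y, Fker r (x - y) * (1 / 8 * rp blk0 (an v U) β y) ∂(tor (e + 2)) : ℝ) : ℂ) =
      1 / 8 * cvl r (fun x => ((rp blk0 (an v U) β x : ℝ) : ℂ)) x := by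
    rw [cvl_real]
    have h3 : ∀ y, Fker r (x - y) * (1 / 8 * rp blk0 (an v U) β y) =
        1 / 8 * (Fker r (x - y) * rp blk0 (an v U) β y) := fun y => by ring
    simp_rw [h3]
    rw [integral_const_mul]
    push_cast
    ring
  rw [cvl_const_mul, cvl_const_mul, MPW_const_mul, MPW_const_mul, h1, h2,
    cvl_real r (lin v U β)]
  have h4 : (κ₂ : ℂ) ≠ 0 := by exact_mod_cast hκ₂.ne'
  have h5 : (κ₃ : ℂ) ≠ 0 := by exact_mod_cast hκ₃.ne'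
  push_cast
  field_simp
  ring

/-- closeness of two functions in the same cell -/
theorem close_of_cell {e m : ℕ} (r : ℝ) (v : Box e m → (Fin (e + 2) → ℝ) → ℝ)
    (hv : ∀ R, Continuous (v R)) (U : ℝ) (β β' : Box e m → Bool) (Q : Finset (Fin (e + 2) → ℤ))
    (κ₂ κ₃ b ε₁ ε₂ ε₃ : ℝ) (hκ₂ : 0 < κ₂) (hκ₃ : 0 < κ₃) (x : Fin (e + 2) → ℝ)
    (h0 : |(∫ y, Fker r (x - y) * (1 / 8 * rp blk0 (an v U) β y) ∂(tor (e + 2))) -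
      ∫ y, Fker r (x - y) * (1 / 8 * rp blk0 (an v U) β' y) ∂(tor (e + 2))| ≤ 2 * b)
    (h1 : ‖(cvl r (fun x => ((1 / 8 : ℝ) : ℂ) * ((rp blk0 (an v U) β x : ℝ) : ℂ)) x -
        MPW r Q (fun x => ((1 / 8 : ℝ) : ℂ) * ((rp blk0 (an v U) β x : ℝ) : ℂ)) x) -
      (cvl r (fun x => ((1 / 8 : ℝ) : ℂ) * ((rp blk0 (an v U) β' x : ℝ) : ℂ)) x -
        MPW r Q (fun x => ((1 / 8 : ℝ) : ℂ) * ((rp blk0 (an v U) β' x : ℝ) : ℂ)) x)‖ ≤ 2 * ε₁)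
    (h2 : ‖(cvl r (fun x => ((κ₂⁻¹ : ℝ) : ℂ) * ((lin v U β x : ℝ) : ℂ)) x -
        MPW r Q (fun x => ((κ₂⁻¹ : ℝ) : ℂ) * ((lin v U β x : ℝ) : ℂ)) x) -
      (cvl r (fun x => ((κ₂⁻¹ : ℝ) : ℂ) * ((lin v U β' x : ℝ) : ℂ)) x -
        MPW r Q (fun x => ((κ₂⁻¹ : ℝ) : ℂ) * ((lin v U β' x : ℝ) : ℂ)) x)‖ ≤ 2 * ε₂)
    (h3 : ‖((κ₃⁻¹ : ℝ) : ℂ) * MPW r Q (fun x => ((erz v U β x : ℝ) : ℂ)) x -
      ((κ₃⁻¹ : ℝ) : ℂ) * MPW r Q (fun x => ((erz v U β' x : ℝ) : ℂ)) x‖ ≤ 2 * ε₃) :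
    |(∫ y, Fker r (x - y) * lin v U β y ∂(tor (e + 2))) -
      ∫ y, Fker r (x - y) * lin v U β' y ∂(tor (e + 2))| ≤
      2 * κ₂ * ε₂ + 32 * b + 32 * ε₁ + 4 * κ₃ * ε₃ := by
  have e1 := lin_identity r v hv U β Q κ₂ κ₃ hκ₂ hκ₃ x
  have e2 := lin_identity r v hv U β' Q κ₂ κ₃ hκ₂ hκ₃ x
  set a := ∫ y, Fker r (x - y) * lin v U β y ∂(tor (e + 2)) with ha
  set a' := ∫ y, Fker r (x - y) * lin v U β' y ∂(tor (e + 2)) with ha'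
  set p := ∫ y, Fker r (x - y) * (1 / 8 * rp blk0 (an v U) β y) ∂(tor (e + 2)) with hp
  set p' := ∫ y, Fker r (x - y) * (1 / 8 * rp blk0 (an v U) β' y) ∂(tor (e + 2)) with hp'
  set s := cvl r (fun x => ((1 / 8 : ℝ) : ℂ) * ((rp blk0 (an v U) β x : ℝ) : ℂ)) x -
        MPW r Q (fun x => ((1 / 8 : ℝ) : ℂ) * ((rp blk0 (an v U) β x : ℝ) : ℂ)) x with hs
  set s' := cvl r (fun x => ((1 / 8 : ℝ) : ℂ) * ((rp blk0 (an v U) β' x : ℝ) : ℂ)) x -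
        MPW r Q (fun x => ((1 / 8 : ℝ) : ℂ) * ((rp blk0 (an v U) β' x : ℝ) : ℂ)) x with hs'
  set t := cvl r (fun x => ((κ₂⁻¹ : ℝ) : ℂ) * ((lin v U β x : ℝ) : ℂ)) x -
        MPW r Q (fun x => ((κ₂⁻¹ : ℝ) : ℂ) * ((lin v U β x : ℝ) : ℂ)) x with ht
  set t' := cvl r (fun x => ((κ₂⁻¹ : ℝ) : ℂ) * ((lin v U β' x : ℝ) : ℂ)) x -
        MPW r Q (fun x => ((κ₂⁻¹ : ℝ) : ℂ) * ((lin v U β' x : ℝ) : ℂ)) x with ht'
  set w := ((κ₃⁻¹ : ℝ) : ℂ) * MPW r Q (fun x => ((erz v U β x : ℝ) : ℂ)) x with hw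
  set w' := ((κ₃⁻¹ : ℝ) : ℂ) * MPW r Q (fun x => ((erz v U β' x : ℝ) : ℂ)) x with hw'
  have e3 : (((a - a') / 2 : ℝ) : ℂ) = ((κ₂ / 2 : ℝ) : ℂ) * (t - t') + 8 * ((p - p' : ℝ) : ℂ) -
      8 * (s - s') - (κ₃ : ℂ) * (w - w') := by
    have : (((a - a') / 2 : ℝ) : ℂ) = ((1 / 2 * a : ℝ) : ℂ) - ((1 / 2 * a' : ℝ) : ℂ) := by
      push_cast; ring
    rw [this, e1, e2]
    push_cast
    ring
  have e4 : ‖(((a - a') / 2 : ℝ) : ℂ)‖ ≤ κ₂ / 2 * (2 * ε₂) + 8 * (2 * b) + 8 * (2 * ε₁) +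
      κ₃ * (2 * ε₃) := by
    rw [e3]
    have f1 : ‖((κ₂ / 2 : ℝ) : ℂ) * (t - t')‖ ≤ κ₂ / 2 * (2 * ε₂) := by
      rw [norm_mul, Complex.norm_real, Real.norm_eq_abs, abs_of_pos (by positivity)]
      exact mul_le_mul_of_nonneg_left h2 (by positivity)
    have f2 : ‖(8 : ℂ) * ((p - p' : ℝ) : ℂ)‖ ≤ 8 * (2 * b) := by
      rw [norm_mul, Complex.norm_real, Real.norm_eq_abs]
      norm_num
      linarith
    have f3 : ‖(8 : ℂ) * (s - s')‖ ≤ 8 * (2 * ε₁) := by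
      rw [norm_mul]
      norm_num
      linarith
    have f4 : ‖(κ₃ : ℂ) * (w - w')‖ ≤ κ₃ * (2 * ε₃) := by
      rw [norm_mul, Complex.norm_real, Real.norm_eq_abs, abs_of_pos hκ₃]
      exact mul_le_mul_of_nonneg_left h3 hκ₃.le
    calc _ ≤ ‖((κ₂ / 2 : ℝ) : ℂ) * (t - t')‖ + ‖(8 : ℂ) * ((p - p' : ℝ) : ℂ)‖ +
          ‖(8 : ℂ) * (s - s')‖ + ‖(κ₃ : ℂ) * (w - w')‖ := by
          refine (norm_sub_le _ _).trans (add_le_add_left ?_ _)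
          refine (norm_sub_le _ _).trans (add_le_add_left ?_ _)
          exact norm_add_le _ _
      _ ≤ _ := by linarith
  rw [Complex.norm_real, Real.norm_eq_abs, abs_div, abs_of_pos (zero_lt_two' ℝ)] at e4
  linarith

/-- pigeonhole for a product of four families of cells -/
theorem pigeon {B T₁ T₂ T₃ T₄ : Type} (G : Finset B) (t₁ : Finset T₁)
    (t₂ : Finset T₂) (t₃ : Finset T₃) (t₄ : Finset T₄) (P₁ : B → T₁ → Prop) (P₂ : B → T₂ → Prop)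
    (P₃ : B → T₃ → Prop) (P₄ : B → T₄ → Prop) (h₁ : ∀ β ∈ G, ∃ y ∈ t₁, P₁ β y)
    (h₂ : ∀ β ∈ G, ∃ y ∈ t₂, P₂ β y) (h₃ : ∀ β ∈ G, ∃ y ∈ t₃, P₃ β y)
    (h₄ : ∀ β ∈ G, ∃ y ∈ t₄, P₄ β y) (K : ℝ)
    (hK : ∀ y₁ ∈ t₁, ∀ y₂ ∈ t₂, ∀ y₃ ∈ t₃, ∀ y₄ ∈ t₄, ∀ G' ⊆ G,
      (∀ β ∈ G', P₁ β y₁ ∧ P₂ β y₂ ∧ P₃ β y₃ ∧ P₄ β y₄) → (G'.card : ℝ) ≤ K) :
    (G.card : ℝ) ≤ t₁.card * (t₂.card * (t₃.card * t₄.card)) * K := by
  classical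
  rcases G.eq_empty_or_nonempty with hG | ⟨β₀, hβ₀⟩
  · subst hG
    by_cases hK0 : 0 ≤ K
    · simp only [Finset.card_empty, Nat.cast_zero]
      positivity
    · rcases t₁.eq_empty_or_nonempty with h | ⟨y₁, hy₁⟩
      · simp [h]
      rcases t₂.eq_empty_or_nonempty with h | ⟨y₂, hy₂⟩
      · simp [h]
      rcases t₃.eq_empty_or_nonempty with h | ⟨y₃, hy₃⟩
      · simp [h]
      rcases t₄.eq_empty_or_nonempty with h | ⟨y₄, hy₄⟩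
      · simp [h]
      have := hK y₁ hy₁ y₂ hy₂ y₃ hy₃ y₄ hy₄ ∅ (Finset.empty_subset _)
        (fun β hβ => absurd hβ (Finset.notMem_empty β))
      simp only [Finset.card_empty, Nat.cast_zero] at this
      exact absurd this hK0
  have n₁ : Nonempty T₁ := let ⟨y, _⟩ := h₁ β₀ hβ₀; ⟨y⟩
  have n₂ : Nonempty T₂ := let ⟨y, _⟩ := h₂ β₀ hβ₀; ⟨y⟩
  have n₃ : Nonempty T₃ := let ⟨y, _⟩ := h₃ β₀ hβ₀; ⟨y⟩
  have n₄ : Nonempty T₄ := let ⟨y, _⟩ := h₄ β₀ hβ₀; ⟨y⟩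
  choose! f₁ hf₁ g₁ using h₁
  choose! f₂ hf₂ g₂ using h₂
  choose! f₃ hf₃ g₃ using h₃
  choose! f₄ hf₄ g₄ using h₄
  have hmaps : ∀ β ∈ G, (f₁ β, f₂ β, f₃ β, f₄ β) ∈ t₁ ×ˢ (t₂ ×ˢ (t₃ ×ˢ t₄)) := by
    intro β hβ
    simp only [Finset.mem_product]
    exact ⟨hf₁ β hβ, hf₂ β hβ, hf₃ β hβ, hf₄ β hβ⟩
  have h5 := Finset.card_eq_sum_card_fiberwise hmaps
  have h6 : ∀ z ∈ t₁ ×ˢ (t₂ ×ˢ (t₃ ×ˢ t₄)),
      (((G.filter fun β => (f₁ β, f₂ β, f₃ β, f₄ β) = z).card : ℕ) : ℝ) ≤ K := by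
    rintro ⟨y₁, y₂, y₃, y₄⟩ hz
    simp only [Finset.mem_product] at hz
    refine hK y₁ hz.1 y₂ hz.2.1 y₃ hz.2.2.1 y₄ hz.2.2.2 _ (Finset.filter_subset _ _) ?_
    intro β hβ
    rw [Finset.mem_filter] at hβ
    obtain ⟨hβG, hβ⟩ := hβ
    simp only [Prod.mk.injEq] at hβ
    obtain ⟨k1, k2, k3, k4⟩ := hβ
    exact ⟨k1 ▸ g₁ β hβG, k2 ▸ g₂ β hβG, k3 ▸ g₃ β hβG, k4 ▸ g₄ β hβG⟩
  rw [h5, Nat.cast_sum]
  refine (Finset.sum_le_sum h6).trans (le_of_eq ?_)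
  rw [Finset.sum_const, nsmul_eq_mul, Finset.card_product, Finset.card_product,
    Finset.card_product]
  push_cast
  ring

end Pool.Agent.Helper60.SB
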