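import Pool.Agent.Helper60.SB.P11c
import Pool.Agent.Helper60.SB.LowerH
import Pool.Agent.Helper75.SB.P10
import Pool.Agent.Helper22.SB.OuterW
import Pool.Agent.Helper52.SB.SumOuter
import Pool.Agent.Helper32.SB.P2b
import Pool.Agent.Helper98.SB.P2a
import Pool.Agent.Helper11.SB.P3

/-!
Module P11, part d: numerical facts and the lower bound at the special integers.
-/

open Finset MeasureTheory
open scoped ENNReal Real

namespace Pool.Agent.Helper60.SB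

open Pool.Agent.Helper84.SB (integrable_of_cont prob_tor continuous_an continuous_sa continuous_rp
  continuous_nl)

theorem pack_numeric (m : ℕ) (hm : 1 ≤ m) (c₁ U D C₀ C₂ δ₁ δ₂ b X : ℝ) (hc₁ : 0 < c₁)
    (hU : 1 ≤ U) (hD : 0 < D) (hC₀ : 1 ≤ C₀) (hC₂ : 0 < C₂) (hX : 0 < X)
    (NN : ℝ) (hNN0 : 0 ≤ NN) (hNN : NN ≤ D * m)
    (hδ₁ : δ₁ ≤ c₁ / (128 * U * D)) (hδ₂ : δ₂ ≤ c₁ / (8 * Real.sqrt (8 * C₀ * D)))
    (hb : b ≤ c₁ / (128 * U) * X * m)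
    (hUX : 16 * Real.sqrt (8 * C₀ ^ 3) * C₂ * Real.sqrt D / c₁ ≤ U) :
    2 * Real.sqrt (8 * (C₀ * m / U ^ 2)) * (δ₂ * Real.sqrt NN * X) + 32 * b +
      32 * (δ₁ * NN * X) + 4 * Real.sqrt (8 * (C₀ ^ 3 * m / U ^ 6)) * (C₂ * Real.sqrt NN * X) ≤
      c₁ * m / U * X := by
  have hU0 : 0 < U := by linarith
  have hm0 : (0 : ℝ) < m := by exact_mod_cast hm
  have hC₀0 : 0 < C₀ := by linarith
  have hsN : Real.sqrt NN ≤ Real.sqrt D * Real.sqrt m := by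
    rw [← Real.sqrt_mul hD.le]
    exact Real.sqrt_le_sqrt hNN
  have hmm : Real.sqrt m * Real.sqrt m = m := Real.mul_self_sqrt hm0.le
  have hk2 : Real.sqrt (8 * (C₀ * m / U ^ 2)) = Real.sqrt (8 * C₀) * Real.sqrt m / U := by
    have h1 : 8 * (C₀ * m / U ^ 2) = (8 * C₀) * m / U ^ 2 := by ring
    rw [h1, Real.sqrt_div (by positivity), Real.sqrt_sq hU0.le, Real.sqrt_mul (by positivity)]
  have hk3 : Real.sqrt (8 * (C₀ ^ 3 * m / U ^ 6)) = Real.sqrt (8 * C₀ ^ 3) * Real.sqrt m / U ^ 3 := by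
    have h1 : 8 * (C₀ ^ 3 * m / U ^ 6) = (8 * C₀ ^ 3) * m / (U ^ 3) ^ 2 := by ring
    rw [h1, Real.sqrt_div (by positivity), Real.sqrt_sq (by positivity),
      Real.sqrt_mul (by positivity)]
  have hs8 : Real.sqrt (8 * C₀ * D) = Real.sqrt (8 * C₀) * Real.sqrt D :=
    Real.sqrt_mul (by positivity) _
  have hsC : 0 < Real.sqrt (8 * C₀) := Real.sqrt_pos.2 (by positivity)
  have hsD : 0 < Real.sqrt D := Real.sqrt_pos.2 hD
  have hsm : 0 < Real.sqrt m := Real.sqrt_pos.2 hm0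
  have hs3 : 0 < Real.sqrt (8 * C₀ ^ 3) := Real.sqrt_pos.2 (by positivity)
  have t1 : 2 * Real.sqrt (8 * (C₀ * m / U ^ 2)) * (δ₂ * Real.sqrt NN * X) ≤
      c₁ * m / U * X / 4 := by
    rw [hk2]
    have h1 : δ₂ * Real.sqrt NN ≤ c₁ / (8 * Real.sqrt (8 * C₀ * D)) * (Real.sqrt D * Real.sqrt m) :=
      (mul_le_mul_of_nonneg_right hδ₂ (Real.sqrt_nonneg _)).trans
        (mul_le_mul_of_nonneg_left hsN (by positivity))
    calc 2 * (Real.sqrt (8 * C₀) * Real.sqrt m / U) * (δ₂ * Real.sqrt NN * X) ≤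
        2 * (Real.sqrt (8 * C₀) * Real.sqrt m / U) *
          (c₁ / (8 * Real.sqrt (8 * C₀ * D)) * (Real.sqrt D * Real.sqrt m) * X) := by gcongr
      _ = c₁ * (Real.sqrt m * Real.sqrt m) / U * X / 4 := by
        rw [hs8]
        field_simp
        ring
      _ = _ := by rw [hmm]
  have t2 : 32 * b ≤ c₁ * m / U * X / 4 := by
    calc 32 * b ≤ 32 * (c₁ / (128 * U) * X * m) := by linarith
      _ = _ := by
        field_simp
        ring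
  have t3 : 32 * (δ₁ * NN * X) ≤ c₁ * m / U * X / 4 := by
    have h1 : δ₁ * NN ≤ c₁ / (128 * U * D) * (D * m) :=
      (mul_le_mul_of_nonneg_right hδ₁ hNN0).trans (mul_le_mul_of_nonneg_left hNN (by positivity))
    calc 32 * (δ₁ * NN * X) ≤ 32 * (c₁ / (128 * U * D) * (D * m) * X) := by gcongr
      _ = _ := by
        field_simp
        ring
  have t4 : 4 * Real.sqrt (8 * (C₀ ^ 3 * m / U ^ 6)) * (C₂ * Real.sqrt NN * X) ≤
      c₁ * m / U * X / 4 := by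
    rw [hk3]
    have h1 : 16 * Real.sqrt (8 * C₀ ^ 3) * C₂ * Real.sqrt D ≤ c₁ * U ^ 2 := by
      rw [div_le_iff₀ hc₁] at hUX
      calc _ ≤ U * c₁ := hUX
        _ ≤ U ^ 2 * c₁ := by
          have : U ≤ U ^ 2 := by nlinarith
          exact mul_le_mul_of_nonneg_right this hc₁.le
        _ = _ := by ring
    calc 4 * (Real.sqrt (8 * C₀ ^ 3) * Real.sqrt m / U ^ 3) * (C₂ * Real.sqrt NN * X) ≤
        4 * (Real.sqrt (8 * C₀ ^ 3) * Real.sqrt m / U ^ 3) *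
          (C₂ * (Real.sqrt D * Real.sqrt m) * X) := by gcongr
      _ = (16 * Real.sqrt (8 * C₀ ^ 3) * C₂ * Real.sqrt D) *
          ((Real.sqrt m * Real.sqrt m) / U ^ 3 * X / 4) := by ring
      _ ≤ (c₁ * U ^ 2) * ((Real.sqrt m * Real.sqrt m) / U ^ 3 * X / 4) := by gcongr
      _ = _ := by
        rw [hmm]
        field_simp
  linarith

/-- one level: if few balls cover the class, then the radius is large -/
theorem pack_level {e m : ℕ} (hm : 1 ≤ m) (r : ℝ) (hr : 1 < r) (𝕜 : Type) [RCLike 𝕜] (u : ℝ → ℝ)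
    (hu : ContDiff ℝ (⊤ : ℕ∞) u) (c₁ : ℝ) (hc₁ : 0 < c₁)
    (hcount : ∀ g : (Fin (e + 2) → ℝ) → ℝ,
        ((univ.filter fun α : Box e m → Bool =>
            ∀ x : Fin (e + 2) → Fin (2 ^ ((e + 2) * m + 5)),
              |∑ R, (1 : ℝ) * sg (α R) * bx u R (fun j => pt ((e + 2) * m + 5) (x j)) -
                g (fun j => pt ((e + 2) * m + 5) (x j))| ≤
              c₁ * (m : ℝ) ^ (((e : ℝ) + 2) / 2)).card : ℝ) ≤
          Real.exp (-c₁ * Fintype.card (Box e m)) * 2 ^ Fintype.card (Box e m))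
    (v : Box e m → (Fin (e + 2) → ℝ) → ℝ) (hv : ∀ R, Continuous (v R))
    (hvc : ∀ (R : Box e m) x, ∫ y, Fker r (x - y) * v R y ∂(tor (e + 2)) =
        (2 : ℝ) ^ (-(r * (((e : ℝ) + 2) * m))) * bxp u R x) (U : ℝ) (hU : 1 ≤ U)
    (Q : Finset (Fin (e + 2) → ℤ)) (A₂ A₃ : ℝ) (hA₂ : 0 < A₂) (hA₃ : 0 < A₃)
    (ε₁ ε₂ ε₃ : ℝ) (K₁ K₂ K₃ : ℝ)
    (hO1 : CovA {h | ∃ φ : (Fin (e + 2) → ℝ) → ℂ, MemLp φ 1 (tor (e + 2)) ∧
          eLpNorm φ 1 (tor (e + 2)) ≤ 1 ∧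
          h = fun x => (∫ y, (Fker r (x - y) : ℂ) * φ y ∂(tor (e + 2))) - MPW r Q φ x} ε₁ K₁)
    (hO2 : CovA {h | ∃ φ : (Fin (e + 2) → ℝ) → ℂ, MemLp φ 2 (tor (e + 2)) ∧
          eLpNorm φ 2 (tor (e + 2)) ≤ 1 ∧
          h = fun x => (∫ y, (Fker r (x - y) : ℂ) * φ y ∂(tor (e + 2))) - MPW r Q φ x} ε₂ K₂)
    (hW2 : CovA (Wclass (e + 2) ℂ r 2) ε₃ K₃)
    (G : Finset (Box e m → Bool))
    (hG : ∀ β ∈ G, ∫ x, rp blk0 (an v U) β x ∂(tor (e + 2)) ≤ 8 ∧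
        ∫ x, lin v U β x ^ 2 ∂(tor (e + 2)) ≤ 8 * A₂ ∧
        ∑ k ∈ Q, ‖fc (fun x => ((erz v U β x : ℝ) : ℂ)) k‖ ^ 2 ≤ 8 * A₃)
    (b : ℝ) (hb0 : 0 ≤ b)
    (hnum : 2 * Real.sqrt (8 * A₂) * ε₂ + 32 * b + 32 * ε₁ + 4 * Real.sqrt (8 * A₃) * ε₃ ≤
      c₁ * m / U * (2 : ℝ) ^ (-(r * (((e : ℝ) + 2) * m))))
    (n : ℕ) (y : Fin (2 ^ n) → (Fin (e + 2) → ℝ) → 𝕜)
    (hcov : ∀ f ∈ Wclass (e + 2) 𝕜 r 1, ∃ j, eLpNorm (f - y j) ⊤ (tor (e + 2)) ≤ ENNReal.ofReal b) :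
    (G.card : ℝ) ≤ 2 ^ n * (Real.exp K₁ * (Real.exp K₂ * Real.exp K₃)) *
      (Real.exp (-c₁ * Fintype.card (Box e m)) * 2 ^ Fintype.card (Box e m)) := by
  classical
  have hprob := prob_tor (e + 2)
  have hr0 : 0 < r := by linarith
  have hU0 : 0 < U := by linarith
  have hm0 : (0 : ℝ) < m := by exact_mod_cast hm
  obtain ⟨t₁, hc1, -, hcov1⟩ := hO1
  obtain ⟨t₂, hc2, -, hcov2⟩ := hO2
  obtain ⟨t₃, hc3, -, hcov3⟩ := hW2
  set κ₂ := Real.sqrt (8 * A₂) with hκ₂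
  set κ₃ := Real.sqrt (8 * A₃) with hκ₃
  have hκ₂0 : 0 < κ₂ := Real.sqrt_pos.2 (by positivity)
  have hκ₃0 : 0 < κ₃ := Real.sqrt_pos.2 (by positivity)
  have hκ₂2 : κ₂ ^ 2 = 8 * A₂ := Real.sq_sqrt (by positivity)
  have hκ₃2 : κ₃ ^ 2 = 8 * A₃ := Real.sq_sqrt (by positivity)
  -- the real function attached to a sign pattern
  set p : (Box e m → Bool) → (Fin (e + 2) → ℝ) → ℝ := fun β x =>
    ∫ y, Fker r (x - y) * (1 / 8 * rp blk0 (an v U) β y) ∂(tor (e + 2)) with hp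
  have hrp0 : ∀ β x, 0 ≤ rp blk0 (an v U) β x := fun β x =>
    Pool.Agent.Helper11.SB.rp_nonneg blk0 (an v U) β x
  have hG1 : ∀ β ∈ G, ∫ x, ‖1 / 8 * rp blk0 (an v U) β x‖ ∂(tor (e + 2)) ≤ 1 := by
    intro β hβ
    have h1 : ∀ x, ‖1 / 8 * rp blk0 (an v U) β x‖ = 1 / 8 * rp blk0 (an v U) β x := fun x => by
      rw [Real.norm_eq_abs, abs_of_nonneg (mul_nonneg (by norm_num) (hrp0 β x))]
    simp_rw [h1]
    rw [integral_const_mul]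
    have := (hG β hβ).1
    linarith
  have hmem1 : ∀ β ∈ G, (fun x => ((p β x : ℝ) : 𝕜)) ∈ Wclass (e + 2) 𝕜 r 1 := by
    intro β hβ
    have hc : Continuous fun x => ((1 / 8 * rp blk0 (an v U) β x : ℝ) : 𝕜) :=
      RCLike.continuous_ofReal.comp (continuous_const.mul (continuous_rp hv U β))
    refine ⟨fun x => ((1 / 8 * rp blk0 (an v U) β x : ℝ) : 𝕜), memLp_of_cont hc 1, ?_, ?_⟩
    · have h1 := eLpNorm_one_le hc 1 ?_
      · simpa using h1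
      · refine le_trans (le_of_eq ?_) (hG1 β hβ)
        refine integral_congr_ae (Filter.Eventually.of_forall fun x => ?_)
        simp only [RCLike.norm_ofReal, Real.norm_eq_abs]
    · funext x
      rw [hp]
      simp only
      rw [← integral_ofReal]
      refine integral_congr_ae (Filter.Eventually.of_forall fun z => ?_)
      simp only [RCLike.ofReal_mul]
  have hmem2 : ∀ β ∈ G, (fun x => cvl r (fun x => ((1 / 8 : ℝ) : ℂ) *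
      ((rp blk0 (an v U) β x : ℝ) : ℂ)) x - MPW r Q (fun x => ((1 / 8 : ℝ) : ℂ) *
      ((rp blk0 (an v U) β x : ℝ) : ℂ)) x) ∈ {h : (Fin (e + 2) → ℝ) → ℂ |
        ∃ φ : (Fin (e + 2) → ℝ) → ℂ, MemLp φ 1 (tor (e + 2)) ∧
          eLpNorm φ 1 (tor (e + 2)) ≤ 1 ∧
          h = fun x => (∫ y, (Fker r (x - y) : ℂ) * φ y ∂(tor (e + 2))) - MPW r Q φ x} := by
    intro β hβ
    have hc : Continuous fun x => ((1 / 8 : ℝ) : ℂ) * ((rp blk0 (an v U) β x : ℝ) : ℂ) :=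
      continuous_const.mul (Complex.continuous_ofReal.comp (continuous_rp hv U β))
    refine ⟨_, memLp_of_cont hc 1, ?_, rfl⟩
    have h1 := eLpNorm_one_le hc 1 ?_
    · simpa using h1
    · refine le_trans (le_of_eq ?_) (hG1 β hβ)
      refine integral_congr_ae (Filter.Eventually.of_forall fun x => ?_)
      simp only
      rw [← Complex.ofReal_mul, Complex.norm_real]
  have hmem3 : ∀ β ∈ G, (fun x => cvl r (fun x => ((κ₂⁻¹ : ℝ) : ℂ) *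
      ((lin v U β x : ℝ) : ℂ)) x - MPW r Q (fun x => ((κ₂⁻¹ : ℝ) : ℂ) *
      ((lin v U β x : ℝ) : ℂ)) x) ∈ {h : (Fin (e + 2) → ℝ) → ℂ |
        ∃ φ : (Fin (e + 2) → ℝ) → ℂ, MemLp φ 2 (tor (e + 2)) ∧
          eLpNorm φ 2 (tor (e + 2)) ≤ 1 ∧
          h = fun x => (∫ y, (Fker r (x - y) : ℂ) * φ y ∂(tor (e + 2))) - MPW r Q φ x} := by
    intro β hβ
    have hc : Continuous fun x => ((κ₂⁻¹ : ℝ) : ℂ) * ((lin v U β x : ℝ) : ℂ) :=
      continuous_const.mul (Complex.continuous_ofReal.comp (continuous_lin hv U β))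
    refine ⟨_, memLp_of_cont hc 2, ?_, rfl⟩
    have h1 := eLpNorm_two_le hc 1 zero_le_one ?_
    · simpa using h1
    · have h2 : ∀ x, ‖((κ₂⁻¹ : ℝ) : ℂ) * ((lin v U β x : ℝ) : ℂ)‖ ^ 2 =
          (κ₂⁻¹) ^ 2 * lin v U β x ^ 2 := fun x => by
        rw [← Complex.ofReal_mul, Complex.norm_real, Real.norm_eq_abs, sq_abs, mul_pow]
      simp_rw [h2]
      rw [integral_const_mul]
      calc (κ₂⁻¹) ^ 2 * ∫ x, lin v U β x ^ 2 ∂(tor (e + 2)) ≤ (κ₂⁻¹) ^ 2 * κ₂ ^ 2 := by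
            rw [hκ₂2]
            exact mul_le_mul_of_nonneg_left (hG β hβ).2.1 (by positivity)
        _ = 1 ^ 2 := by rw [← mul_pow, inv_mul_cancel₀ hκ₂0.ne']
  have hmem4 : ∀ β ∈ G, (fun x => ((κ₃⁻¹ : ℝ) : ℂ) *
      MPW r Q (fun x => ((erz v U β x : ℝ) : ℂ)) x) ∈ Wclass (e + 2) ℂ r 2 := by
    intro β hβ
    exact MPW_mem r hr0 Q _ κ₃ hκ₃0 (by rw [hκ₃2]; exact (hG β hβ).2.2)
  -- pigeonhole
  have hpig := pigeon G (univ : Finset (Fin (2 ^ n))) t₁ t₂ t₃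
    (fun β j => eLpNorm ((fun x => ((p β x : ℝ) : 𝕜)) - y j) ⊤ (tor (e + 2)) ≤ ENNReal.ofReal b)
    (fun β z => ∀ᵐ x ∂(tor (e + 2)), ‖(cvl r (fun x => ((1 / 8 : ℝ) : ℂ) *
      ((rp blk0 (an v U) β x : ℝ) : ℂ)) x - MPW r Q (fun x => ((1 / 8 : ℝ) : ℂ) *
      ((rp blk0 (an v U) β x : ℝ) : ℂ)) x) - z x‖ ≤ ε₁)
    (fun β z => ∀ᵐ x ∂(tor (e + 2)), ‖(cvl r (fun x => ((κ₂⁻¹ : ℝ) : ℂ) *
      ((lin v U β x : ℝ) : ℂ)) x - MPW r Q (fun x => ((κ₂⁻¹ : ℝ) : ℂ) *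
      ((lin v U β x : ℝ) : ℂ)) x) - z x‖ ≤ ε₂)
    (fun β z => ∀ᵐ x ∂(tor (e + 2)), ‖((κ₃⁻¹ : ℝ) : ℂ) *
      MPW r Q (fun x => ((erz v U β x : ℝ) : ℂ)) x - z x‖ ≤ ε₃)
    (fun β hβ => by
      obtain ⟨j, hj⟩ := hcov _ (hmem1 β hβ)
      exact ⟨j, Finset.mem_univ _, hj⟩)
    (fun β hβ => hcov1 _ (hmem2 β hβ)) (fun β hβ => hcov2 _ (hmem3 β hβ))
    (fun β hβ => hcov3 _ (hmem4 β hβ))
    (Real.exp (-c₁ * Fintype.card (Box e m)) * 2 ^ Fintype.card (Box e m)) ?_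
  · refine hpig.trans ?_
    rw [Finset.card_univ, Fintype.card_fin]
    push_cast
    gcongr
  intro y₁ _ y₂ _ y₃ _ y₄ _ G' hG' hcell
  rcases G'.eq_empty_or_nonempty with hemp | ⟨β₀, hβ₀⟩
  · rw [hemp, Finset.card_empty, Nat.cast_zero]
    positivity
  obtain ⟨b1, b2, b3, b4⟩ := hcell β₀ hβ₀
  refine le_trans ?_ (hcount (fun z => ∑ R, sg (β₀ R) * bx u R z))
  refine Nat.cast_le.2 (Finset.card_le_card ?_)
  intro β hβ
  obtain ⟨a1, a2, a3, a4⟩ := hcell β hβ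
  rw [Finset.mem_filter]
  refine ⟨Finset.mem_univ _, ?_⟩
  intro x
  have hpt : ∀ i, 2 * π * pt ((e + 2) * m + 5) (x i) ∈ Set.Ioo 0 (2 * π) := by
    intro i
    have h1 := Pool.Agent.Helper16.SB.pt_mem ((e + 2) * m + 5) (x i)
    have h2 := Real.two_pi_pos
    constructor
    · exact mul_pos h2 h1.1
    · calc 2 * π * pt ((e + 2) * m + 5) (x i) < 2 * π * 1 :=
            mul_lt_mul_of_pos_left h1.2 h2
        _ = 2 * π := mul_one _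
  have hkey := Pool.Agent.Helper16.SB.bound_of_ae (d := e + 2) (𝕜 := ℝ)
    (fun z => ∑ R, sg (β R) * bx u R (fun j => z j / (2 * π)) -
      ∑ R, sg (β₀ R) * bx u R (fun j => z j / (2 * π))) (by
      have hcb : ∀ R : Box e m, Continuous fun z : Fin (e + 2) → ℝ =>
          bx u R (fun j => z j / (2 * π)) := fun R =>
        (Pool.Agent.Helper16.SB.continuous_bx u hu.continuous R).comp
          (continuous_pi fun j => (continuous_apply j).div_const _)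
      exact (continuous_finsetSum _ fun R _ => continuous_const.mul (hcb R)).sub
        (continuous_finsetSum _ fun R _ => continuous_const.mul (hcb R)))
    (c₁ * (m : ℝ) ^ (((e : ℝ) + 2) / 2)) ?_
    (x₀ := fun i => 2 * π * pt ((e + 2) * m + 5) (x i)) hpt
  · have h2 : (fun j => 2 * π * pt ((e + 2) * m + 5) (x j) / (2 * π)) =
        fun j => pt ((e + 2) * m + 5) (x j) := by
      funext j
      have := Real.two_pi_pos.ne'
      field_simp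
    rw [h2, Real.norm_eq_abs] at hkey
    simpa only [one_mul] using hkey
  rw [eLpNorm_exponent_top] at a1 b1
  filter_upwards [ae_le_eLpNormEssSup (f := (fun x => ((p β x : ℝ) : 𝕜)) - y y₁)
      (μ := tor (e + 2)), ae_le_eLpNormEssSup (f := (fun x => ((p β₀ x : ℝ) : 𝕜)) - y y₁)
      (μ := tor (e + 2)), a2, b2, a3, b3, a4, b4] with z hz hz' ha2 hb2 ha3 hb3 ha4 hb4 hzi
  have e1 : ‖((p β z : ℝ) : 𝕜) - y y₁ z‖ ≤ b := by
    have := hz.trans a1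
    rw [← ofReal_norm] at this
    exact (ENNReal.ofReal_le_ofReal_iff hb0).1 this
  have e2 : ‖((p β₀ z : ℝ) : 𝕜) - y y₁ z‖ ≤ b := by
    have := hz'.trans b1
    rw [← ofReal_norm] at this
    exact (ENNReal.ofReal_le_ofReal_iff hb0).1 this
  have tri : ∀ {E : Type} [NormedAddCommGroup E] (a a' w : E) (s : ℝ), ‖a - w‖ ≤ s →
      ‖a' - w‖ ≤ s → ‖a - a'‖ ≤ 2 * s := by
    intro E _ a a' w s h1 h2
    have e3 : a - a' = (a - w) - (a' - w) := by abel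
    rw [e3]
    exact (norm_sub_le _ _).trans (by linarith)
  have f0 : |p β z - p β₀ z| ≤ 2 * b := by
    have h1 := tri _ _ _ _ e1 e2
    rwa [← RCLike.ofReal_sub, RCLike.norm_ofReal] at h1
  have hclose := close_of_cell r v hv U β β₀ Q κ₂ κ₃ b ε₁ ε₂ ε₃ hκ₂0 hκ₃0 z f0
    (tri _ _ _ _ ha2 hb2) (tri _ _ _ _ ha3 hb3) (tri _ _ _ _ ha4 hb4)
  rw [cvl_lin r hr0 u v hv hvc U β z, cvl_lin r hr0 u v hv hvc U β₀ z, ← mul_sub, abs_mul] at hclose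
  have hX : (0 : ℝ) < (2 : ℝ) ^ (-(r * (((e : ℝ) + 2) * m))) := by positivity
  have hsm : 0 < Real.sqrt ((m : ℝ) ^ e) := Real.sqrt_pos.2 (by positivity)
  rw [abs_of_pos (by positivity)] at hclose
  have hfin := hclose.trans hnum
  have hb1 : ∀ R : Box e m, bx u R (fun j => z j / (2 * π)) = bxp u R z := fun R =>
    (Pool.Agent.Helper16.SB.bxp_eq u R z hzi).symm
  simp only [hb1, Real.norm_eq_abs]
  have h7 : (2 : ℝ) ^ (-(r * (((e : ℝ) + 2) * m))) / (U * Real.sqrt ((m : ℝ) ^ e)) *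
      |∑ R, sg (β R) * bxp u R z - ∑ R, sg (β₀ R) * bxp u R z| ≤
      (2 : ℝ) ^ (-(r * (((e : ℝ) + 2) * m))) / (U * Real.sqrt ((m : ℝ) ^ e)) *
        (c₁ * (Real.sqrt ((m : ℝ) ^ e) * m)) := by
    refine hfin.trans (le_of_eq ?_)
    field_simp
  have h8 := le_of_mul_le_mul_left h7 (by positivity)
  refine h8.trans (le_of_eq ?_)
  congr 1
  rw [Real.sqrt_eq_rpow, ← Real.rpow_natCast, ← Real.rpow_mul hm0.le]
  nth_rewrite 2 [← Real.rpow_one (m : ℝ)]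
  rw [← Real.rpow_add hm0]
  congr 1
  ring

/-- lower bound for `W^r_1` at the special integers; the energy bound of the nonlinear part and the
covering of the outer levels are hypotheses -/
theorem W_one_pack_of
    (hnl : ∀ (e : ℕ) (C₀ : ℝ) (_ : 1 ≤ C₀), ∃ U₀ ≥ (1 : ℝ), ∀ J : ℕ, ∃ C > (0 : ℝ),
      ∀ m : ℕ, 1 ≤ m → ∀ U ≥ U₀, ∀ v : Box e m → (Fin (e + 2) → ℝ) → ℝ,
      (∀ R, Continuous (v R)) →
      (∀ (t : Fin (e + 1) → Fin m) x y,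
        ∑ c : ((j : Fin (e + 2)) → Fin (2 ^ shp e m t j)), |v ⟨t, c⟩ x * v ⟨t, c⟩ y| ≤
          C₀ * ∏ j, ew (shp e m t j) (x j - y j)) →
      av (fun β : Box e m → Bool => ∑ k ∈ Qmid (e + 2) ((e + 2) * m) J,
        ‖fc (fun x => ((nl blk0 (an v U) β x : ℝ) : ℂ)) k‖ ^ 2) ≤
      C * (m : ℝ) ^ (e + 1) / (U ^ 2 * (m : ℝ) ^ e) ^ 2)
    (ho1 : ∀ (e : ℕ) (r : ℝ) (_ : 1 < r), ∀ δ > (0 : ℝ), ∃ J₀ : ℕ, ∀ J ≥ J₀, ∃ N₀ : ℕ, ∀ N ≥ N₀,
      CovA {h | ∃ φ : (Fin (e + 1) → ℝ) → ℂ, MemLp φ 1 (tor (e + 1)) ∧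
          eLpNorm φ 1 (tor (e + 1)) ≤ 1 ∧
          h = fun x => (∫ y, (Fker r (x - y) : ℂ) * φ y ∂(tor (e + 1))) -
            MPW r (Qmid (e + 1) N J) φ x}
        (δ * ((N : ℝ) + 1) * (2 : ℝ) ^ (-(r * N))) (δ * ((N : ℝ) + 1) ^ e * 2 ^ N))
    (e : ℕ) (he : 1 ≤ e) (r : ℝ) (hr : 1 < r) (𝕜 : Type) [RCLike 𝕜] :
    ∃ c > 0, ∃ m₀ : ℕ, ∀ m ≥ m₀, ∀ n : ℕ,
      (n : ℝ) ≤ c * ((m ^ (e + 1) * 2 ^ ((e + 2) * m) : ℕ) : ℝ) →
      ENNReal.ofReal (c * (2 : ℝ) ^ (-(r * (((e : ℝ) + 2) * m))) * (m : ℝ) ^ (1 : ℝ)) ≤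
        entropyNumber n (Wclass (e + 2) 𝕜 r 1) := by
  have hr0 : 0 < r := by linarith
  obtain ⟨u, hu, hu1, hodd, hpos, hpl, hsupp, hint⟩ := Pool.Agent.Helper96.SB.exists_block
  obtain ⟨c₁, hc₁, m₁, hcount⟩ := core_cont' e u hu1 hodd hpos hpl
    (fun t ht => hsupp t (by rcases ht with h | h <;> [left; right] <;> linarith)) 1 one_pos
  obtain ⟨v, C₀, hC₀, hvc, -, hvF, hvb⟩ := Pool.Agent.Helper32.SB.exists_boxfun e u r
    (Pool.Agent.Helper98.SB.exists_uni_w u hu hsupp hint r r hr0)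
    Pool.Agent.Helper98.SB.ew_mul_le
  set D : ℝ := (e : ℝ) + 3 with hD
  have hD0 : 0 < D := by positivity
  set δ₀ : ℝ := c₁ / (12 * D ^ (e + 1)) with hδ₀
  have hδ₀0 : 0 < δ₀ := by positivity
  obtain ⟨C₂, hC₂, N₂, hcov2⟩ := Pool.Agent.Helper75.SB.cov_W_two (e + 1) r (by linarith) δ₀ hδ₀0
  obtain ⟨U₀, hU₀, hnlU⟩ := hnl e C₀ hC₀
  set U : ℝ := max U₀ (16 * Real.sqrt (8 * C₀ ^ 3) * C₂ * Real.sqrt D / c₁) with hUd
  have hUU₀ : U₀ ≤ U := le_max_left _ _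
  have hU1 : 1 ≤ U := hU₀.trans hUU₀
  have hU0 : 0 < U := by linarith
  have hUX : 16 * Real.sqrt (8 * C₀ ^ 3) * C₂ * Real.sqrt D / c₁ ≤ U := le_max_right _ _
  have hC₀0 : 0 < C₀ := by linarith
  set δ₁ : ℝ := min δ₀ (c₁ / (128 * U * D)) with hδ₁
  have hδ₁0 : 0 < δ₁ := lt_min hδ₀0 (by positivity)
  set δ₂ : ℝ := min δ₀ (c₁ / (8 * Real.sqrt (8 * C₀ * D))) with hδ₂
  have hδ₂0 : 0 < δ₂ := by
    refine lt_min hδ₀0 ?_
    have : 0 < Real.sqrt (8 * C₀ * D) := Real.sqrt_pos.2 (by positivity)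
    positivity
  obtain ⟨J₁, hJ₁⟩ := ho1 (e + 1) r hr δ₁ hδ₁0
  obtain ⟨J₂, hJ₂⟩ := Pool.Agent.Helper22.SB.outer_W_two Pool.Agent.Helper52.SB.sum_outer
    (e + 1) r (by linarith) δ₂ hδ₂0
  set J := max J₁ J₂ with hJ
  obtain ⟨N₁, hN₁⟩ := hJ₁ J (le_max_left _ _)
  obtain ⟨N₃, hN₃⟩ := hJ₂ J (le_max_right _ _)
  obtain ⟨CJ, hCJ, hnlJ⟩ := hnlU J
  refine ⟨min (c₁ / 4) (c₁ / (128 * U)), lt_min (by positivity) (by positivity),
    m₁ + N₁ + N₂ + N₃ + J + 1 + ⌈4 * CJ * U ^ 2 / C₀ ^ 3⌉₊ + ⌈2 / c₁⌉₊, ?_⟩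
  intro m hm n hn
  have hm1 : 1 ≤ m := by omega
  have hmm₁ : m₁ ≤ m := by omega
  have hmN : m ≤ (e + 2) * m := Nat.le_mul_of_pos_left m (by omega)
  have hN1 : N₁ ≤ (e + 2) * m := by omega
  have hN2 : N₂ ≤ (e + 2) * m := by omega
  have hN3 : N₃ ≤ (e + 2) * m := by omega
  have hJN : J < (e + 2) * m := by omega
  have hmr : (1 : ℝ) ≤ m := by exact_mod_cast hm1
  have hm0 : (0 : ℝ) < m := by linarith
  have hm4 : 4 * CJ * U ^ 2 / C₀ ^ 3 ≤ m := by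
    refine (Nat.le_ceil _).trans ?_
    exact_mod_cast (show ⌈4 * CJ * U ^ 2 / C₀ ^ 3⌉₊ ≤ m by omega)
  have hm5 : 2 / c₁ ≤ m := by
    refine (Nat.le_ceil _).trans ?_
    exact_mod_cast (show ⌈2 / c₁⌉₊ ≤ m by omega)
  have hNc : (((e + 2) * m : ℕ) : ℝ) = ((e : ℝ) + 2) * m := by push_cast; ring
  set M := Fintype.card (Box e m) with hM
  have hMc : M = m ^ (e + 1) * 2 ^ ((e + 2) * m) := Pool.Agent.Helper96.SB.card_box' e m
  -- energy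
  set A₂ : ℝ := C₀ * m / U ^ 2 with hA₂
  set A₃ : ℝ := C₀ ^ 3 * m / U ^ 6 with hA₃
  have hA₂0 : 0 < A₂ := by positivity
  have hA₃0 : 0 < A₃ := by positivity
  obtain ⟨hl1, hl2⟩ := Pool.Agent.Helper84.SB.lin_energy_of
    (fun e m blk a R x => Pool.Agent.Helper11.SB.abs_sa_sub_le blk a R x)
    (fun e m b => Pool.Agent.Helper11.SB.av_lin_sq b) e C₀ hC₀ m hm1 U hU1 (v m) (hvc m) (hvb m)
  have hn1 := hnlJ m hm1 U hUU₀ (v m) (hvc m) (hvb m)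
  have hn2 : CJ * (m : ℝ) ^ (e + 1) / (U ^ 2 * (m : ℝ) ^ e) ^ 2 ≤ A₃ / 4 := by
    have h1 : 4 * CJ * U ^ 2 ≤ m * C₀ ^ 3 := by
      rwa [div_le_iff₀ (by positivity)] at hm4
    have h2 : (m : ℝ) ≤ (m : ℝ) ^ e := by
      calc (m : ℝ) = (m : ℝ) ^ 1 := (pow_one _).symm
        _ ≤ _ := pow_le_pow_right₀ hmr he
    rw [div_le_iff₀ (by positivity)]
    have h3 : A₃ / 4 * (U ^ 2 * (m : ℝ) ^ e) ^ 2 =
        (m : ℝ) ^ (e + 1) * ((m : ℝ) ^ e * C₀ ^ 3) / (4 * U ^ 2) := by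
      rw [hA₃]
      field_simp
      ring
    rw [h3, le_div_iff₀ (by positivity)]
    calc CJ * (m : ℝ) ^ (e + 1) * (4 * U ^ 2) = (m : ℝ) ^ (e + 1) * (4 * CJ * U ^ 2) := by ring
      _ ≤ (m : ℝ) ^ (e + 1) * (m * C₀ ^ 3) := by gcongr
      _ ≤ _ := by gcongr
  have htyp := many_typical (v m) (hvc m) U (Qmid (e + 2) ((e + 2) * m) J)
    (fun k hk => ne_zero_of_mem_Qmid hJN hk) A₂ A₃ hA₂0 hA₃0 hl1 hl2 (hn1.trans hn2)
    (fun x => Pool.Agent.Helper11.SB.av_rp_one blk0 (an (v m) U) x)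
    (fun β x => Pool.Agent.Helper11.SB.rp_nonneg blk0 (an (v m) U) β x)
  set G : Finset (Box e m → Bool) := univ.filter fun β : Box e m → Bool =>
        ∫ x, rp blk0 (an (v m) U) β x ∂(tor (e + 2)) ≤ 8 ∧
        ∫ x, lin (v m) U β x ^ 2 ∂(tor (e + 2)) ≤ 8 * A₂ ∧
        ∑ k ∈ Qmid (e + 2) ((e + 2) * m) J,
          ‖fc (fun x => ((erz (v m) U β x : ℝ) : ℂ)) k‖ ^ 2 ≤ 8 * A₃ with hGd
  -- the coverings
  have hO1 := hN₁ ((e + 2) * m) hN1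
  have hO2 := hN₃ ((e + 2) * m) hN3
  have hW2 := hcov2 ((e + 2) * m) hN2
  rw [hNc] at hO1 hO2 hW2
  -- exponents
  have hNN : ((e : ℝ) + 2) * m + 1 ≤ D * m := by
    rw [hD]
    nlinarith
  have hKb : ∀ δ : ℝ, 0 < δ → δ ≤ δ₀ →
      δ * (((e : ℝ) + 2) * m + 1) ^ (e + 1) * 2 ^ ((e + 2) * m) ≤ c₁ / 12 * M := by
    intro δ h0 h1
    rw [hMc]
    push_cast
    calc δ * (((e : ℝ) + 2) * m + 1) ^ (e + 1) * 2 ^ ((e + 2) * m) ≤
        δ₀ * (D * m) ^ (e + 1) * 2 ^ ((e + 2) * m) := by gcongr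
      _ = _ := by
        rw [hδ₀, mul_pow]
        field_simp
  -- the entropy number
  unfold entropyNumber
  refine le_sInf ?_
  rintro ε ⟨hε, y, hy, hcov⟩
  by_contra hcon
  rw [not_le] at hcon
  have hεtop : ε ≠ ⊤ := ne_top_of_lt hcon
  set b := ε.toReal with hb
  have hεb : ε = ENNReal.ofReal b := (ENNReal.ofReal_toReal hεtop).symm
  have hb0 : 0 ≤ b := ENNReal.toReal_nonneg
  have hX0 : (0 : ℝ) < (2 : ℝ) ^ (-(r * (((e : ℝ) + 2) * m))) := by positivity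
  have hcmin : 0 < min (c₁ / 4) (c₁ / (128 * U)) := lt_min (by positivity) (by positivity)
  have hbc : b ≤ c₁ / (128 * U) * (2 : ℝ) ^ (-(r * (((e : ℝ) + 2) * m))) * m := by
    rw [hεb, Real.rpow_one] at hcon
    have h1 := ((ENNReal.ofReal_lt_ofReal_iff (by positivity)).1 hcon).le
    refine h1.trans ?_
    gcongr
    exact min_le_right _ _
  have hnum := pack_numeric m hm1 c₁ U D C₀ C₂ δ₁ δ₂ b
    ((2 : ℝ) ^ (-(r * (((e : ℝ) + 2) * m)))) hc₁ hU1 hD0 hC₀ hC₂ hX0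
    (((e : ℝ) + 2) * m + 1) (by positivity) hNN (min_le_right _ _) (min_le_right _ _) hbc hUX
  rw [hεb] at hcov
  have hlev := pack_level hm1 r hr 𝕜 u hu c₁ hc₁
    (fun g => hcount m hmm₁ (fun _ => 1) (fun _ => zero_le_one) (fun _ => le_rfl)
        (by rw [Finset.sum_const, nsmul_eq_mul, mul_one, one_mul]; exact le_rfl) g)
    (v m) (hvc m) (hvF m) U hU1 (Qmid (e + 2) ((e + 2) * m) J) A₂ A₃ hA₂0 hA₃0 _ _ _ _ _ _
    hO1 hO2 hW2 G (fun β hβ => (Finset.mem_filter.1 hβ).2) b hb0 hnum n y hcov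
  have h1 := htyp.trans hlev
  have h2 : Real.exp (δ₁ * (((e : ℝ) + 2) * m + 1) ^ (e + 1) * 2 ^ ((e + 2) * m)) *
      (Real.exp (δ₂ * (((e : ℝ) + 2) * m + 1) ^ (e + 1) * 2 ^ ((e + 2) * m)) *
        Real.exp (δ₀ * (((e : ℝ) + 2) * m + 1) ^ (e + 1) * 2 ^ ((e + 2) * m))) ≤
      Real.exp (c₁ / 4 * M) := by
    rw [← Real.exp_add, ← Real.exp_add]
    refine Real.exp_le_exp.2 ?_
    have k1 := hKb δ₁ hδ₁0 (min_le_left _ _)
    have k2 := hKb δ₂ hδ₂0 (min_le_left _ _)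
    have k3 := hKb δ₀ hδ₀0 le_rfl
    linarith
  have h3 : (2 : ℝ) ^ n ≤ Real.exp (c₁ / 4 * M) := by
    have h4 : (2 : ℝ) ≤ Real.exp 1 := by
      have := Real.add_one_le_exp (1 : ℝ)
      linarith
    calc (2 : ℝ) ^ n ≤ (Real.exp 1) ^ n := pow_le_pow_left₀ (by norm_num) h4 n
      _ = Real.exp n := by rw [← Real.exp_nat_mul, mul_one]
      _ ≤ Real.exp (c₁ / 4 * M) := by
        refine Real.exp_le_exp.2 (hn.trans ?_)
        rw [hMc]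
        gcongr
        exact min_le_left _ _
  have h5 : (1 / 2 : ℝ) * 2 ^ M ≤ Real.exp (c₁ / 4 * M) * Real.exp (c₁ / 4 * M) *
      (Real.exp (-c₁ * M) * 2 ^ M) := by
    refine h1.trans ?_
    gcongr
  have h6 : (1 / 2 : ℝ) ≤ Real.exp (-(c₁ / 2 * M)) := by
    have h7 : (0 : ℝ) < 2 ^ M := by positivity
    have h8 : Real.exp (c₁ / 4 * M) * Real.exp (c₁ / 4 * M) * (Real.exp (-c₁ * M) * 2 ^ M) =
        Real.exp (-(c₁ / 2 * M)) * 2 ^ M := by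
      rw [← mul_assoc, ← Real.exp_add, ← Real.exp_add]
      congr 2
      ring
    rw [h8] at h5
    exact le_of_mul_le_mul_right h5 h7
  have h9 : 1 ≤ c₁ / 2 * M := by
    have h10 : (m : ℝ) ≤ M := by
      have : m ≤ M := by
        calc m = m ^ 1 := (pow_one m).symm
          _ ≤ m ^ (e + 1) := Nat.pow_le_pow_right hm1 (by omega)
          _ ≤ M := Pool.Agent.Helper16.SB.card_box_ge e m
      exact_mod_cast this
    have h11 : 2 / c₁ ≤ M := hm5.trans h10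
    rw [div_le_iff₀ hc₁] at h11
    linarith
  have h12 : Real.exp (-(c₁ / 2 * M)) ≤ Real.exp (-1) := Real.exp_le_exp.2 (by linarith)
  have h13 := Real.exp_neg_one_lt_d9
  linarith

end Pool.Agent.Helper60.SB
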