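import Pool.Agent.Helper60.SB.Link
import Pool.Agent.Helper3.SB.F3

/-!
Assembly of the upper bounds.
-/

open Finset MeasureTheory
open scoped ENNReal Real

namespace Pool.Agent.Helper60.SB

lemma continuous_ex {d : ℕ} (k : Fin d → ℤ) : Continuous (ex k) := by
  unfold ex
  fun_prop

lemma continuous_TT {d : ℕ} (Q : Finset (Fin d → ℤ)) (y : Q × Bool → ℝ) :
    Continuous (TT Q y) := by
  unfold TT
  exact continuous_finsetSum _ fun k _ => continuous_const.mul (continuous_ex _)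

lemma memLp_TT {d : ℕ} (Q : Finset (Fin d → ℤ)) (y : Q × Bool → ℝ) :
    MemLp (TT Q y) ⊤ (tor d) := by
  refine memLp_top_of_bound (continuous_TT Q y).aestronglyMeasurable (∑ k : Q, ‖cco y k‖) ?_
  exact Filter.Eventually.of_forall fun x => TT_le Q y x

lemma Cov.mono {V : Type*} {S : Set V} {R : V → V → Prop} {K K' : ℝ} (h : Cov S R K)
    (hK : K ≤ K') : Cov S R K' := by
  obtain ⟨t, h1, h2⟩ := h
  exact ⟨t, h1.trans (Real.exp_le_exp.2 hK), h2⟩

/-- from coefficient vectors to functions -/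
lemma covF_of_cov {d : ℕ} (Q : Finset (Fin d → ℤ)) (A : Set (Q × Bool → ℝ)) (c ε K : ℝ)
    (hc : 0 ≤ c) (h : Cov A (fun a y => supn Q (a - y) ≤ ε) K) :
    CovF {f | ∃ y ∈ A, f = TT Q (c • y)} (c * ε) K := by
  classical
  obtain ⟨t, h1, h2⟩ := h
  refine ⟨t.image fun y => TT Q (c • y), ?_, ?_, ?_⟩
  · refine le_trans ?_ h1
    exact_mod_cast Finset.card_image_le
  · intro y hy
    rw [mem_image] at hy
    obtain ⟨z, _, rfl⟩ := hy
    exact memLp_TT _ _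
  · rintro f ⟨y, hy, rfl⟩
    obtain ⟨z, hz, hyz⟩ := h2 y hy
    refine ⟨_, mem_image_of_mem _ hz, fun x => ?_⟩
    have h3 : TT Q (c • y) x - TT Q (c • z) x = TT Q (c • (y - z)) x := by
      have h4 : c • y = c • (y - z) + c • z := by
        rw [smul_sub]; abel
      rw [h4, TT_add]
      ring
    rw [h3, TT_smul, norm_mul, Complex.norm_real, Real.norm_eq_abs, abs_of_nonneg hc]
    exact mul_le_mul_of_nonneg_left ((le_supn Q _ x).trans hyz) hc

/-- General upper bound: a class of integrable functions whose Fourier coefficients of level `m`,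
multiplied by `2^(r m)`, lie in `C₀` times a level set with at most `(m+1)^(2 a')` blocks. -/
theorem upper_general (e : ℕ) (r κ a' C₀ : ℝ) (hκ0 : 0 < κ) (hκr : κ < r) (ha' : 0 ≤ a')
    (hC₀ : 1 ≤ C₀) (F : Set ((Fin (e + 1) → ℝ) → ℂ))
    (A : (m : ℕ) → Set (Qm (e + 1) m × Bool → ℝ)) (C₁ b : ℝ) (hC₁ : 1 ≤ C₁) (hb : 0 ≤ b)
    (hF : ∀ f ∈ F, Integrable f (tor (e + 1)) ∧ ∀ m, ∃ y ∈ A m, ∀ k : Qm (e + 1) m,
      (((2 : ℝ) ^ (r * m) : ℝ) : ℂ) * fc f k = (C₀ : ℂ) * cco y k)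
    (hsup : ∀ m, ∀ y ∈ A m, ∀ x, ‖TT (Qm (e + 1) m) y x‖ ≤
      C₁ * ((m : ℝ) + 1) ^ b * (2 : ℝ) ^ (κ * m))
    (low : ∀ m j : ℕ, Cov (A m)
        (fun a y => supn (Qm (e + 1) m) (a - y) ≤
          C₁ * ((m : ℝ) + 1) ^ a' * Real.sqrt (m + 1) * (2 : ℝ) ^ (-(j : ℝ)))
        (C₁ * (1 + j) * (((m : ℝ) + 1) ^ e * 2 ^ m) + 1))
    (high : ∀ m j : ℕ, Cov (A m)
        (fun a y => supn (Qm (e + 1) m) (a - y) ≤
          C₁ * ((m : ℝ) + 1) ^ a' * Real.sqrt (m + 1) * (2 : ℝ) ^ (κ * j))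
        (C₁ * (1 + j) * (((m : ℝ) + 1) ^ e * 2 ^ m) * (2 : ℝ) ^ (-(j : ℝ)) + 1)) :
    ∃ C' > 0, ∃ n₀ : ℕ, ∀ n ≥ n₀, entropyNumber n F ≤
      ENNReal.ofReal (C' * (n : ℝ) ^ (-r) * Real.log n ^ ((e : ℝ) * r + (a' + 1 / 2))) := by
  obtain ⟨C₂, hC₂⟩ := decomp (e + 1) r κ b (C₀ * C₁) hκr hb (by positivity)
  set C : ℝ := max (C₀ * C₁) (max C₂ 1) with hC
  have hCC : C₀ * C₁ ≤ C := le_max_left _ _
  have hCC₂ : C₂ ≤ C := (le_max_left _ _).trans (le_max_right _ _)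
  have hC1 : 1 ≤ C := (le_max_right _ _).trans (le_max_right _ _)
  have hC₁C : C₁ ≤ C := le_trans (by nlinarith) hCC
  have hsq : ∀ m : ℕ, ((m : ℝ) + 1) ^ a' * Real.sqrt (m + 1) = ((m : ℝ) + 1) ^ (a' + 1 / 2) := by
    intro m
    rw [Real.sqrt_eq_rpow, ← Real.rpow_add (by positivity)]
  refine sum_levels e r κ (a' + 1 / 2) b C hκ0 hκr (by positivity) hb hC1 F
    (fun m => {f | ∃ y ∈ A m, f = TT (Qm (e + 1) m) (C₀ • y)}) ?_ ?_ ?_
  · intro m j
    have h1 := covF_of_cov (Qm (e + 1) m) (A m) C₀ _ _ (by linarith) (low m j)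
    obtain ⟨t, h2, h3, h4⟩ := h1
    refine ⟨t, h2.trans (Real.exp_le_exp.2 ?_), h3, fun f hf => ?_⟩
    · have : C₁ * (1 + j) * (((m : ℝ) + 1) ^ e * 2 ^ m) ≤ C * (1 + j) * (((m : ℝ) + 1) ^ e * 2 ^ m) := by
        gcongr
      linarith
    · obtain ⟨y, hy, h5⟩ := h4 f hf
      refine ⟨y, hy, fun x => (h5 x).trans ?_⟩
      rw [← hsq m]
      calc C₀ * (C₁ * ((m : ℝ) + 1) ^ a' * Real.sqrt (m + 1) * (2 : ℝ) ^ (-(j : ℝ)))
          = (C₀ * C₁) * (((m : ℝ) + 1) ^ a' * Real.sqrt (m + 1)) * (2 : ℝ) ^ (-(j : ℝ)) := by ring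
        _ ≤ _ := by gcongr
  · intro m j
    have h1 := covF_of_cov (Qm (e + 1) m) (A m) C₀ _ _ (by linarith) (high m j)
    obtain ⟨t, h2, h3, h4⟩ := h1
    refine ⟨t, h2.trans (Real.exp_le_exp.2 ?_), h3, fun f hf => ?_⟩
    · have h6 : (2 : ℝ) ^ ((m : ℝ) - j) = 2 ^ m * (2 : ℝ) ^ (-(j : ℝ)) := by
        rw [sub_eq_add_neg, Real.rpow_add (by norm_num), Real.rpow_natCast]
      rw [h6]
      have : C₁ * (1 + j) * (((m : ℝ) + 1) ^ e * 2 ^ m) * (2 : ℝ) ^ (-(j : ℝ)) ≤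
          C * (1 + j) * (((m : ℝ) + 1) ^ e * 2 ^ m) * (2 : ℝ) ^ (-(j : ℝ)) := by
        gcongr
      linarith
    · obtain ⟨y, hy, h5⟩ := h4 f hf
      refine ⟨y, hy, fun x => (h5 x).trans ?_⟩
      rw [← hsq m]
      calc C₀ * (C₁ * ((m : ℝ) + 1) ^ a' * Real.sqrt (m + 1) * (2 : ℝ) ^ (κ * j))
          = (C₀ * C₁) * (((m : ℝ) + 1) ^ a' * Real.sqrt (m + 1)) * (2 : ℝ) ^ (κ * j) := by ring
        _ ≤ _ := by gcongr
  · intro f hf J
    obtain ⟨hint, hy⟩ := hF f hf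
    choose y hyA hyk using hy
    have h1 := hC₂ f hint (fun m => C₀ • y m) ?_ ?_ J
    · refine ⟨fun m => TT (Qm (e + 1) m) (C₀ • y m), fun m => ⟨y m, hyA m, rfl⟩, ?_⟩
      filter_upwards [h1] with x hx
      refine hx.trans ?_
      gcongr
    · intro m k
      have h2 : cco (C₀ • y m) k = (C₀ : ℂ) * cco (y m) k := by
        unfold cco
        simp only [Pi.smul_apply, smul_eq_mul]
        push_cast; ring
      rw [h2, ← hyk m k, ← mul_assoc, ← Complex.ofReal_mul, ← Real.rpow_add (by norm_num)]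
      simp
    · intro m x
      rw [TT_smul, norm_mul, Complex.norm_real, Real.norm_eq_abs, abs_of_nonneg (by linarith)]
      calc C₀ * ‖TT (Qm (e + 1) m) (y m) x‖ ≤
          C₀ * (C₁ * ((m : ℝ) + 1) ^ b * (2 : ℝ) ^ (κ * m)) :=
            mul_le_mul_of_nonneg_left (hsup m _ (hyA m) x) (by linarith)
        _ = _ := by ring

lemma card_Qm_pow_le (e m : ℕ) {κ : ℝ} (hκ : 0 < κ) :
    ((Qm (e + 1) m).card : ℝ) ^ κ ≤ ((m : ℝ) + 1) ^ ((e : ℝ) * κ) * (2 : ℝ) ^ (κ * m) := by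
  have h1 := card_Qm e m
  calc ((Qm (e + 1) m).card : ℝ) ^ κ ≤ (((m : ℝ) + 1) ^ e * 2 ^ m) ^ κ :=
        Real.rpow_le_rpow (by positivity) h1 hκ.le
    _ = _ := by
        rw [Real.mul_rpow (by positivity) (by positivity), ← Real.rpow_natCast,
          ← Real.rpow_natCast, ← Real.rpow_mul (by positivity), ← Real.rpow_mul (by positivity),
          mul_comm (m : ℝ) κ]

lemma level_of_mem {d m : ℕ} (k : Qm d m) : ∑ j, (lev (k : Fin d → ℤ) j : ℝ) = m := by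
  have h1 := (mem_Qm d m k).1 k.2
  exact_mod_cast h1

/-- upper bound for the classes `W`, complex scalars -/
theorem upper_W_complex (e : ℕ) (p : ℝ≥0∞) (hp : 1 < p) (r : ℝ) (hr1 : 1 / p.toReal < r)
    (hr2 : 1 / 2 < r) :
    ∃ C' > 0, ∃ n₀ : ℕ, ∀ n ≥ n₀, entropyNumber n (Wclass (e + 1) ℂ r p) ≤
      ENNReal.ofReal (C' * (n : ℝ) ^ (-r) * Real.log n ^ ((e : ℝ) * r + 1 / 2)) := by
  have hr : 0 < r := by linarith
  obtain ⟨κ, hκ, hκr⟩ : ∃ κ, max (1 / p.toReal) (1 / 2) < κ ∧ κ < r :=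
    exists_between (max_lt hr1 hr2)
  have hκ1 : 1 / p.toReal < κ := (le_max_left _ _).trans_lt hκ
  have hκ2 : 1 / 2 < κ := (le_max_right _ _).trans_lt hκ
  have hκ0 : 0 < κ := by linarith
  obtain ⟨C, hC, hlev⟩ := level_entropy (e + 1) p hp κ hκ1 hκ2
  set μ : (Fin (e + 1) → ℤ) → ℂ := fun k =>
    (((2 : ℝ) ^ (-(r * ((e : ℝ) + 1))) * (2 : ℝ) ^ (r * ∑ j, (lev k j : ℝ)) : ℝ) : ℂ) *
      ∏ j, bmul r r (k j) with hμ
  have hμ1 : ∀ k, ‖μ k‖ ≤ 1 := by
    intro k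
    rw [hμ]
    simp only [norm_mul, Complex.norm_real, Real.norm_eq_abs]
    rw [← abs_mul, abs_of_pos (by positivity)]
    have h1 := norm_bmul_le r hr k
    have h2 : (0 : ℝ) ≤ (2 : ℝ) ^ (-(r * ((e : ℝ) + 1))) * (2 : ℝ) ^ (r * ∑ j, (lev k j : ℝ)) := by
      positivity
    refine (mul_le_mul_of_nonneg_left h1 h2).trans (le_of_eq ?_)
    push_cast
    rw [← Real.rpow_add (by norm_num), ← Real.rpow_add (by norm_num),
      ← Real.rpow_add (by norm_num)]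
    have : -(r * ((e : ℝ) + 1)) + r * ∑ j, (lev k j : ℝ) +
        (r * ((e : ℝ) + 1) + -(r * ∑ j, (lev k j : ℝ))) = 0 := by ring
    rw [this, Real.rpow_zero]
  have hmain := upper_general e r κ 0 ((2 : ℝ) ^ (r * ((e : ℝ) + 1))) hκ0 hκr le_rfl
    (Real.one_le_rpow (by norm_num) (by positivity)) (Wclass (e + 1) ℂ r p)
    (fun m => Sset (Qm (e + 1) m) Unit (fun _ => ()) μ p) (2 * C) ((e : ℝ) * κ)
    (by linarith) (by positivity) ?_ ?_ ?_ ?_
  · simpa using hmain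
  · rintro f ⟨φ, hφ, hφ1, rfl⟩
    have hφi : Integrable φ (tor (e + 1)) := by
      have : IsProbabilityMeasure (tor (e + 1)) := Pool.Agent.Helper3.SB.isProb_tor _
      exact hφ.integrable hp.le
    obtain ⟨h1, h2⟩ := fc_conv (e + 1) r hr φ hφi
    refine ⟨h1, fun m => ?_⟩
    refine ⟨fun i => if i.2 then (μ i.1 * fc φ i.1).im else (μ i.1 * fc φ i.1).re, ?_, ?_⟩
    · refine ⟨fun _ => φ, fun _ => ⟨hφ, hφ1⟩, fun k => ?_⟩
      unfold cco
      simp only [Bool.false_eq_true, if_false, if_true]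
      exact Complex.re_add_im _
    · intro k
      have h3 : cco (fun i : Qm (e + 1) m × Bool => if i.2 then (μ i.1 * fc φ i.1).im else
          (μ i.1 * fc φ i.1).re) k = μ k * fc φ k := by
        unfold cco
        simp only [Bool.false_eq_true, if_false, if_true]
        exact Complex.re_add_im _
      have h4 : (((2 : ℝ) ^ (r * ((e : ℝ) + 1)) : ℝ) : ℂ) * μ k =
          (((2 : ℝ) ^ (r * m) : ℝ) : ℂ) * ∏ j, bmul r r ((k : Fin (e + 1) → ℤ) j) := by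
        rw [hμ]
        simp only
        rw [level_of_mem k, ← mul_assoc, ← Complex.ofReal_mul, ← mul_assoc,
          ← Real.rpow_add (by norm_num), add_neg_cancel, Real.rpow_zero, one_mul]
      rw [h3, ← mul_assoc, h4, mul_assoc]
      exact congrArg _ (h2 k)
  · intro m y hy x
    have h1 := TT_Sset_le (Qm (e + 1) m) Unit (fun _ => ()) μ hμ1 p hp.le y hy x
    refine h1.trans ?_
    have h2 := card_Qm_pow_le e m hκ0
    by_cases hQ : (Qm (e + 1) m).card = 0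
    · rw [hQ]
      have h3 : (0 : ℝ) < max (1 / p.toReal) (1 / 2) := lt_max_of_lt_right (by norm_num)
      rw [Nat.cast_zero, Real.zero_rpow h3.ne', mul_zero]
      positivity
    · have h3 : (1 : ℝ) ≤ (Qm (e + 1) m).card := by
        exact_mod_cast Nat.one_le_iff_ne_zero.2 hQ
      have h4 := Real.rpow_le_rpow_of_exponent_le h3 hκ.le
      simp only [Fintype.card_unit, Nat.cast_one, mul_one]
      calc 2 * ((Qm (e + 1) m).card : ℝ) ^ (max (1 / p.toReal) (1 / 2)) ≤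
          2 * (((m : ℝ) + 1) ^ ((e : ℝ) * κ) * (2 : ℝ) ^ (κ * m)) := by linarith
        _ ≤ (2 * C) * (((m : ℝ) + 1) ^ ((e : ℝ) * κ) * (2 : ℝ) ^ (κ * m)) := by
            refine mul_le_mul_of_nonneg_right (by linarith) (by positivity)
        _ = _ := by ring
  · intro m j
    obtain ⟨t, h1, h2⟩ := (hlev m (Qm (e + 1) m) Unit (fun _ => ()) μ (Qm_le (e + 1) m) hμ1 j).1
    refine ⟨t, h1.trans (Real.exp_le_exp.2 ?_), fun a ha => ?_⟩
    · have h3 := card_Qm e m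
      have h4 : C * (1 + j) * (Qm (e + 1) m).card ≤ 2 * C * (1 + j) * (((m : ℝ) + 1) ^ e * 2 ^ m) := by
        refine mul_le_mul ?_ h3 (by positivity) (by positivity)
        nlinarith [(Nat.cast_nonneg j : (0 : ℝ) ≤ j)]
      linarith
    · obtain ⟨z, hz, h3⟩ := h2 a ha
      refine ⟨z, hz, h3.trans ?_⟩
      simp only [Fintype.card_unit, Nat.cast_one, Real.sqrt_one, mul_one, Real.rpow_zero]
      gcongr
      linarith
  · intro m j
    obtain ⟨t, h1, h2⟩ := (hlev m (Qm (e + 1) m) Unit (fun _ => ()) μ (Qm_le (e + 1) m) hμ1 j).2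
    refine ⟨t, h1.trans (Real.exp_le_exp.2 ?_), fun a ha => ?_⟩
    · have h3 := card_Qm e m
      have h4 : C * (1 + j) * (Qm (e + 1) m).card ≤ 2 * C * (1 + j) * (((m : ℝ) + 1) ^ e * 2 ^ m) := by
        refine mul_le_mul ?_ h3 (by positivity) (by positivity)
        nlinarith [(Nat.cast_nonneg j : (0 : ℝ) ≤ j)]
      have h5 : (0 : ℝ) ≤ (2 : ℝ) ^ (-(j : ℝ)) := by positivity
      have := mul_le_mul_of_nonneg_right h4 h5
      linarith
    · obtain ⟨z, hz, h3⟩ := h2 a ha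
      refine ⟨z, hz, h3.trans ?_⟩
      simp only [Fintype.card_unit, Nat.cast_one, Real.sqrt_one, mul_one, Real.rpow_zero]
      gcongr
      linarith

end Pool.Agent.Helper60.SB
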