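import Pool.Agent.Helper60.SB.Upper

/-!
Assembly of the upper bounds for the classes `H`.
-/

open Finset MeasureTheory
open scoped ENNReal Real

namespace Pool.Agent.Helper60.SB

lemma sqrt_card_B (e m : ℕ) : Real.sqrt (Fintype.card (Fin e → Fin (m + 1))) =
    ((m : ℝ) + 1) ^ ((e : ℝ) / 2) := by
  rw [Fintype.card_fun, Fintype.card_fin, Fintype.card_fin, Real.sqrt_eq_rpow]
  push_cast
  rw [← Real.rpow_natCast, ← Real.rpow_mul (by positivity)]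
  congr 1
  ring

/-- the level sets of the classes `H` -/
lemma H_level (e : ℕ) (p : ℝ≥0∞) (hp : 1 ≤ p) (r C₀ : ℝ) (hC₀ : 1 ≤ C₀)
    (μ : (Fin (e + 1) → ℤ) → ℂ)
    (bl : (m : ℕ) → (Fin (e + 1) → ℤ) → (Fin e → Fin (m + 1)))
    (hbl : ∀ m, ∀ k ∈ Qm (e + 1) m, ∀ k' ∈ Qm (e + 1) m, bl m k = bl m k' → lev k = lev k')
    (hH : ∀ f ∈ Hclass (e + 1) ℂ r p,
      ∃ h : (Fin (e + 1) → ℕ) → (Fin (e + 1) → ℝ) → ℂ,
        (∀ s, MemLp (h s) p (tor (e + 1)) ∧ eLpNorm (h s) p (tor (e + 1)) ≤ 1) ∧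
        ∀ k, (((2 : ℝ) ^ (r * ∑ j, (lev k j : ℝ)) : ℝ) : ℂ) * fc f k =
          (C₀ : ℂ) * μ k * fc (h (lev k)) k)
    (f : (Fin (e + 1) → ℝ) → ℂ) (hf : f ∈ Hclass (e + 1) ℂ r p) (m : ℕ) :
    ∃ y ∈ Sset (Qm (e + 1) m) (Fin e → Fin (m + 1)) (bl m) μ p, ∀ k : Qm (e + 1) m,
      (((2 : ℝ) ^ (r * m) : ℝ) : ℂ) * fc f k = (C₀ : ℂ) * cco y k := by
  classical
  obtain ⟨h, hh, hk⟩ := hH f hf
  -- the function attached to a block
  set g : (Fin e → Fin (m + 1)) → (Fin (e + 1) → ℝ) → ℂ := fun β =>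
    if hβ : ∃ k ∈ Qm (e + 1) m, bl m k = β then h (lev hβ.choose) else h 0 with hg
  have hgk : ∀ k ∈ Qm (e + 1) m, g (bl m k) = h (lev k) := by
    intro k hkQ
    have hex : ∃ k' ∈ Qm (e + 1) m, bl m k' = bl m k := ⟨k, hkQ, rfl⟩
    rw [hg]
    simp only
    rw [dif_pos hex]
    rw [hbl m _ hex.choose_spec.1 k hkQ hex.choose_spec.2]
  set y : Qm (e + 1) m × Bool → ℝ := fun i =>
    if i.2 then (μ i.1 * fc (h (lev (i.1 : Fin (e + 1) → ℤ))) i.1).im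
    else (μ i.1 * fc (h (lev (i.1 : Fin (e + 1) → ℤ))) i.1).re with hy
  have hcy : ∀ k : Qm (e + 1) m, cco y k = μ k * fc (h (lev (k : Fin (e + 1) → ℤ))) k := by
    intro k
    unfold cco
    simp only [hy, Bool.false_eq_true, if_false, if_true]
    exact Complex.re_add_im _
  refine ⟨y, ⟨g, fun β => ?_, fun k => ?_⟩, fun k => ?_⟩
  · rw [hg]
    simp only
    split_ifs <;> exact hh _
  · rw [hcy, hgk k k.2]
  · rw [hcy, ← level_of_mem k, hk k]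
    ring

lemma H_integrable (e : ℕ) (p : ℝ≥0∞) (hp : 1 ≤ p) (r : ℝ) (f : (Fin (e + 1) → ℝ) → ℂ)
    (hf : f ∈ Hclass (e + 1) ℂ r p) : Integrable f (tor (e + 1)) := by
  obtain ⟨h1, h2, h3, h4⟩ := hf
  have : IsProbabilityMeasure (tor (e + 1)) := Pool.Agent.Helper3.SB.isProb_tor _
  have h5 : MemLp f p (tor (e + 1)) := ⟨h1.aestronglyMeasurable, h3.trans_lt ENNReal.one_lt_top⟩
  exact h5.integrable hp

/-- the sup bound in the form needed -/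
lemma sup_bound (e m : ℕ) (p : ℝ≥0∞) (hp : 1 ≤ p) {κ : ℝ} (hκ : max (1 / p.toReal) (1 / 2) ≤ κ)
    (bl : (Fin (e + 1) → ℤ) → (Fin e → Fin (m + 1))) (μ : (Fin (e + 1) → ℤ) → ℂ)
    (hμ : ∀ k, ‖μ k‖ ≤ 1) (y : Qm (e + 1) m × Bool → ℝ)
    (hy : y ∈ Sset (Qm (e + 1) m) (Fin e → Fin (m + 1)) bl μ p) (x : Fin (e + 1) → ℝ) :
    ‖TT (Qm (e + 1) m) y x‖ ≤ 2 * (((m : ℝ) + 1) ^ ((e : ℝ) + (e : ℝ) * κ) * (2 : ℝ) ^ (κ * m)) := by
  have hκ0 : 0 < κ := lt_of_lt_of_le (lt_max_of_lt_right (by norm_num)) hκ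
  have h1 := TT_Sset_le (Qm (e + 1) m) (Fin e → Fin (m + 1)) bl μ hμ p hp y hy x
  refine h1.trans ?_
  have h2 := card_Qm_pow_le e m hκ0
  have h5 : (Fintype.card (Fin e → Fin (m + 1)) : ℝ) = ((m : ℝ) + 1) ^ (e : ℝ) := by
    rw [Fintype.card_fun, Fintype.card_fin, Fintype.card_fin, Real.rpow_natCast]
    push_cast; rfl
  rw [h5]
  by_cases hQ : (Qm (e + 1) m).card = 0
  · rw [hQ]
    have h3 : (0 : ℝ) < max (1 / p.toReal) (1 / 2) := lt_max_of_lt_right (by norm_num)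
    rw [Nat.cast_zero, Real.zero_rpow h3.ne', mul_zero]
    positivity
  · have h3 : (1 : ℝ) ≤ (Qm (e + 1) m).card := by
      exact_mod_cast Nat.one_le_iff_ne_zero.2 hQ
    have h4 := Real.rpow_le_rpow_of_exponent_le h3 hκ
    rw [Real.rpow_add (by positivity)]
    calc 2 * ((m : ℝ) + 1) ^ (e : ℝ) * ((Qm (e + 1) m).card : ℝ) ^ (max (1 / p.toReal) (1 / 2)) ≤
        2 * ((m : ℝ) + 1) ^ (e : ℝ) * (((m : ℝ) + 1) ^ ((e : ℝ) * κ) * (2 : ℝ) ^ (κ * m)) :=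
          mul_le_mul_of_nonneg_left (h4.trans h2) (by positivity)
      _ = _ := by ring

/-- upper bound for the classes `H`, `1 < p`, complex scalars -/
theorem upper_H_complex (e : ℕ) (p : ℝ≥0∞) (hp : 1 < p) (r : ℝ) (hr1 : 1 / p.toReal < r)
    (hr2 : 1 / 2 < r) :
    ∃ C' > 0, ∃ n₀ : ℕ, ∀ n ≥ n₀, entropyNumber n (Hclass (e + 1) ℂ r p) ≤
      ENNReal.ofReal (C' * (n : ℝ) ^ (-r) * Real.log n ^ ((e : ℝ) * r + ((e : ℝ) / 2 + 1 / 2))) := by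
  have hr : 0 < r := by linarith
  obtain ⟨κ, hκ, hκr⟩ : ∃ κ, max (1 / p.toReal) (1 / 2) < κ ∧ κ < r :=
    exists_between (max_lt hr1 hr2)
  have hκ1 : 1 / p.toReal < κ := (le_max_left _ _).trans_lt hκ
  have hκ2 : 1 / 2 < κ := (le_max_right _ _).trans_lt hκ
  have hκ0 : 0 < κ := by linarith
  obtain ⟨C, hC, hlev⟩ := level_entropy (e + 1) p hp κ hκ1 hκ2
  obtain ⟨C₀, hC₀, μ, hμ1, hH⟩ := H_coeff (e + 1) r hr
  choose bl hbl using exists_blk e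
  have hmain := upper_general e r κ ((e : ℝ) / 2) C₀ hκ0 hκr (by positivity)
    hC₀ (Hclass (e + 1) ℂ r p)
    (fun m => Sset (Qm (e + 1) m) (Fin e → Fin (m + 1)) (bl m) μ p) (2 * C)
    ((e : ℝ) + (e : ℝ) * κ) (by linarith) (by positivity) ?_ ?_ ?_ ?_
  · exact hmain
  · intro f hf
    exact ⟨H_integrable e p hp.le r f hf, fun m =>
      H_level e p hp.le r C₀ hC₀ μ bl hbl (hH p hp.le) f hf m⟩
  · intro m y hy x
    refine (sup_bound e m p hp.le hκ.le (bl m) μ hμ1 y hy x).trans ?_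
    have : (0 : ℝ) ≤ ((m : ℝ) + 1) ^ ((e : ℝ) + (e : ℝ) * κ) * (2 : ℝ) ^ (κ * m) := by positivity
    nlinarith
  · intro m j
    obtain ⟨t, h1, h2⟩ := (hlev m (Qm (e + 1) m) (Fin e → Fin (m + 1)) (bl m) μ
      (Qm_le (e + 1) m) hμ1 j).1
    refine ⟨t, h1.trans (Real.exp_le_exp.2 ?_), fun a ha => ?_⟩
    · have h3 := card_Qm e m
      have h4 : C * (1 + j) * (Qm (e + 1) m).card ≤ 2 * C * (1 + j) * (((m : ℝ) + 1) ^ e * 2 ^ m) := by
        refine mul_le_mul ?_ h3 (by positivity) (by positivity)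
        nlinarith [(Nat.cast_nonneg j : (0 : ℝ) ≤ j)]
      linarith
    · obtain ⟨z, hz, h3⟩ := h2 a ha
      refine ⟨z, hz, h3.trans ?_⟩
      rw [sqrt_card_B]
      gcongr
      linarith
  · intro m j
    obtain ⟨t, h1, h2⟩ := (hlev m (Qm (e + 1) m) (Fin e → Fin (m + 1)) (bl m) μ
      (Qm_le (e + 1) m) hμ1 j).2
    refine ⟨t, h1.trans (Real.exp_le_exp.2 ?_), fun a ha => ?_⟩
    · have h3 := card_Qm e m
      have h4 : C * (1 + j) * (Qm (e + 1) m).card ≤ 2 * C * (1 + j) * (((m : ℝ) + 1) ^ e * 2 ^ m) := by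
        refine mul_le_mul ?_ h3 (by positivity) (by positivity)
        nlinarith [(Nat.cast_nonneg j : (0 : ℝ) ≤ j)]
      have h5 : (0 : ℝ) ≤ (2 : ℝ) ^ (-(j : ℝ)) := by positivity
      have := mul_le_mul_of_nonneg_right h4 h5
      linarith
    · obtain ⟨z, hz, h3⟩ := h2 a ha
      refine ⟨z, hz, h3.trans ?_⟩
      rw [sqrt_card_B]
      gcongr
      linarith

/-- upper bound for the classes `H`, `p = 1`, complex scalars -/
theorem upper_H_complex_one (e : ℕ) (r : ℝ) (hr1 : 1 < r) :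
    ∃ C' > 0, ∃ n₀ : ℕ, ∀ n ≥ n₀, entropyNumber n (Hclass (e + 1) ℂ r 1) ≤
      ENNReal.ofReal (C' * (n : ℝ) ^ (-r) * Real.log n ^ ((e : ℝ) * r + ((e : ℝ) / 2 + 1 / 2))) := by
  classical
  have hr : 0 < r := by linarith
  obtain ⟨C, hC, hlev⟩ := level_entropy_one (e + 1)
  obtain ⟨C₀, hC₀, μ, hμ1, hH⟩ := H_coeff (e + 1) r hr
  choose bl hbl using exists_blk e
  -- the boxes containing the blocks
  set s : (m : ℕ) → (Fin e → Fin (m + 1)) → Fin (e + 1) → ℕ := fun m β =>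
    if hβ : ∃ k ∈ Qm (e + 1) m, bl m k = β then lev hβ.choose else 0 with hs
  have hsk : ∀ m, ∀ k ∈ Qm (e + 1) m, s m (bl m k) = lev k := by
    intro m k hkQ
    have hex : ∃ k' ∈ Qm (e + 1) m, bl m k' = bl m k := ⟨k, hkQ, rfl⟩
    rw [hs]
    simp only
    rw [dif_pos hex]
    exact hbl m _ hex.choose_spec.1 k hkQ hex.choose_spec.2
  have hs1 : ∀ m β, ∑ j, s m β j ≤ m := by
    intro m β
    by_cases hβ : ∃ k ∈ Qm (e + 1) m, bl m k = β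
    · obtain ⟨k, hkQ, rfl⟩ := hβ
      rw [hsk m k hkQ, (mem_Qm _ _ _).1 hkQ]
    · rw [hs]
      simp only
      rw [dif_neg hβ]
      simp
  have hs2 : ∀ m, ∀ k ∈ Qm (e + 1) m, ∀ j, |k j| ≤ 2 ^ s m (bl m k) j := by
    intro m k hkQ j
    rw [hsk m k hkQ, Int.abs_eq_natAbs]
    have : (k j).natAbs < 2 ^ lev k j := Nat.lt_size_self _
    exact_mod_cast this.le
  have hmain := upper_general e r 1 ((e : ℝ) / 2) C₀ one_pos hr1 (by positivity)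
    hC₀ (Hclass (e + 1) ℂ r 1)
    (fun m => Sset (Qm (e + 1) m) (Fin e → Fin (m + 1)) (bl m) μ 1) (2 * C)
    ((e : ℝ) + (e : ℝ) * 1) (by linarith) (by positivity) ?_ ?_ ?_ ?_
  · exact hmain
  · intro f hf
    exact ⟨H_integrable e 1 le_rfl r f hf, fun m =>
      H_level e 1 le_rfl r C₀ hC₀ μ bl hbl (hH 1 le_rfl) f hf m⟩
  · intro m y hy x
    refine (sup_bound e m 1 le_rfl (κ := 1) (by norm_num) (bl m) μ hμ1 y hy x).trans ?_
    have : (0 : ℝ) ≤ ((m : ℝ) + 1) ^ ((e : ℝ) + (e : ℝ) * 1) * (2 : ℝ) ^ ((1 : ℝ) * m) := by positivity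
    nlinarith
  · intro m j
    obtain ⟨t, h1, h2⟩ := (hlev m (Qm (e + 1) m) (Fin e → Fin (m + 1)) (bl m) (s m) μ
      (hs1 m) (hs2 m) hμ1 j).1
    have hcard : (Fintype.card (Fin e → Fin (m + 1)) : ℝ) = ((m : ℝ) + 1) ^ e := by
      rw [Fintype.card_fun, Fintype.card_fin, Fintype.card_fin]
      push_cast; rfl
    rw [hcard] at h1
    refine ⟨t, h1.trans (Real.exp_le_exp.2 ?_), fun a ha => ?_⟩
    · have h4 : C * (1 + j) * (((m : ℝ) + 1) ^ e * 2 ^ m) ≤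
          2 * C * (1 + j) * (((m : ℝ) + 1) ^ e * 2 ^ m) := by
        refine mul_le_mul_of_nonneg_right ?_ (by positivity)
        nlinarith [(Nat.cast_nonneg j : (0 : ℝ) ≤ j)]
      linarith
    · obtain ⟨z, hz, h3⟩ := h2 a ha
      refine ⟨z, hz, h3.trans ?_⟩
      rw [sqrt_card_B]
      gcongr
      linarith
  · intro m j
    obtain ⟨t, h1, h2⟩ := (hlev m (Qm (e + 1) m) (Fin e → Fin (m + 1)) (bl m) (s m) μ
      (hs1 m) (hs2 m) hμ1 j).2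
    have hcard : (Fintype.card (Fin e → Fin (m + 1)) : ℝ) = ((m : ℝ) + 1) ^ e := by
      rw [Fintype.card_fun, Fintype.card_fin, Fintype.card_fin]
      push_cast; rfl
    rw [hcard] at h1
    refine ⟨t, h1.trans (Real.exp_le_exp.2 ?_), fun a ha => ?_⟩
    · have h4 : C * (1 + j) * (((m : ℝ) + 1) ^ e * 2 ^ m) ≤
          2 * C * (1 + j) * (((m : ℝ) + 1) ^ e * 2 ^ m) := by
        refine mul_le_mul_of_nonneg_right ?_ (by positivity)
        nlinarith [(Nat.cast_nonneg j : (0 : ℝ) ≤ j)]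
      have h5 : (0 : ℝ) ≤ (2 : ℝ) ^ (-(j : ℝ)) := by positivity
      have := mul_le_mul_of_nonneg_right h4 h5
      linarith
    · obtain ⟨z, hz, h3⟩ := h2 a ha
      refine ⟨z, hz, h3.trans ?_⟩
      rw [sqrt_card_B, one_mul]
      gcongr
      linarith

end Pool.Agent.Helper60.SB
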