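import Pool.Agent.Helper60.SB.Link4
import Pool.Agent.Helper60.SB.Order

/-!
Upper bounds for small smoothness.
-/

open Finset MeasureTheory
open scoped ENNReal Real

namespace Pool.Agent.Helper60.SB

lemma isProb (d : ℕ) : IsProbabilityMeasure (tor d) := Pool.Agent.Helper3.SB.isProb_tor d

lemma Wclass_mono (d : ℕ) (𝕜 : Type) [RCLike 𝕜] (r : ℝ) {p p' : ℝ≥0∞} (h : p' ≤ p) :
    Wclass d 𝕜 r p ⊆ Wclass d 𝕜 r p' := by
  rintro f ⟨φ, h1, h2, rfl⟩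
  haveI := isProb d
  exact ⟨φ, h1.mono_exponent h, (eLpNorm_le_eLpNorm_of_exponent_le h h1.1).trans h2, rfl⟩

lemma measurable_mixedDiff {d : ℕ} {𝕜 : Type} [RCLike 𝕜] (l : ℕ) (e : Finset (Fin d))
    (t : Fin d → ℝ) (f : (Fin d → ℝ) → 𝕜) (hf : Measurable f) :
    Measurable (mixedDiff l e t f) := by
  unfold mixedDiff
  refine Finset.measurable_fun_sum _ fun ν _ => ?_
  refine Measurable.const_mul (hf.comp ?_) _
  exact measurable_pi_lambda _ fun j => (measurable_pi_apply j).add_const _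

lemma Hclass_mono (d : ℕ) (𝕜 : Type) [RCLike 𝕜] (r : ℝ) {p p' : ℝ≥0∞} (h : p' ≤ p) :
    Hclass d 𝕜 r p ⊆ Hclass d 𝕜 r p' := by
  rintro f ⟨hm, hper, h1, h2⟩
  haveI := isProb d
  refine ⟨hm, hper, (eLpNorm_le_eLpNorm_of_exponent_le h hm.aestronglyMeasurable).trans h1,
    fun e t he => ?_⟩
  exact (eLpNorm_le_eLpNorm_of_exponent_le h
    (measurable_mixedDiff _ e t f hm).aestronglyMeasurable).trans (h2 e t he)

lemma entropyNumber_mono {d : ℕ} {𝕜 : Type} [RCLike 𝕜] {F G : Set ((Fin d → ℝ) → 𝕜)}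
    (h : F ⊆ G) (n : ℕ) : entropyNumber n F ≤ entropyNumber n G :=
  sInf_le_sInf fun _ ⟨h1, y, h2, h3⟩ => ⟨h1, y, h2, fun f hf => h3 f (h hf)⟩

lemma exists_real_p (p : ℝ≥0∞) (hp : 1 ≤ p) (r : ℝ) (hr2 : r ≤ 1 / 2)
    (hr1 : 1 / p.toReal < r) : ∃ p' : ℝ, 2 < p' ∧ 1 / p' < r ∧ ENNReal.ofReal p' ≤ p := by
  by_cases h : p = ⊤
  · subst h
    have hr : 0 < r := by simpa using hr1
    refine ⟨max 3 (2 / r), lt_max_of_lt_left (by norm_num), ?_, le_top⟩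
    have h1 : 2 / r ≤ max 3 (2 / r) := le_max_right _ _
    have h2 : 0 < 2 / r := by positivity
    calc 1 / max 3 (2 / r) ≤ 1 / (2 / r) := one_div_le_one_div_of_le h2 h1
      _ = r / 2 := by field_simp
      _ < r := by linarith
  · have h0 : 0 < p.toReal := ENNReal.toReal_pos (by positivity) h
    refine ⟨p.toReal, ?_, hr1, (ENNReal.ofReal_toReal h).le⟩
    have h1 : 1 / p.toReal < 1 / 2 := hr1.trans_le hr2
    exact (one_div_lt_one_div h0 (by norm_num)).1 h1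

lemma CovF.mono {d : ℕ} {S : Set ((Fin d → ℝ) → ℂ)} {ε ε' K K' : ℝ} (h : CovF S ε K)
    (hε : ε ≤ ε') (hK : K ≤ K') : CovF S ε' K' := by
  obtain ⟨t, h1, h2, h3⟩ := h
  refine ⟨t, h1.trans (Real.exp_le_exp.2 hK), h2, fun f hf => ?_⟩
  obtain ⟨y, hy, h4⟩ := h3 f hf
  exact ⟨y, hy, fun x => (h4 x).trans hε⟩

/-- the decomposition of a represented function -/
lemma dec_of_rep (e : ℕ) (r p a C₀ : ℝ) (hp : 2 < p) (hpr : 1 / p < r) (ha : 0 ≤ a)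
    (hC₀ : 1 ≤ C₀) : ∃ C₁ : ℝ, ∀ (f : (Fin (e + 1) → ℝ) → ℂ)
      (y : (m : ℕ) → (Qs (e + 1) m × Bool → ℝ)), SRep r p a C₀ f y →
      (∀ m, TT (Qs (e + 1) m) (y m) ∈ SLev e p a C₀ m) ∧
      ∀ J : ℕ, ∀ᵐ x ∂(tor (e + 1)),
        ‖f x - ∑ m ∈ range J, (((2 : ℝ) ^ (-(r * m)) : ℝ) : ℂ) * TT (Qs (e + 1) m) (y m) x‖ ≤
          C₁ * ((J : ℝ) + 1) ^ ((e : ℝ) + a) * (2 : ℝ) ^ (-((r - 1 / p) * J)) := by
  obtain ⟨C₂, hC₂, hsup⟩ := Pool.Agent.Helper30.SB.rep_sup e r p a C₀ hp ha hC₀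
  obtain ⟨C₁, hdec⟩ := Pool.Agent.Helper30.SB.decomp_s e r (1 / p) ((e : ℝ) + a) C₂ hpr
    (by positivity) (by linarith)
  refine ⟨C₁, fun f y hy => ⟨fun m => ?_, fun J => ?_⟩⟩
  · exact ⟨y m, rfl, hy.2.2.1 m, fun A hA => hy.2.2.2 m A hA⟩
  · exact hdec f hy.1 y hy.2.1 (fun m x => hsup f y hy m x) J

/-- `sum_small` with the exponents used here -/
lemma sum_small' (e : ℕ) (r p a C : ℝ) (hκ : 0 < 1 / p) (hκr : 1 / p < r) (hr : r < 1 / 2)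
    (he : (0 : ℝ) ≤ e) (ha : 0 ≤ a) (hC : 1 ≤ C)
    (F : Set ((Fin (e + 1) → ℝ) → ℂ)) (S : ℕ → Set ((Fin (e + 1) → ℝ) → ℂ))
    (covA : ∀ (m : ℕ) (K : ℝ), 0 < K → CovF (S m)
      (C * ((m : ℝ) + 1) ^ (e : ℝ) * Real.sqrt (((m : ℝ) + 1) ^ (a + 1 - e) * 2 ^ m / K)) (K + 1))
    (covB : ∀ (m : ℕ) (K : ℝ), 0 < K → CovF (S m)
      (C * ((m : ℝ) + 1) ^ (e : ℝ) * (((m : ℝ) + 1) ^ (a + 1 - e) * 2 ^ m / K) ^ (1 / p)) (K + 1))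
    (dec : ∀ f ∈ F, ∃ g : ℕ → (Fin (e + 1) → ℝ) → ℂ, (∀ m, g m ∈ S m) ∧ ∀ J : ℕ,
      ∀ᵐ x ∂(tor (e + 1)), ‖f x - ∑ m ∈ range J, (((2 : ℝ) ^ (-(r * m)) : ℝ) : ℂ) * g m x‖ ≤
        C * ((J : ℝ) + 1) ^ ((e : ℝ) + a) * (2 : ℝ) ^ (-((r - 1 / p) * J))) (hκ1 : 1 / p < 1) :
    ∃ C' > 0, ∃ n₀ : ℕ, ∀ n ≥ n₀, entropyNumber n F ≤
      ENNReal.ofReal (C' * (n : ℝ) ^ (-r) * Real.log n ^ ((e : ℝ) + (a + 1 - e) * r)) :=
  Pool.Agent.Helper26.SB.sum_small e r (1 / p) e (a + 1 - e) ((e : ℝ) + a) C hκ hκr hr he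
    (by linarith) (by nlinarith) (by positivity) hC F S covA covB dec

/-- upper bound, `r < 1/2` -/
theorem upper_small_of_rep (e : ℕ) (r p a C₀ : ℝ) (hr2 : r < 1 / 2) (hp : 2 < p)
    (hpr : 1 / p < r) (ha : 0 ≤ a) (hC₀ : 1 ≤ C₀) (F : Set ((Fin (e + 1) → ℝ) → ℂ))
    (hF : ∀ f ∈ F, ∃ y : (m : ℕ) → (Qs (e + 1) m × Bool → ℝ), SRep r p a C₀ f y) :
    ∃ C' > 0, ∃ n₀ : ℕ, ∀ n ≥ n₀, entropyNumber n F ≤
      ENNReal.ofReal (C' * (n : ℝ) ^ (-r) * Real.log n ^ ((e : ℝ) + (a + 1 - e) * r)) := by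
  obtain ⟨CA, hCA, hA⟩ := slev_A e p a C₀ hC₀
  obtain ⟨CB, hCB, hB⟩ := slev_B e p a C₀ hp hC₀
  obtain ⟨C₁, hdec⟩ := dec_of_rep e r p a C₀ hp hpr ha hC₀
  have hκ : 0 < 1 / p := by positivity
  have hκ1 : 1 / p < 1 := by linarith
  set C : ℝ := max CA (max CB C₁) with hC
  have h1 : CA ≤ C := le_max_left _ _
  have h2 : CB ≤ C := (le_max_left _ _).trans (le_max_right _ _)
  have h3 : C₁ ≤ C := (le_max_right _ _).trans (le_max_right _ _)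
  have he0 : (0 : ℝ) ≤ e := Nat.cast_nonneg e
  refine sum_small' e r p a C hκ hpr hr2 he0 ha (hCA.trans h1) F (SLev e p a C₀) ?_ ?_ ?_ hκ1
  · intro m K hK
    refine (hA m K hK).mono ?_ le_rfl
    rw [← Real.rpow_natCast]
    have : (0 : ℝ) ≤ ((m : ℝ) + 1) ^ (e : ℝ) * Real.sqrt (((m : ℝ) + 1) ^ (a + 1 - e) * 2 ^ m / K) := by
      positivity
    nlinarith
  · intro m K hK
    refine (hB m K hK).mono ?_ le_rfl
    rw [← Real.rpow_natCast]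
    have : (0 : ℝ) ≤ ((m : ℝ) + 1) ^ (e : ℝ) *
        (((m : ℝ) + 1) ^ (a + 1 - e) * 2 ^ m / K) ^ (1 / p) := by
      positivity
    nlinarith
  · intro f hf
    obtain ⟨y, hy⟩ := hF f hf
    obtain ⟨h4, h5⟩ := hdec f y hy
    refine ⟨fun m => TT (Qs (e + 1) m) (y m), h4, fun J => ?_⟩
    filter_upwards [h5 J] with x hx
    refine hx.trans ?_
    gcongr

/-- upper bound, `r = 1/2` -/
theorem upper_half_of_rep (e : ℕ) (p a g' C₀ : ℝ) (hp : 2 < p) (ha : 0 ≤ a) (hg' : 0 ≤ g')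
    (hC₀ : 1 ≤ C₀) (F : Set ((Fin (e + 1) → ℝ) → ℂ))
    (hF : ∀ f ∈ F, ∃ y : (m : ℕ) → (Qs (e + 1) m × Bool → ℝ), SRep (1 / 2) p a C₀ f y ∧
      ∀ m₀ m₁ : ℕ, ∑ m ∈ Finset.Ico m₀ m₁, ∑ i, (y m i) ^ 2 ≤
        (C₀ * ((m₁ - m₀ : ℕ) : ℝ) ^ g' * ((m₁ : ℝ) + 1) ^ (a / 2)) ^ 2) :
    ∃ C' > 0, ∃ n₀ : ℕ, ∀ n ≥ n₀, entropyNumber n F ≤
      ENNReal.ofReal (C' * (n : ℝ) ^ (-(1 / 2 : ℝ)) * Real.log n ^ (((e : ℝ) + 1 + a) / 2) *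
        Real.log (Real.log n) ^ (g' + 1 / 2)) := by
  have hpr : 1 / p < 1 / 2 := one_div_lt_one_div_of_lt (by norm_num) hp
  have hκ : 0 < 1 / p := by positivity
  have he0 : (0 : ℝ) ≤ e := Nat.cast_nonneg e
  obtain ⟨CL, hCL, hL⟩ := slev_low e p a C₀ hC₀
  obtain ⟨CB, hCB, hB⟩ := slev_B e p a C₀ hp hC₀
  obtain ⟨CW, hCW, hW⟩ := window_cov e
  obtain ⟨C₁, hdec⟩ := dec_of_rep e (1 / 2) p a C₀ hp hpr ha hC₀
  set C : ℝ := max (max CL (CW * C₀)) (max CB C₁) with hC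
  have h1 : CL ≤ C := (le_max_left _ _).trans (le_max_left _ _)
  have h2 : CB ≤ C := (le_max_left _ _).trans (le_max_right _ _)
  have h3 : C₁ ≤ C := (le_max_right _ _).trans (le_max_right _ _)
  have h4 : CW * C₀ ≤ C := (le_max_right _ _).trans (le_max_left _ _)
  refine Pool.Agent.Helper26.SB.sum_half e (1 / p) e (a + 1 - e) ((e : ℝ) + a) (a / 2 + 1 / 2)
    (g' + 1 / 2) (((e : ℝ) + 1 + a) / 2) C hκ hpr he0 (by linarith) (by positivity)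
    (by linarith) (by positivity) (hCL.trans h1) (by linarith) (by linarith)
    (by nlinarith) F (SLev e p a C₀)
    (fun m₀ m₁ => {g | ∃ y : (m : ℕ) → (Qs (e + 1) m × Bool → ℝ),
      ∑ m ∈ Finset.Ico m₀ m₁, ∑ i, (y m i) ^ 2 ≤
        (C₀ * ((m₁ - m₀ : ℕ) : ℝ) ^ g' * ((m₁ : ℝ) + 1) ^ (a / 2)) ^ 2 ∧
      g = fun x => ∑ m ∈ Finset.Ico m₀ m₁, (((2 : ℝ) ^ (-(1 / 2 * (m : ℝ))) : ℝ) : ℂ) *
        TT (Qs (e + 1) m) (y m) x}) ?_ ?_ ?_ ?_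
  · intro m j
    refine (hL m j).mono ?_ ?_
    · gcongr
    · have : CL * (1 + j) * ((m : ℝ) + 1) ^ e * 2 ^ m ≤ C * (1 + j) * ((m : ℝ) + 1) ^ e * 2 ^ m := by
        gcongr
      linarith
  · intro m₀ m₁ K hm hK
    have hd : (0 : ℝ) < ((m₁ - m₀ : ℕ) : ℝ) := by
      have : 0 < m₁ - m₀ := Nat.sub_pos_of_lt hm
      exact_mod_cast this
    have hm1 : (0 : ℝ) < (m₁ : ℝ) + 1 := by positivity
    have hD : 0 < C₀ * ((m₁ - m₀ : ℕ) : ℝ) ^ g' * ((m₁ : ℝ) + 1) ^ (a / 2) := by positivity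
    refine (hW m₀ m₁ _ K hD hK).mono ?_ le_rfl
    set δ : ℝ := ((m₁ - m₀ : ℕ) : ℝ) with hδ
    set M : ℝ := (m₁ : ℝ) + 1 with hM
    have h5 : Real.sqrt (δ * M ^ (e + 1) / K) = δ ^ (1 / 2 : ℝ) * M ^ (((e : ℝ) + 1) / 2) /
        Real.sqrt K := by
      rw [Real.sqrt_div (by positivity), Real.sqrt_mul hd.le, Real.sqrt_eq_rpow δ,
        Real.sqrt_eq_rpow (M ^ (e + 1)), ← Real.rpow_natCast M, ← Real.rpow_mul hm1.le]
      congr 3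
      push_cast; ring
    have h6 : δ ^ (g' + 1 / 2) = δ ^ g' * δ ^ (1 / 2 : ℝ) := Real.rpow_add hd _ _
    have h7 : M ^ (((e : ℝ) + 1 + a) / 2) = M ^ (((e : ℝ) + 1) / 2) * M ^ (a / 2) := by
      rw [← Real.rpow_add hm1]
      congr 1
      ring
    rw [h5, h6, h7]
    calc CW * (C₀ * δ ^ g' * M ^ (a / 2)) * (δ ^ (1 / 2 : ℝ) * M ^ (((e : ℝ) + 1) / 2) /
          Real.sqrt K) = (CW * C₀) * (δ ^ g' * δ ^ (1 / 2 : ℝ)) *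
          (M ^ (((e : ℝ) + 1) / 2) * M ^ (a / 2)) / Real.sqrt K := by ring
      _ ≤ _ := by gcongr
  · intro m K hK
    refine (hB m K hK).mono ?_ le_rfl
    rw [← Real.rpow_natCast]
    have : (0 : ℝ) ≤ ((m : ℝ) + 1) ^ (e : ℝ) *
        (((m : ℝ) + 1) ^ (a + 1 - e) * 2 ^ m / K) ^ (1 / p) := by
      positivity
    nlinarith
  · intro f hf
    obtain ⟨y, hy, hj⟩ := hF f hf
    obtain ⟨h5, h6⟩ := hdec f y hy
    refine ⟨fun m => TT (Qs (e + 1) m) (y m), h5, fun m₀ m₁ => ⟨y, hj m₀ m₁, rfl⟩, fun J => ?_⟩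
    filter_upwards [h6 J] with x hx
    refine hx.trans ?_
    gcongr

/-! ### the classes -/

theorem upper_W_small (e : ℕ) (𝕜 : Type) [RCLike 𝕜] (p : ℝ≥0∞) (hp : 1 ≤ p) (r : ℝ)
    (hr1 : 1 / p.toReal < r) (hr2 : r < 1 / 2) :
    ∃ C > 0, ∃ n₀ : ℕ, ∀ n ≥ n₀, entropyNumber n (Wclass (e + 1) 𝕜 r p) ≤
      ENNReal.ofReal (C * (n : ℝ) ^ (-r) * Real.log n ^ ((e : ℝ) * (1 - r) + r)) := by
  obtain ⟨p', h1, h2, h3⟩ := exists_real_p p hp r hr2.le hr1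
  have hr : 0 < r := lt_of_le_of_lt (by positivity) h2
  obtain ⟨C₀, hC₀, hrep⟩ := rep_W e r p' hr h1
  obtain ⟨C, hC, n₀, h⟩ := upper_small_of_rep e r p' 0 C₀ hr2 h1 h2 le_rfl hC₀
    (Wclass (e + 1) ℂ r (ENNReal.ofReal p')) (fun f hf => by
      obtain ⟨y, hy, _⟩ := hrep f hf
      exact ⟨y, hy⟩)
  refine ⟨C, hC, n₀, fun n hn => ?_⟩
  refine (entropy_W_field _ 𝕜 r p n).trans ((entropyNumber_mono (Wclass_mono _ ℂ r h3) n).trans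
    ((h n hn).trans (le_of_eq ?_)))
  congr 3
  ring

theorem upper_H_small (e : ℕ) (𝕜 : Type) [RCLike 𝕜] (p : ℝ≥0∞) (hp : 1 ≤ p) (r : ℝ)
    (hr1 : 1 / p.toReal < r) (hr2 : r < 1 / 2) :
    ∃ C > 0, ∃ n₀ : ℕ, ∀ n ≥ n₀, entropyNumber n (Hclass (e + 1) 𝕜 r p) ≤
      ENNReal.ofReal (C * (n : ℝ) ^ (-r) * Real.log n ^ ((e : ℝ) + r)) := by
  obtain ⟨p', h1, h2, h3⟩ := exists_real_p p hp r hr2.le hr1
  have hr : 0 < r := lt_of_le_of_lt (by positivity) h2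
  obtain ⟨C₀, hC₀, hrep⟩ := rep_H e r p' hr (by linarith) h1
  obtain ⟨C, hC, n₀, h⟩ := upper_small_of_rep e r p' e C₀ hr2 h1 h2 (Nat.cast_nonneg e) hC₀
    (Hclass (e + 1) ℂ r (ENNReal.ofReal p')) (fun f hf => hrep f hf)
  refine ⟨C, hC, n₀, fun n hn => ?_⟩
  refine (entropy_H_field _ 𝕜 r p n).trans ((entropyNumber_mono (Hclass_mono _ ℂ r h3) n).trans
    ((h n hn).trans (le_of_eq ?_)))
  congr 3
  ring

theorem upper_W_half (e : ℕ) (𝕜 : Type) [RCLike 𝕜] (p : ℝ≥0∞) (hp : 1 ≤ p)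
    (hr1 : 1 / p.toReal < 1 / 2) :
    ∃ C > 0, ∃ n₀ : ℕ, ∀ n ≥ n₀, entropyNumber n (Wclass (e + 1) 𝕜 (1 / 2) p) ≤
      ENNReal.ofReal (C * (n : ℝ) ^ (-(1 / 2 : ℝ)) * Real.log n ^ (((e : ℝ) + 1) / 2) *
        Real.log (Real.log n) ^ (1 / 2 : ℝ)) := by
  obtain ⟨p', h1, h2, h3⟩ := exists_real_p p hp (1 / 2) le_rfl hr1
  obtain ⟨C₀, hC₀, hrep⟩ := rep_W e (1 / 2) p' (by norm_num) h1
  obtain ⟨C, hC, n₀, h⟩ := upper_half_of_rep e p' 0 0 C₀ h1 le_rfl le_rfl hC₀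
    (Wclass (e + 1) ℂ (1 / 2) (ENNReal.ofReal p')) (fun f hf => by
      obtain ⟨y, hy, hj⟩ := hrep f hf
      refine ⟨y, hy, fun m₀ m₁ => ?_⟩
      simp only [Real.rpow_zero, zero_div, mul_one]
      refine le_trans ?_ (hj m₁)
      refine Finset.sum_le_sum_of_subset_of_nonneg (fun m hm => ?_) fun m _ _ =>
        Finset.sum_nonneg fun i _ => sq_nonneg _
      rw [Finset.mem_Ico] at hm
      exact Finset.mem_range.2 hm.2)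
  refine ⟨C, hC, n₀, fun n hn => ?_⟩
  refine (entropy_W_field _ 𝕜 _ p n).trans ((entropyNumber_mono (Wclass_mono _ ℂ _ h3) n).trans
    ((h n hn).trans (le_of_eq ?_)))
  rw [add_zero, zero_add]

theorem upper_H_half (e : ℕ) (𝕜 : Type) [RCLike 𝕜] (p : ℝ≥0∞) (hp : 1 ≤ p)
    (hr1 : 1 / p.toReal < 1 / 2) :
    ∃ C > 0, ∃ n₀ : ℕ, ∀ n ≥ n₀, entropyNumber n (Hclass (e + 1) 𝕜 (1 / 2) p) ≤
      ENNReal.ofReal (C * (n : ℝ) ^ (-(1 / 2 : ℝ)) * Real.log n ^ ((e : ℝ) + 1 / 2) *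
        Real.log (Real.log n)) := by
  obtain ⟨p', h1, h2, h3⟩ := exists_real_p p hp (1 / 2) le_rfl hr1
  obtain ⟨C₀, hC₀, hrep⟩ := rep_H e (1 / 2) p' (by norm_num) (by norm_num) h1
  obtain ⟨C, hC, n₀, h⟩ := upper_half_of_rep e p' e (1 / 2) C₀ h1 (Nat.cast_nonneg e)
    (by norm_num) hC₀ (Hclass (e + 1) ℂ (1 / 2) (ENNReal.ofReal p')) (fun f hf => by
      obtain ⟨y, hy⟩ := hrep f hf
      refine ⟨y, hy, fun m₀ m₁ => ?_⟩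
      have h4 : ∀ m ∈ Finset.Ico m₀ m₁, ∑ i, (y m i) ^ 2 ≤ C₀ ^ 2 * ((m₁ : ℝ) + 1) ^ (e : ℝ) := by
        intro m hm
        rw [Finset.mem_Ico] at hm
        refine (hy.2.2.1 m).trans ?_
        have : (m : ℝ) ≤ m₁ := by exact_mod_cast hm.2.le
        gcongr
      refine (Finset.sum_le_sum h4).trans (le_of_eq ?_)
      rw [Finset.sum_const, Nat.card_Ico, nsmul_eq_mul, mul_pow, mul_pow, ← Real.sqrt_eq_rpow,
        Real.sq_sqrt (Nat.cast_nonneg _), ← Real.rpow_natCast (((m₁ : ℝ) + 1) ^ ((e : ℝ) / 2)),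
        ← Real.rpow_mul (by positivity)]
      have h5 : (e : ℝ) / 2 * ((2 : ℕ) : ℝ) = e := by push_cast; ring
      rw [h5]
      ring)
  refine ⟨C, hC, n₀, fun n hn => ?_⟩
  refine (entropy_H_field _ 𝕜 _ p n).trans ((entropyNumber_mono (Hclass_mono _ ℂ _ h3) n).trans
    ((h n hn).trans (le_of_eq ?_)))
  have h5 : ((e : ℝ) + 1 + e) / 2 = e + 1 / 2 := by ring
  have h6 : (1 / 2 : ℝ) + 1 / 2 = 1 := by norm_num
  rw [h5, h6, Real.rpow_one]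

end Pool.Agent.Helper60.SB
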