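import Pool.Agent.Helper60.SB.P11d
import Pool.Agent.Helper60.SB.OrderSmall
import Pool.Agent.Helper21.SB.P5
import Pool.Agent.Helper26.SB.P1
import Pool.Agent.Helper7.SB.P6

/-!
The classes `W^r_1`, `r > 1`.
-/

open Finset MeasureTheory
open scoped ENNReal Real

namespace Pool.Agent.Helper60.SB

/-- lower bound at the special integers -/
theorem W_one_pack (e : ℕ) (he : 1 ≤ e) (r : ℝ) (hr : 1 < r) (𝕜 : Type) [RCLike 𝕜] :
    ∃ c > 0, ∃ m₀ : ℕ, ∀ m ≥ m₀, ∀ n : ℕ,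
      (n : ℝ) ≤ c * ((m ^ (e + 1) * 2 ^ ((e + 2) * m) : ℕ) : ℝ) →
      ENNReal.ofReal (c * (2 : ℝ) ^ (-(r * (((e : ℝ) + 2) * m))) * (m : ℝ) ^ (1 : ℝ)) ≤
        entropyNumber n (Wclass (e + 2) 𝕜 r 1) :=
  W_one_pack_of
    (fun e C₀ hC₀ => Pool.Agent.Helper84.SB.nl_energy_of
      (fun e m blk a x y => Pool.Agent.Helper11.SB.av_nl_mul_le blk a x y)
      (fun e C₀ hC₀ => Pool.Agent.Helper7.SB.P6.kernel_int kernel_sum e C₀ hC₀) e C₀ hC₀)
    (fun e r hr => Pool.Agent.Helper22.SB.outer_W_one Pool.Agent.Helper52.SB.sum_outer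
      Pool.Agent.Helper26.SB.level_entropy_W1 e r hr)
    e he r hr 𝕜

theorem lower_W_one (e : ℕ) (he : 1 ≤ e) (r : ℝ) (hr : 1 < r) (𝕜 : Type) [RCLike 𝕜] :
    ∃ c > 0, ∃ n₀ : ℕ, ∀ n ≥ n₀,
      ENNReal.ofReal (c * (n : ℝ) ^ (-r) * Real.log n ^ (((e : ℝ) + 1) * r + 1)) ≤
        entropyNumber n (Wclass (e + 2) 𝕜 r 1) := by
  obtain ⟨c, hc, m₀, h⟩ := W_one_pack e he r hr 𝕜
  obtain ⟨c', hc', n₀, h'⟩ := Pool.Agent.Helper7.SB.asym e c r 1 hc (by linarith) zero_le_one m₀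
  refine ⟨c * c', by positivity, n₀, fun n hn => ?_⟩
  obtain ⟨m, hm, -, h1, h2⟩ := h' n hn
  refine le_trans (ENNReal.ofReal_le_ofReal ?_) (h m hm n h1)
  calc c * c' * (n : ℝ) ^ (-r) * Real.log n ^ (((e : ℝ) + 1) * r + 1) =
      c * (c' * (n : ℝ) ^ (-r) * Real.log n ^ (((e : ℝ) + 1) * r + 1)) := by ring
    _ ≤ c * ((2 : ℝ) ^ (-(r * (((e : ℝ) + 2) * m))) * (m : ℝ) ^ (1 : ℝ)) := by gcongr
    _ = _ := by ring

/-- upper bound for the classes `W^r_1`, complex scalars -/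
theorem upper_W_one_complex (e : ℕ) (r : ℝ) (hr1 : 1 < r) :
    ∃ C' > 0, ∃ n₀ : ℕ, ∀ n ≥ n₀, entropyNumber n (Wclass (e + 1) ℂ r 1) ≤
      ENNReal.ofReal (C' * (n : ℝ) ^ (-r) * Real.log n ^ ((e : ℝ) * r + 1)) := by
  have hr : 0 < r := by linarith
  obtain ⟨C, hC, hlev⟩ := Pool.Agent.Helper26.SB.level_entropy_W1 (e + 1)
  set μ : (Fin (e + 1) → ℤ) → ℂ := fun k =>
    (((2 : ℝ) ^ (-(r * ((e : ℝ) + 1))) * (2 : ℝ) ^ (r * ∑ j, (lev k j : ℝ)) : ℝ) : ℂ) *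
      ∏ j, bmul r r (k j) with hμ
  have hμ1 : ∀ k, ‖μ k‖ ≤ 1 := by
    intro k
    rw [hμ]
    simp only [norm_mul, Complex.norm_real, Real.norm_eq_abs]
    rw [← abs_mul, abs_of_pos (by positivity)]
    have h1 := norm_bmul_le r hr k
    have h2 : (0 : ℝ) ≤ (2 : ℝ) ^ (-(r * ((e : ℝ) + 1))) * (2 : ℝ) ^ (r * ∑ j, (lev k j : ℝ)) := by
      positivity
    refine (mul_le_mul_of_nonneg_left h1 h2).trans (le_of_eq ?_)
    push_cast
    rw [← Real.rpow_add (by norm_num), ← Real.rpow_add (by norm_num),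
      ← Real.rpow_add (by norm_num)]
    have : -(r * ((e : ℝ) + 1)) + r * ∑ j, (lev k j : ℝ) +
        (r * ((e : ℝ) + 1) + -(r * ∑ j, (lev k j : ℝ))) = 0 := by ring
    rw [this, Real.rpow_zero]
  have hsq : ∀ m : ℕ, ((m : ℝ) + 1) ^ (1 / 2 : ℝ) * Real.sqrt (m + 1) = (m : ℝ) + 1 := by
    intro m
    rw [← Real.sqrt_eq_rpow]
    exact Real.mul_self_sqrt (by positivity)
  have hmain := upper_general e r 1 (1 / 2) ((2 : ℝ) ^ (r * ((e : ℝ) + 1))) one_pos hr1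
    (by norm_num) (Real.one_le_rpow (by norm_num) (by positivity)) (Wclass (e + 1) ℂ r 1)
    (fun m => Sset (Qm (e + 1) m) Unit (fun _ => ()) μ 1) (2 * C) ((e : ℝ) * 1)
    (by linarith) (by positivity) ?_ ?_ ?_ ?_
  · obtain ⟨C', hC', n₀, h⟩ := hmain
    refine ⟨C', hC', n₀, fun n hn => (h n hn).trans (le_of_eq ?_)⟩
    norm_num
  · rintro f ⟨φ, hφ, hφ1, rfl⟩
    have hφi : Integrable φ (tor (e + 1)) := by
      have : IsProbabilityMeasure (tor (e + 1)) := Pool.Agent.Helper3.SB.isProb_tor _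
      exact hφ.integrable le_rfl
    obtain ⟨h1, h2⟩ := fc_conv (e + 1) r hr φ hφi
    refine ⟨h1, fun m => ?_⟩
    refine ⟨fun i => if i.2 then (μ i.1 * fc φ i.1).im else (μ i.1 * fc φ i.1).re, ?_, ?_⟩
    · refine ⟨fun _ => φ, fun _ => ⟨hφ, hφ1⟩, fun k => ?_⟩
      unfold cco
      simp only [Bool.false_eq_true, if_false, if_true]
      exact Complex.re_add_im _
    · intro k
      have h3 : cco (fun i : Qm (e + 1) m × Bool => if i.2 then (μ i.1 * fc φ i.1).im else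
          (μ i.1 * fc φ i.1).re) k = μ k * fc φ k := by
        unfold cco
        simp only [Bool.false_eq_true, if_false, if_true]
        exact Complex.re_add_im _
      have h4 : (((2 : ℝ) ^ (r * ((e : ℝ) + 1)) : ℝ) : ℂ) * μ k =
          (((2 : ℝ) ^ (r * m) : ℝ) : ℂ) * ∏ j, bmul r r ((k : Fin (e + 1) → ℤ) j) := by
        rw [hμ]
        simp only
        rw [level_of_mem k, ← mul_assoc, ← Complex.ofReal_mul, ← mul_assoc,
          ← Real.rpow_add (by norm_num), add_neg_cancel, Real.rpow_zero, one_mul]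
      rw [h3, ← mul_assoc, h4, mul_assoc]
      exact congrArg _ (h2 k)
  · intro m y hy x
    have h1 := TT_Sset_le (Qm (e + 1) m) Unit (fun _ => ()) μ hμ1 1 le_rfl y hy x
    refine h1.trans ?_
    have h2 := card_Qm_pow_le e m one_pos
    have h3 : max (1 / (1 : ℝ≥0∞).toReal) (1 / 2) = 1 := by norm_num
    rw [h3]
    simp only [Fintype.card_unit, Nat.cast_one, mul_one]
    simp only [mul_one] at h2
    have h4 : (0 : ℝ) ≤ ((m : ℝ) + 1) ^ (e : ℝ) * (2 : ℝ) ^ (1 * (m : ℝ)) := by positivity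
    calc 2 * ((Qm (e + 1) m).card : ℝ) ^ (1 : ℝ) ≤
        2 * (((m : ℝ) + 1) ^ (e : ℝ) * (2 : ℝ) ^ (1 * (m : ℝ))) := by linarith
      _ ≤ (2 * C) * (((m : ℝ) + 1) ^ (e : ℝ) * (2 : ℝ) ^ (1 * (m : ℝ))) := by
          refine mul_le_mul_of_nonneg_right (by linarith) h4
      _ = _ := by ring
  · intro m j
    obtain ⟨t, h1, h2⟩ := (hlev m (Qm (e + 1) m) μ (Qm_le (e + 1) m) hμ1 j).1
    refine ⟨t, h1.trans (Real.exp_le_exp.2 ?_), fun a ha => ?_⟩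
    · have h3 := card_Qm e m
      have h4 : C * (1 + j) * (Qm (e + 1) m).card ≤ 2 * C * (1 + j) * (((m : ℝ) + 1) ^ e * 2 ^ m) := by
        refine mul_le_mul ?_ h3 (by positivity) (by positivity)
        nlinarith [(Nat.cast_nonneg j : (0 : ℝ) ≤ j)]
      linarith
    · obtain ⟨z, hz, h3⟩ := h2 a ha
      refine ⟨z, hz, h3.trans ?_⟩
      rw [mul_assoc (2 * C), hsq m]
      gcongr
      linarith
  · intro m j
    obtain ⟨t, h1, h2⟩ := (hlev m (Qm (e + 1) m) μ (Qm_le (e + 1) m) hμ1 j).2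
    refine ⟨t, h1.trans (Real.exp_le_exp.2 ?_), fun a ha => ?_⟩
    · have h3 := card_Qm e m
      have h4 : C * (1 + j) * (Qm (e + 1) m).card ≤ 2 * C * (1 + j) * (((m : ℝ) + 1) ^ e * 2 ^ m) := by
        refine mul_le_mul ?_ h3 (by positivity) (by positivity)
        nlinarith [(Nat.cast_nonneg j : (0 : ℝ) ≤ j)]
      have h5 : (0 : ℝ) ≤ (2 : ℝ) ^ (-(j : ℝ)) := by positivity
      have := mul_le_mul_of_nonneg_right h4 h5
      linarith
    · obtain ⟨z, hz, h3⟩ := h2 a ha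
      refine ⟨z, hz, h3.trans ?_⟩
      rw [mul_assoc (2 * C), hsq m, one_mul]
      gcongr
      linarith

/-- order of the entropy numbers of `W^r_1`, `d = e + 2 ≥ 3` -/
theorem order_W_one (e : ℕ) (he : 1 ≤ e) (r : ℝ) (hr : 1 < r) (𝕜 : Type) [RCLike 𝕜] :
    ∃ c > 0, ∃ C > 0, ∃ n₀ : ℕ, ∀ n ≥ n₀,
      ENNReal.ofReal (c * (n : ℝ) ^ (-r) * Real.log n ^ (((e : ℝ) + 1) * r + 1)) ≤
        entropyNumber n (Wclass (e + 2) 𝕜 r 1) ∧
      entropyNumber n (Wclass (e + 2) 𝕜 r 1) ≤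
        ENNReal.ofReal (C * (n : ℝ) ^ (-r) * Real.log n ^ (((e : ℝ) + 1) * r + 1)) := by
  obtain ⟨c, hc, n₁, h1⟩ := lower_W_one e he r hr 𝕜
  obtain ⟨C, hC, n₂, h2⟩ := upper_W_one_complex (e + 1) r hr
  refine ⟨c, hc, C, hC, max n₁ n₂, fun n hn => ⟨h1 n ((le_max_left _ _).trans hn), ?_⟩⟩
  refine (entropy_W_field _ 𝕜 r 1 n).trans ((h2 n ((le_max_right _ _).trans hn)).trans
    (le_of_eq ?_))
  push_cast
  rfl

end Pool.Agent.Helper60.SB
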